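import Mathlib

set_option autoImplicit false

/-!
# Harnack's inequality for `log ‖f‖`
-/

namespace Pool.MP_500150_lc.H8

open Metric Set

/-- A holomorphic logarithm on a disc. -/
lemma exists_log {f : ℂ → ℂ} {x : ℂ} {R : ℝ} (hR : 0 < R) (hf : DifferentiableOn ℂ f (ball x R))
    (h0 : ∀ z ∈ ball x R, f z ≠ 0) :
    ∃ g : ℂ → ℂ, DifferentiableOn ℂ g (ball x R) ∧ ∀ z ∈ ball x R, f z = Complex.exp (g z) := by
  have hx : x ∈ ball x R := mem_ball_self hR
  have hfd : DifferentiableOn ℂ (deriv f) (ball x R) := hf.deriv isOpen_ball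
  have hq : DifferentiableOn ℂ (fun z => deriv f z / f z) (ball x R) := hfd.div hf h0
  obtain ⟨g, hgx, hg⟩ := hq.isExactOn_ball.with_val_at x (Complex.log (f x))
  have hgd : DifferentiableOn ℂ g (ball x R) :=
    fun z hz => (hg z hz).differentiableAt.differentiableWithinAt
  refine ⟨g, hgd, ?_⟩
  set F : ℂ → ℂ := fun z => f z * Complex.exp (-(g z)) with hF
  have hFd : ∀ z ∈ ball x R, HasDerivAt F 0 z := by
    intro z hz
    have h1 : HasDerivAt f (deriv f z) z :=
      ((hf z hz).differentiableAt (isOpen_ball.mem_nhds hz)).hasDerivAt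
    have h2 : HasDerivAt (fun z => Complex.exp (-(g z))) (Complex.exp (-(g z)) * (-(deriv f z / f z))) z :=
      (hg z hz).neg.cexp
    have h3 := h1.mul h2
    have e : deriv f z * Complex.exp (-(g z)) + f z * (Complex.exp (-(g z)) * (-(deriv f z / f z))) = 0 := by
      have := h0 z hz
      field_simp
      ring
    rw [e] at h3
    exact h3
  have hconst : ∀ z ∈ ball x R, F z = F x := by
    intro z hz
    have hF2 : DifferentiableOn ℂ F (ball x R) :=
      fun w hw => (hFd w hw).differentiableAt.differentiableWithinAt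
    have hF3 : ∀ w ∈ ball x R, fderivWithin ℂ F (ball x R) w = 0 := by
      intro w hw
      rw [fderivWithin_of_isOpen isOpen_ball hw]
      have h4 := (hFd w hw).hasFDerivAt.fderiv
      rw [h4]
      ext
      simp
    exact (convex_ball x R).is_const_of_fderivWithin_eq_zero hF2 hF3 hz hx
  intro z hz
  have h5 := hconst z hz
  have h6 : F x = 1 := by
    simp only [hF, hgx]
    rw [Complex.exp_neg, Complex.exp_log (h0 x hx), mul_inv_cancel₀ (h0 x hx)]
  rw [h6] at h5
  simp only [hF] at h5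
  rw [Complex.exp_neg] at h5
  have h7 := Complex.exp_ne_zero (g z)
  field_simp at h5
  exact h5

/-- Harnack's inequality. -/
lemma harnack {f : ℂ → ℂ} {x y : ℂ} {R : ℝ} (hR : 0 < R) (hf : DifferentiableOn ℂ f (ball x R))
    (h1 : ∀ z ∈ ball x R, 1 < ‖f z‖) (hy : ‖y - x‖ ≤ R / 3) :
    Real.log ‖f x‖ ≤ 2 * Real.log ‖f y‖ := by
  have hx : x ∈ ball x R := mem_ball_self hR
  have hyb : y ∈ ball x R := by
    rw [mem_ball, dist_eq_norm]; linarith
  have h0 : ∀ z ∈ ball x R, f z ≠ 0 := by
    intro z hz h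
    have := h1 z hz
    rw [h, norm_zero] at this
    linarith
  obtain ⟨g, hg, hfg⟩ := exists_log hR hf h0
  have hre : ∀ z ∈ ball x R, (g z).re = Real.log ‖f z‖ := by
    intro z hz
    rw [hfg z hz, Complex.norm_exp, Real.log_exp]
  have hpos : ∀ z ∈ ball x R, 0 < (g z).re := by
    intro z hz
    rw [hre z hz]
    exact Real.log_pos (h1 z hz)
  set w := g x with hw
  have hw0 : 0 < w.re := hpos x hx
  -- the Cayley transform
  set h : ℂ → ℂ := fun z => (g z - w) / (g z + (starRingEnd ℂ) w) with hh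
  have hden : ∀ z ∈ ball x R, g z + (starRingEnd ℂ) w ≠ 0 := by
    intro z hz hc
    have := congrArg Complex.re hc
    simp only [Complex.add_re, Complex.conj_re, Complex.zero_re] at this
    have := hpos z hz
    linarith
  have hd : DifferentiableOn ℂ h (ball x R) :=
    (hg.sub_const w).div (hg.add_const _) hden
  have hsq : ∀ z ∈ ball x R, ‖g z - w‖ ^ 2 ≤ ‖g z + (starRingEnd ℂ) w‖ ^ 2 := by
    intro z hz
    rw [← Complex.normSq_eq_norm_sq, ← Complex.normSq_eq_norm_sq, Complex.normSq_apply,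
      Complex.normSq_apply]
    simp only [Complex.sub_re, Complex.sub_im, Complex.add_re, Complex.add_im, Complex.conj_re,
      Complex.conj_im]
    have := mul_pos (hpos z hz) hw0
    nlinarith
  have hmaps : MapsTo h (ball x R) (closedBall (h x) 1) := by
    intro z hz
    have hx0 : h x = 0 := by simp [hh, hw]
    rw [hx0, mem_closedBall_zero_iff]
    simp only [hh]
    rw [norm_div, div_le_one (norm_pos_iff.mpr (hden z hz))]
    exact (sq_le_sq₀ (norm_nonneg _) (norm_nonneg _)).mp (hsq z hz)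
  have hschw := Complex.dist_le_div_mul_dist_of_mapsTo_ball hd hmaps hyb
  have hx0 : h x = 0 := by simp [hh, hw]
  rw [hx0, dist_zero_right, dist_eq_norm] at hschw
  have hρ : ‖h y‖ ≤ 1 / 3 := by
    refine hschw.trans ?_
    rw [one_div_mul_eq_div, div_le_iff₀ hR]
    linarith
  simp only [hh] at hρ
  rw [norm_div, div_le_iff₀ (norm_pos_iff.mpr (hden y hyb))] at hρ
  have h3 : ‖g y - w‖ ^ 2 ≤ (1 / 3 * ‖g y + (starRingEnd ℂ) w‖) ^ 2 :=
    pow_le_pow_left₀ (norm_nonneg _) hρ 2
  rw [mul_pow, ← Complex.normSq_eq_norm_sq, ← Complex.normSq_eq_norm_sq, Complex.normSq_apply,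
    Complex.normSq_apply] at h3
  simp only [Complex.sub_re, Complex.sub_im, Complex.add_re, Complex.add_im, Complex.conj_re,
      Complex.conj_im] at h3
  have hy0 := hpos y hyb
  rw [← hre x hx, ← hre y hyb]
  by_contra hc
  push Not at hc
  have h4 : 0 ≤ ((g y).im - w.im) ^ 2 := sq_nonneg _
  nlinarith

end Pool.MP_500150_lc.H8
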