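import Mathlib

set_option autoImplicit false

/-!
# The critical orbit
-/

namespace Pool.MP_500150_lc.H8

open Metric Set

/-- The point `z_n` of the critical orbit. -/
noncomputable def P (n : ℕ) (c : ℂ) : ℂ := (fun z : ℂ => z ^ 2 + c)^[n] 0

/-- The Mandelbrot set. -/
def MM : Set ℂ := {w : ℂ | ∀ i : ℕ, ‖(fun z : ℂ => z ^ 2 + w)^[i] 0‖ ≤ 2}

lemma mem_MM {c : ℂ} : c ∈ MM ↔ ∀ n, ‖P n c‖ ≤ 2 := Iff.rfl

lemma P_zero (c : ℂ) : P 0 c = 0 := rfl

lemma P_succ (n : ℕ) (c : ℂ) : P (n + 1) c = P n c ^ 2 + c := by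
  unfold P
  rw [Function.iterate_succ_apply']

lemma P_one (c : ℂ) : P 1 c = c := by
  rw [P_succ, P_zero]; ring

lemma differentiable_P (n : ℕ) : Differentiable ℂ (P n) := by
  induction n with
  | zero =>
    have : P 0 = fun _ => (0 : ℂ) := by funext c; exact P_zero c
    rw [this]; fun_prop
  | succ n ih =>
    have : P (n + 1) = fun c => P n c ^ 2 + c := by funext c; exact P_succ n c
    rw [this]; fun_prop

lemma continuous_P (n : ℕ) : Continuous (P n) := (differentiable_P n).continuous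

lemma zero_mem_MM : (0 : ℂ) ∈ MM := by
  rw [mem_MM]
  intro n
  have : P n 0 = 0 := by
    induction n with
    | zero => exact P_zero 0
    | succ n ih => rw [P_succ, ih]; ring
  rw [this]; simp

lemma isClosed_MM : IsClosed MM := by
  have : MM = ⋂ n : ℕ, {c : ℂ | ‖P n c‖ ≤ 2} := by
    ext c
    rw [mem_MM]
    simp
  rw [this]
  exact isClosed_iInter (fun n => isClosed_le (continuous_P n).norm continuous_const)

lemma norm_le_of_mem {c : ℂ} (hc : c ∈ MM) : ‖c‖ ≤ 2 := by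
  have := (mem_MM.mp hc) 1
  rwa [P_one] at this

/-- The point has escaped at time `n`. -/
def Esc (n : ℕ) (c : ℂ) : Prop := max 2 ‖c‖ < ‖P n c‖

lemma Esc.succ {n : ℕ} {c : ℂ} (h : Esc n c) : Esc (n + 1) c := by
  unfold Esc at *
  rw [max_lt_iff] at h
  obtain ⟨h1, h2⟩ := h
  have h3 : ‖P n c‖ ^ 2 - ‖c‖ ≤ ‖P (n + 1) c‖ := by
    rw [P_succ, ← norm_pow]
    have := norm_sub_norm_le (P n c ^ 2) (-c)
    rw [norm_neg, sub_neg_eq_add] at this
    exact this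
  have h4 : ‖P n c‖ < ‖P (n + 1) c‖ := by nlinarith
  exact max_lt (h1.trans h4) (h2.trans h4)

lemma Esc.mono {n m : ℕ} (hnm : n ≤ m) {c : ℂ} (h : Esc n c) : Esc m c := by
  induction m, hnm using Nat.le_induction with
  | base => exact h
  | succ m _ ih => exact ih.succ

lemma exists_esc {c : ℂ} (hc : c ∉ MM) : ∃ n, Esc n c := by
  by_cases h : ‖c‖ ≤ 2
  · rw [mem_MM] at hc
    push Not at hc
    obtain ⟨n, hn⟩ := hc
    exact ⟨n, max_lt hn (h.trans_lt hn)⟩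
  · push Not at h
    refine ⟨2, ?_⟩
    have h3 : ‖c‖ ^ 2 - ‖c‖ ≤ ‖P 2 c‖ := by
      rw [P_succ, P_one, ← norm_pow]
      have := norm_sub_norm_le (c ^ 2) (-c)
      rw [norm_neg, sub_neg_eq_add] at this
      exact this
    have h4 : ‖c‖ < ‖P 2 c‖ := by nlinarith
    exact max_lt (h.trans h4) h4

lemma isOpen_esc (n : ℕ) : IsOpen {c : ℂ | Esc n c} :=
  isOpen_lt (continuous_const.max continuous_norm) (continuous_P n).norm

/-- Uniform escape on compact sets. -/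
lemma exists_esc_compact {K : Set ℂ} (hK : IsCompact K) (hKM : ∀ c ∈ K, c ∉ MM) :
    ∃ N, ∀ n, N ≤ n → ∀ c ∈ K, Esc n c := by
  have hcov : K ⊆ ⋃ n : ℕ, {c : ℂ | Esc n c} := by
    intro c hc
    obtain ⟨n, hn⟩ := exists_esc (hKM c hc)
    exact mem_iUnion.mpr ⟨n, hn⟩
  obtain ⟨t, ht⟩ := hK.elim_finite_subcover _ (fun n => isOpen_esc n) hcov
  refine ⟨t.sup id, fun n hn c hc => ?_⟩
  have := ht hc
  simp only [mem_iUnion] at this
  obtain ⟨m, hm, hmc⟩ := this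
  have hmn : m ≤ n := (Finset.le_sup (f := id) hm).trans hn
  exact Esc.mono hmn hmc

/-- Strong form: the orbit is arbitrarily large. -/
lemma esc_large {K : Set ℂ} (hK : IsCompact K) (hKM : ∀ c ∈ K, c ∉ MM) (B : ℝ) :
    ∃ N, ∀ n, N ≤ n → ∀ c ∈ K, B < ‖P n c‖ := by
  obtain ⟨N, hN⟩ := exists_esc_compact hK hKM
  rcases K.eq_empty_or_nonempty with he | hne
  · exact ⟨0, fun n _ c hc => by rw [he] at hc; exact absurd hc (notMem_empty c)⟩
  -- the minimum of `‖P N c‖ - max 2 ‖c‖` on `K`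
  obtain ⟨c₀, hc₀, hmin⟩ := hK.exists_isMinOn hne
    (f := fun c => ‖P N c‖ - max 2 ‖c‖)
    ((continuous_P N).norm.sub (continuous_const.max continuous_norm)).continuousOn
  set δ := ‖P N c₀‖ - max 2 ‖c₀‖ with hδ
  have hδ0 : 0 < δ := sub_pos.mpr (hN N le_rfl c₀ hc₀)
  have hstep : ∀ j : ℕ, ∀ c ∈ K, max 2 ‖c‖ + δ * (1 + j) ≤ ‖P (N + j) c‖ := by
    intro j
    induction j with
    | zero =>
      intro c hc
      have := hmin hc
      simp only [Set.mem_ofPred_eq] at this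
      simp only [Nat.cast_zero, add_zero, mul_one]
      linarith
    | succ j ih =>
      intro c hc
      have h1 := ih c hc
      have h3 : ‖P (N + j) c‖ ^ 2 - ‖c‖ ≤ ‖P (N + j + 1) c‖ := by
        rw [P_succ, ← norm_pow]
        have := norm_sub_norm_le (P (N + j) c ^ 2) (-c)
        rw [norm_neg, sub_neg_eq_add] at this
        exact this
      rw [← add_assoc]
      push_cast
      have h4 : (2 : ℝ) ≤ max 2 ‖c‖ := le_max_left _ _
      have h5 : ‖c‖ ≤ max 2 ‖c‖ := le_max_right _ _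
      have h6 : 0 ≤ δ * (1 + j) := by positivity
      have h7 : δ ≤ δ * (1 + j) := by
        have : (0 : ℝ) ≤ j := Nat.cast_nonneg j
        nlinarith
      set m := max 2 ‖c‖
      set a := δ * (1 + (j : ℝ))
      have h8 : (m + a) ^ 2 ≤ ‖P (N + j) c‖ ^ 2 := pow_le_pow_left₀ (by positivity) h1 2
      have h9 : δ * (1 + (j + 1)) = a + δ := by simp only [a]; ring
      rw [h9]
      nlinarith
  obtain ⟨j, hj⟩ := exists_nat_gt (B / δ)
  refine ⟨N + j, fun n hn c hc => ?_⟩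
  obtain ⟨i, rfl⟩ := Nat.exists_eq_add_of_le hn
  have h1 := hstep (j + i) c hc
  rw [← add_assoc] at h1
  rw [div_lt_iff₀ hδ0] at hj
  have h4 : (2 : ℝ) ≤ max 2 ‖c‖ := le_max_left _ _
  push_cast at h1
  have h5 : 0 ≤ δ * i := by positivity
  nlinarith

lemma esc_not_mem {n : ℕ} {c : ℂ} (h : 2 < ‖P n c‖) : c ∉ MM := by
  intro hc
  have := (mem_MM.mp hc) n
  linarith

/-- Growth outside the disc of radius `3`. -/
lemma growth {c : ℂ} (hc : 3 ≤ ‖c‖) (n : ℕ) : (2 : ℝ) ^ (2 ^ n) ≤ ‖P (n + 1) c‖ := by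
  have key : ∀ n : ℕ, ‖c‖ * 2 ^ (2 ^ n - 1) ≤ ‖P (n + 1) c‖ := by
    intro n
    induction n with
    | zero => rw [P_one]; simp
    | succ n ih =>
      have h3 : ‖P (n + 1) c‖ ^ 2 - ‖c‖ ≤ ‖P (n + 1 + 1) c‖ := by
        rw [P_succ (n + 1), ← norm_pow]
        have := norm_sub_norm_le (P (n + 1) c ^ 2) (-c)
        rw [norm_neg, sub_neg_eq_add] at this
        exact this
      set t : ℝ := 2 ^ (2 ^ n - 1) with ht
      have ht1 : 1 ≤ t := one_le_pow₀ (by norm_num)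
      have e : (2 : ℝ) ^ (2 ^ (n + 1) - 1) = 2 * t ^ 2 := by
        rw [ht, ← pow_mul, ← pow_succ']
        congr 1
        have : 1 ≤ 2 ^ n := Nat.one_le_two_pow
        rw [pow_succ]
        omega
      rw [e]
      have h4 : (‖c‖ * t) ^ 2 ≤ ‖P (n + 1) c‖ ^ 2 := pow_le_pow_left₀ (by positivity) ih 2
      have h5 : 1 ≤ t ^ 2 := one_le_pow₀ ht1
      nlinarith [mul_nonneg (norm_nonneg c) (sub_nonneg.mpr h5), mul_nonneg (mul_nonneg (norm_nonneg c) (sub_nonneg.mpr hc)) (by positivity : 0 ≤ t ^ 2)]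
  refine le_trans ?_ (key n)
  have e : (2 : ℝ) ^ (2 ^ n) = 2 * 2 ^ (2 ^ n - 1) := by
    rw [← pow_succ']
    congr 1
    have : 1 ≤ 2 ^ n := Nat.one_le_two_pow
    omega
  rw [e]
  exact mul_le_mul_of_nonneg_right (by linarith) (by positivity)

/-- Upper bound after a time at which the orbit is small. -/
lemma upper {c : ℂ} (hc : ‖c‖ ≤ 3) {n : ℕ} (hn : ‖P n c‖ ≤ 3) (j : ℕ) :
    ‖P (n + j) c‖ ≤ 4 ^ (2 ^ j) - 1 := by
  induction j with
  | zero => simp only [add_zero, pow_zero, pow_one]; linarith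
  | succ j ih =>
    rw [← add_assoc, P_succ]
    have h1 : ‖P (n + j) c ^ 2 + c‖ ≤ ‖P (n + j) c‖ ^ 2 + ‖c‖ := by
      rw [← norm_pow]; exact norm_add_le _ _
    set t : ℝ := 4 ^ (2 ^ j) with ht
    have e : (4 : ℝ) ^ (2 ^ (j + 1)) = t ^ 2 := by rw [ht, ← pow_mul, ← pow_succ]
    rw [e]
    have ht1 : 4 ≤ t := by
      have : (4 : ℝ) ^ 1 ≤ 4 ^ (2 ^ j) := pow_le_pow_right₀ (by norm_num) Nat.one_le_two_pow
      simpa using this
    have h2 : ‖P (n + j) c‖ ^ 2 ≤ (t - 1) ^ 2 := pow_le_pow_left₀ (norm_nonneg _) ih 2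
    nlinarith

/-- General upper bound. -/
lemma upper4 {c : ℂ} (hc : ‖c‖ ≤ 4) (n : ℕ) : ‖P n c‖ ≤ 3 ^ (2 ^ n) - 1 := by
  induction n with
  | zero => rw [P_zero]; norm_num
  | succ n ih =>
    rw [P_succ]
    have h1 : ‖P n c ^ 2 + c‖ ≤ ‖P n c‖ ^ 2 + ‖c‖ := by
      rw [← norm_pow]; exact norm_add_le _ _
    set t : ℝ := 3 ^ (2 ^ n) with ht
    have e : (3 : ℝ) ^ (2 ^ (n + 1)) = t ^ 2 := by rw [ht, ← pow_mul, ← pow_succ]
    rw [e]
    have ht1 : 3 ≤ t := by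
      have : (3 : ℝ) ^ 1 ≤ 3 ^ (2 ^ n) := pow_le_pow_right₀ (by norm_num) Nat.one_le_two_pow
      simpa using this
    have h2 : ‖P n c‖ ^ 2 ≤ (t - 1) ^ 2 := pow_le_pow_left₀ (norm_nonneg _) ih 2
    nlinarith

/-- Lipschitz bound. -/
lemma lip {c c' : ℂ} (hc : ‖c‖ ≤ 4) (hc' : ‖c'‖ ≤ 4) (n : ℕ) :
    ‖P n c - P n c'‖ ≤ 9 ^ (2 ^ n) * ‖c - c'‖ := by
  induction n with
  | zero => rw [P_zero, P_zero]; simp
  | succ n ih =>
    rw [P_succ, P_succ]
    have e : P n c ^ 2 + c - (P n c' ^ 2 + c')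
        = (P n c + P n c') * (P n c - P n c') + (c - c') := by ring
    rw [e]
    have h1 := norm_add_le ((P n c + P n c') * (P n c - P n c')) (c - c')
    rw [norm_mul] at h1
    have h2 : ‖P n c + P n c'‖ ≤ 2 * 3 ^ (2 ^ n) := by
      have := norm_add_le (P n c) (P n c')
      have := upper4 hc n
      have := upper4 hc' n
      linarith
    have h3 : ‖P n c + P n c'‖ * ‖P n c - P n c'‖
        ≤ (2 * 3 ^ (2 ^ n)) * (9 ^ (2 ^ n) * ‖c - c'‖) :=
      mul_le_mul h2 ih (norm_nonneg _) (by positivity)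
    set t : ℝ := 3 ^ (2 ^ n) with ht
    have e9 : (9 : ℝ) ^ (2 ^ n) = t ^ 2 := by
      rw [ht, ← pow_mul, mul_comm, pow_mul]; norm_num
    have e9' : (9 : ℝ) ^ (2 ^ (n + 1)) = t ^ 4 := by
      have h5 : (9 : ℝ) ^ (2 ^ (n + 1)) = (9 ^ (2 ^ n)) ^ 2 := by rw [← pow_mul, ← pow_succ]
      rw [h5, e9]; ring
    rw [e9] at h3
    rw [e9']
    have ht1 : 3 ≤ t := by
      have : (3 : ℝ) ^ 1 ≤ 3 ^ (2 ^ n) := pow_le_pow_right₀ (by norm_num) Nat.one_le_two_pow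
      simpa using this
    have h6 : 2 * t * t ^ 2 + 1 ≤ t ^ 4 := by
      nlinarith [pow_pos (by linarith : (0 : ℝ) < t) 3, pow_pos (by linarith : (0 : ℝ) < t) 2]
    calc _ ≤ (2 * t) * (t ^ 2 * ‖c - c'‖) + ‖c - c'‖ := by linarith
      _ = (2 * t * t ^ 2 + 1) * ‖c - c'‖ := by ring
      _ ≤ _ := mul_le_mul_of_nonneg_right h6 (norm_nonneg _)

/-- `d_M`. -/
noncomputable def dM (c : ℂ) : ℝ := infDist c MM

lemma dM_nonneg (c : ℂ) : 0 ≤ dM c := infDist_nonneg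

lemma dM_zero_iff {c : ℂ} : dM c = 0 ↔ c ∈ MM :=
  (isClosed_MM.mem_iff_infDist_zero ⟨0, zero_mem_MM⟩).symm

lemma dM_pos {c : ℂ} (h : 0 < dM c) : c ∉ MM := by
  intro hc
  rw [← dM_zero_iff] at hc
  linarith

lemma dM_le_add (c c' : ℂ) : dM c ≤ dM c' + ‖c - c'‖ := by
  have := infDist_le_infDist_add_dist (x := c) (y := c') (s := MM)
  rwa [dist_eq_norm] at this

lemma continuous_dM : Continuous dM := continuous_infDist_pt MM

lemma le_dM {c : ℂ} : ‖c‖ - 2 ≤ dM c := by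
  unfold dM
  rw [le_infDist ⟨0, zero_mem_MM⟩]
  intro w hw
  rw [dist_eq_norm]
  have := norm_le_of_mem hw
  have := norm_sub_norm_le c w
  linarith

end Pool.MP_500150_lc.H8
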