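import Mathlib
import Pool.Agent.Work.MP_500150_lc.H8.Harnack
import Pool.Agent.Work.MP_500150_lc.H8.Orbit

set_option autoImplicit false

/-!
# The escape time of points which are reached by wide channels
-/

namespace Pool.MP_500150_lc.H8

open Metric Set

/-- `c` is connected to the outside of the disc of radius `3` inside `{d_M > r}`. -/
def Reach (r : ℝ) (c : ℂ) : Prop :=
  ∃ S : Set ℂ, IsPreconnected S ∧ c ∈ S ∧ (∃ w ∈ S, 3 ≤ ‖w‖) ∧ ∀ w ∈ S, r < dM w

lemma Reach.lt {r : ℝ} {c : ℂ} (h : Reach r c) : r < dM c := by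
  obtain ⟨S, -, hc, -, hS⟩ := h
  exact hS c hc

lemma Reach.mono {r r' : ℝ} (hr : r' ≤ r) {c : ℂ} (h : Reach r c) : Reach r' c := by
  obtain ⟨S, h1, h2, h3, h4⟩ := h
  exact ⟨S, h1, h2, h3, fun w hw => hr.trans_lt (h4 w hw)⟩

/-- `Reach` is stable under small changes of the point. -/
lemma Reach.move {r δ : ℝ} {c c' : ℂ} (h : Reach r c) (hc : ‖c' - c‖ ≤ δ) : Reach (r - δ) c' := by
  have hδ : 0 ≤ δ := (norm_nonneg _).trans hc
  obtain ⟨S, h1, h2, h3, h4⟩ := h
  refine ⟨S ∪ segment ℝ c c', ?_, Or.inr (right_mem_segment ℝ c c'), ?_, ?_⟩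
  · exact h1.union c h2 (left_mem_segment ℝ c c') (convex_segment c c').isPreconnected
  · obtain ⟨w, hw, hw3⟩ := h3
    exact ⟨w, Or.inl hw, hw3⟩
  · rintro w (hw | hw)
    · have := h4 w hw
      linarith
    · have h5 : ‖c - w‖ ≤ δ := by
        have := norm_sub_le_of_mem_segment hw
        have h6 := norm_sub_rev c w
        rw [h6]
        exact this.trans hc
      have h7 := dM_le_add c w
      have h8 := h4 c h2
      linarith

lemma two_pow_log (n : ℕ) : Real.log ((2 : ℝ) ^ (2 ^ n)) = 2 ^ n * Real.log 2 := by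
  rw [Real.log_pow]; push_cast; rfl

lemma four_pow_log (n : ℕ) : Real.log ((4 : ℝ) ^ (2 ^ n)) = 2 ^ n * (2 * Real.log 2) := by
  rw [Real.log_pow, show (4 : ℝ) = 2 ^ 2 by norm_num, Real.log_pow]; push_cast; rfl

/-- The escape time bound. -/
theorem escape_time {r : ℝ} (hr : 0 < r) (hr1 : r ≤ 1) {c : ℂ} (h : Reach r c) {n : ℕ}
    (hn : 3100 / r ^ 2 ≤ n) : 3 < ‖P n c‖ := by
  by_contra hcon
  push Not at hcon
  obtain ⟨S, hS, hcS, ⟨w, hwS, hw3⟩, hSd⟩ := h
  have hnR : (3100 : ℝ) ≤ n := by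
    refine le_trans ?_ hn
    rw [le_div_iff₀ (by positivity)]
    nlinarith
  have hn3 : 3100 ≤ n := by exact_mod_cast hnR
  -- the point is in the disc
  have hc3 : ‖c‖ < 3 := by
    by_contra h3
    push Not at h3
    obtain ⟨m, rfl⟩ : ∃ m, n = m + 1 := ⟨n - 1, by omega⟩
    have := growth h3 m
    have h4 : (2 : ℝ) ^ 2 ≤ 2 ^ (2 ^ m) := by
      apply pow_le_pow_right₀ (by norm_num)
      calc 2 = 2 ^ 1 := by norm_num
        _ ≤ 2 ^ m := Nat.pow_le_pow_right (by norm_num) (by omega)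
    linarith
  -- a point of norm three
  obtain ⟨c₀, hc₀S, hc₀⟩ : ∃ c₀ ∈ S, ‖c₀‖ = 3 := by
    have := hS.intermediate_value hcS hwS (f := fun z => ‖z‖) continuous_norm.continuousOn
    obtain ⟨c₀, h1, h2⟩ := this ⟨hc3.le, hw3⟩
    exact ⟨c₀, h1, h2⟩
  -- uniform escape
  set K : Set ℂ := {z : ℂ | ‖z‖ ≤ 4 ∧ r / 4 ≤ dM z} with hK
  have hKc : IsCompact K := by
    have h1 : IsClosed K := by
      apply IsClosed.inter
      · exact isClosed_le continuous_norm continuous_const
      · exact isClosed_le continuous_const continuous_dM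
    apply (isCompact_closedBall (0 : ℂ) 4).of_isClosed_subset h1
    intro z hz
    rw [mem_closedBall_zero_iff]
    exact hz.1
  obtain ⟨N₀, hN₀⟩ := exists_esc_compact hKc (fun z hz => dM_pos (lt_of_lt_of_le (by positivity) hz.2))
  set N := max N₀ n with hN
  have hNn : n ≤ N := le_max_right _ _
  obtain ⟨j, hj⟩ := Nat.exists_eq_add_of_le hNn
  obtain ⟨m, hm⟩ : ∃ m, N = m + 1 := ⟨N - 1, by omega⟩
  have hl2 : 0 < Real.log 2 := Real.log_pos (by norm_num)
  set u : ℂ → ℝ := fun z => Real.log ‖P N z‖ with hu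
  -- Harnack
  have hbig : ∀ z ∈ S, ‖z‖ ≤ 3 → ∀ y ∈ ball z (3 * r / 4), 1 < ‖P N y‖ := by
    intro z hz hz3 y hy
    rw [mem_ball, dist_eq_norm] at hy
    have h1 : y ∈ K := by
      constructor
      · have := norm_sub_norm_le y z
        linarith
      · have h2 := dM_le_add z y
        have h3 := hSd z hz
        rw [norm_sub_rev] at h2
        linarith
    have h2 := hN₀ N (le_max_left _ _) y h1
    have h3 : (2 : ℝ) ≤ max 2 ‖y‖ := le_max_left _ _
    have h4 : max 2 ‖y‖ < ‖P N y‖ := h2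
    linarith
  have hharn : ∀ z ∈ S, ‖z‖ ≤ 3 → ∀ y : ℂ, ‖y - z‖ ≤ r / 4 → u z ≤ 2 * u y := by
    intro z hz hz3 y hy
    exact harnack (R := 3 * r / 4) (by positivity) (differentiable_P N).differentiableOn
      (hbig z hz hz3) (by linarith)
  -- values
  have huc0 : 2 ^ m * Real.log 2 ≤ u c₀ := by
    have h1 := growth hc₀.ge m
    rw [← hm] at h1
    rw [← two_pow_log]
    exact Real.log_le_log (by positivity) h1
  have huc1 : u c₀ ≤ 2 ^ m * (2 * Real.log 2) := by
    have h1 := upper hc₀.le (n := 1) (by rw [P_one]; exact hc₀.le) m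
    rw [add_comm, ← hm] at h1
    rw [← four_pow_log]
    apply Real.log_le_log
    · have := hbig c₀ hc₀S hc₀.le c₀ (mem_ball_self (by positivity))
      linarith
    · linarith
  have hout : ∀ z : ℂ, 3 ≤ ‖z‖ → 2 ^ m * Real.log 2 ≤ u z := by
    intro z hz
    have h1 := growth hz m
    rw [← hm] at h1
    rw [← two_pow_log]
    exact Real.log_le_log (by positivity) h1
  have huc : u c ≤ 2 ^ j * (2 * Real.log 2) := by
    have h1 := upper hc3.le hcon j
    rw [← hj] at h1
    rw [← four_pow_log]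
    apply Real.log_le_log
    · have := hbig c hcS hc3.le c (mem_ball_self (by positivity))
      linarith
    · linarith
  have hpm : (0 : ℝ) < 2 ^ m := by positivity
  have hu0 : 0 < u c₀ := lt_of_lt_of_le (by positivity) huc0
  -- the levels
  set J := (n - 4) / 2 with hJ
  have hJn : 2 * J + 4 ≤ n := by omega
  have hJ2 : n ≤ 2 * J + 5 := by omega
  have hlevel : ∀ i : ℕ, i ≤ J → ∃ x ∈ S, u x = u c₀ * (1 / 4) ^ i / 3 := by
    intro i hi
    have hcont : ContinuousOn u S := by
      apply ContinuousOn.log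
      · exact (continuous_P N).norm.continuousOn
      · intro z hz
        rcases le_total ‖z‖ 3 with h3 | h3
        · have := hbig z hz h3 z (mem_ball_self (by positivity))
          linarith
        · have h1 := growth h3 m
          rw [← hm] at h1
          have : (0 : ℝ) < 2 ^ (2 ^ m) := by positivity
          linarith
    have h1 := hS.intermediate_value hcS hc₀S hcont
    have h2 : u c₀ * (1 / 4) ^ i / 3 ∈ Icc (u c) (u c₀) := by
      constructor
      · -- u c ≤ ...
        have h3 : (1 / 4 : ℝ) ^ J ≤ (1 / 4) ^ i := pow_le_pow_of_le_one (by norm_num) (by norm_num) hi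
        have h4 : u c₀ * (1 / 4) ^ J ≤ u c₀ * (1 / 4) ^ i := mul_le_mul_of_nonneg_left h3 hu0.le
        have h5 : (2 ^ m * Real.log 2) * (1 / 4) ^ J ≤ u c₀ * (1 / 4) ^ J :=
          mul_le_mul_of_nonneg_right huc0 (by positivity)
        have h6 : (2 : ℝ) ^ j * (2 * Real.log 2) * 3 ≤ (2 ^ m * Real.log 2) * (1 / 4) ^ J := by
          have e1 : (1 / 4 : ℝ) ^ J = 1 / 2 ^ (2 * J) := by
            rw [one_div_pow, pow_mul]; norm_num
          rw [e1, mul_one_div, le_div_iff₀ (by positivity)]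
          have e2 : (2 : ℝ) ^ j * (2 * Real.log 2) * 3 * 2 ^ (2 * J)
              ≤ 2 ^ (j + 2 * J + 3) * Real.log 2 := by
            have : (2 : ℝ) ^ (j + 2 * J + 3) = 2 ^ j * 2 ^ (2 * J) * 8 := by
              rw [pow_add, pow_add]; norm_num
            rw [this]
            have : (0 : ℝ) < 2 ^ j * 2 ^ (2 * J) := by positivity
            nlinarith [mul_pos this hl2]
          refine e2.trans ?_
          apply mul_le_mul_of_nonneg_right _ hl2.le
          apply pow_le_pow_right₀ (by norm_num)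
          omega
        linarith
      · have h3 : (1 / 4 : ℝ) ^ i ≤ 1 := pow_le_one₀ (by norm_num) (by norm_num)
        have h4 : u c₀ * (1 / 4) ^ i ≤ u c₀ := mul_le_of_le_one_right hu0.le h3
        have h5 : 0 ≤ u c₀ * (1 / 4) ^ i := by positivity
        linarith
    obtain ⟨x, hx, hux⟩ := h1 h2
    exact ⟨x, hx, hux⟩
  choose! x hxS hux using hlevel
  have hx3 : ∀ i ≤ J, ‖x i‖ ≤ 3 := by
    intro i hi
    by_contra h3
    push Not at h3
    have h4 := hout (x i) h3.le
    have h5 := hux i hi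
    have h6 : (1 / 4 : ℝ) ^ i ≤ 1 := pow_le_one₀ (by norm_num) (by norm_num)
    have h7 : u c₀ * (1 / 4) ^ i ≤ u c₀ := mul_le_of_le_one_right hu0.le h6
    have h8 : 0 < 2 ^ m * Real.log 2 := by positivity
    linarith
  -- separation
  have hsep : ∀ i ≤ J, ∀ i' ≤ J, i < i' → r / 4 < ‖x i' - x i‖ := by
    intro i hi i' hi' hii
    by_contra hle
    push Not at hle
    have h1 := hharn (x i) (hxS i hi) (hx3 i hi) (x i') hle
    rw [hux i hi, hux i' hi'] at h1
    obtain ⟨d, rfl⟩ := Nat.exists_eq_add_of_lt hii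
    have h2 : (1 / 4 : ℝ) ^ (i + d + 1) ≤ (1 / 4) ^ i * (1 / 4) := by
      rw [← pow_succ]
      exact pow_le_pow_of_le_one (by norm_num) (by norm_num) (by omega)
    have h3 : 0 < u c₀ * (1 / 4) ^ i := by positivity
    have h4 : u c₀ * (1 / 4) ^ (i + d + 1) ≤ u c₀ * ((1 / 4) ^ i * (1 / 4)) :=
      mul_le_mul_of_nonneg_left h2 hu0.le
    linarith
  -- packing
  set B : ℤ := ⌈18 / r⌉ with hB
  have hB0 : 0 ≤ B := Int.ceil_nonneg (by positivity)
  set φ : ℕ → ℤ × ℤ := fun i => (⌊(x i).re * (6 / r)⌋, ⌊(x i).im * (6 / r)⌋) with hφ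
  have hinj : Set.InjOn φ (Finset.range (J + 1) : Set ℕ) := by
    have aux : ∀ i ≤ J, ∀ i' ≤ J, i < i' → φ i ≠ φ i' := by
      intro i hi i' hi' hii he
      have h1 := hsep i hi i' hi' hii
      simp only [hφ, Prod.mk.injEq] at he
      have h2 := Int.abs_sub_lt_one_of_floor_eq_floor he.1
      have h3 := Int.abs_sub_lt_one_of_floor_eq_floor he.2
      rw [← sub_mul, abs_mul, abs_of_pos (by positivity : 0 < 6 / r), mul_div_assoc', div_lt_one hr] at h2 h3
      have h4 : ‖x i' - x i‖ ^ 2 ≤ (r / 4) ^ 2 := by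
        rw [← Complex.normSq_eq_norm_sq, Complex.normSq_apply]
        simp only [Complex.sub_re, Complex.sub_im]
        have h5 := sq_abs ((x i).re - (x i').re)
        have h6 := sq_abs ((x i).im - (x i').im)
        have h7 := abs_nonneg ((x i).re - (x i').re)
        have h8 := abs_nonneg ((x i).im - (x i').im)
        nlinarith
      have h5 : ‖x i' - x i‖ ≤ r / 4 := by
        apply (sq_le_sq₀ (norm_nonneg _) (by positivity)).mp h4
      linarith
    intro i hi i' hi' he
    simp only [Finset.coe_range, mem_Iio] at hi hi'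
    rcases lt_trichotomy i i' with h1 | h1 | h1
    · exact absurd he (aux i (by omega) i' (by omega) h1)
    · exact h1
    · exact absurd he.symm (aux i' (by omega) i (by omega) h1)
  have hmaps : ∀ i ∈ Finset.range (J + 1), φ i ∈ (Finset.Icc (-B) B) ×ˢ (Finset.Icc (-B) B) := by
    intro i hi
    rw [Finset.mem_range] at hi
    have h1 := hx3 i (by omega)
    have haux : ∀ t : ℝ, |t| ≤ 3 → ⌊t * (6 / r)⌋ ∈ Finset.Icc (-B) B := by
      intro t ht
      rw [abs_le] at ht
      have h6 : 0 < 6 / r := by positivity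
      have h18 : 3 * (6 / r) = 18 / r := by ring
      rw [Finset.mem_Icc]
      constructor
      · rw [Int.le_floor]
        push_cast
        have : (18 / r : ℝ) ≤ B := Int.le_ceil _
        nlinarith
      · have h2 : t * (6 / r) ≤ (B : ℝ) := by
          have : (18 / r : ℝ) ≤ B := Int.le_ceil _
          nlinarith
        exact_mod_cast (Int.floor_le _).trans h2
    rw [Finset.mem_product]
    exact ⟨haux _ ((Complex.abs_re_le_norm _).trans h1), haux _ ((Complex.abs_im_le_norm _).trans h1)⟩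
  have hcard := Finset.card_le_card_of_injOn φ hmaps hinj
  rw [Finset.card_range, Finset.card_product, Int.card_Icc] at hcard
  have hBR : (B : ℝ) < 18 / r + 1 := Int.ceil_lt_add_one _
  have hcardR : (J : ℝ) + 1 ≤ (39 / r) * (39 / r) := by
    have h1 : ((B + 1 - -B).toNat : ℝ) ≤ 39 / r := by
      have h2 : (((B + 1 - -B).toNat : ℤ) : ℝ) = ((B + 1 - -B : ℤ) : ℝ) := by
        rw [Int.toNat_of_nonneg (by omega)]
      have h3 : ((B + 1 - -B).toNat : ℝ) = ((B + 1 - -B : ℤ) : ℝ) := by
        rw [← h2]; norm_cast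
      rw [h3]
      push_cast
      have h4 : 3 ≤ 3 / r := by
        rw [le_div_iff₀ hr]; linarith
      have h5 : 39 / r = 2 * (18 / r) + 3 / r := by ring
      linarith
    calc (J : ℝ) + 1 = ((J + 1 : ℕ) : ℝ) := by push_cast; ring
      _ ≤ (((B + 1 - -B).toNat * (B + 1 - -B).toNat : ℕ) : ℝ) := by exact_mod_cast hcard
      _ = ((B + 1 - -B).toNat : ℝ) * ((B + 1 - -B).toNat : ℝ) := by push_cast; ring
      _ ≤ _ := mul_le_mul h1 h1 (by positivity) (by positivity)
  have hfin : (n : ℝ) ≤ 2 * J + 5 := by exact_mod_cast hJ2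
  have h39 : (39 / r) * (39 / r) = 1521 / r ^ 2 := by field_simp; norm_num
  rw [h39] at hcardR
  have h3 : 3 ≤ 3 / r ^ 2 := by
    rw [le_div_iff₀ (by positivity)]
    nlinarith
  have e1 : 3100 / r ^ 2 = 2 * (1521 / r ^ 2) + 3 / r ^ 2 + 55 / r ^ 2 := by ring
  have e2 : 0 < 55 / r ^ 2 := by positivity
  linarith

end Pool.MP_500150_lc.H8
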