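import Mathlib
import Pool.Agent.Work.MP_500150_lc.H8.Escape

set_option autoImplicit false

/-!
# The escape time is at most the number of steps of a Whitney chain
-/

namespace Pool.MP_500150_lc.H8

open Metric Set

/-- Harnack for the orbit, at a point with `d_M > 0`. -/
lemma orbit_harnack {x : ℂ} (hx : 0 < dM x) : ∃ l₀ : ℕ, ∀ l, l₀ ≤ l → ∀ y : ℂ,
    ‖y - x‖ ≤ dM x / 4 → Real.log ‖P l x‖ ≤ 2 * Real.log ‖P l y‖ := by
  have hK : ∀ y ∈ closedBall x (3 * dM x / 4), y ∉ MM := by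
    intro y hy
    rw [mem_closedBall, dist_eq_norm] at hy
    apply dM_pos
    have := dM_le_add x y
    rw [norm_sub_rev] at this
    linarith
  obtain ⟨l₀, hl₀⟩ := exists_esc_compact (isCompact_closedBall x (3 * dM x / 4)) hK
  refine ⟨l₀, fun l hl y hy => ?_⟩
  apply harnack (R := 3 * dM x / 4) (by positivity) (differentiable_P l).differentiableOn
  · intro z hz
    have h2 : max 2 ‖z‖ < ‖P l z‖ := hl₀ l hl z (ball_subset_closedBall hz)
    have h3 : (2 : ℝ) ≤ max 2 ‖z‖ := le_max_left _ _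
    linarith
  · linarith

/-- If the orbit is large for all large times, then it is large from a certain time on. -/
lemma time_of_log {w : ℂ} {m : ℕ}
    (h : ∃ l₀ : ℕ, ∀ l, l₀ ≤ l → (1 / 2 : ℝ) ^ m * (2 ^ l * Real.log 2) ≤ Real.log ‖P (l + 1) w‖)
    {n : ℕ} (hn : m + 3 ≤ n) : 3 < ‖P n w‖ := by
  by_contra hcon
  push Not at hcon
  obtain ⟨l₀, hl₀⟩ := h
  obtain ⟨n', rfl⟩ : ∃ n', n = n' + 1 := ⟨n - 1, by omega⟩
  rcases le_total 3 ‖w‖ with h3 | h3
  · have h1 := growth h3 n'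
    have h4 : (2 : ℝ) ^ 2 ≤ 2 ^ (2 ^ n') := by
      apply pow_le_pow_right₀ (by norm_num)
      calc 2 = 2 ^ 1 := by norm_num
        _ ≤ 2 ^ n' := Nat.pow_le_pow_right (by norm_num) (by omega)
    linarith
  · have hl2 : 0 < Real.log 2 := Real.log_pos (by norm_num)
    have h1 := hl₀ (n' + l₀) (by omega)
    have h2 := upper h3 hcon l₀
    rw [show n' + 1 + l₀ = n' + l₀ + 1 by ring] at h2
    have hpos : 0 < Real.log ‖P (n' + l₀ + 1) w‖ := lt_of_lt_of_le (by positivity) h1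
    have hP : 0 < ‖P (n' + l₀ + 1) w‖ := by
      by_contra h0
      push Not at h0
      have : ‖P (n' + l₀ + 1) w‖ = 0 := le_antisymm h0 (norm_nonneg _)
      rw [this, Real.log_zero] at hpos
      exact lt_irrefl _ hpos
    have h5 : Real.log ‖P (n' + l₀ + 1) w‖ ≤ 2 ^ l₀ * (2 * Real.log 2) := by
      rw [← four_pow_log]
      exact Real.log_le_log hP (by linarith)
    have h6 : (1 / 2 : ℝ) ^ m * (2 ^ (n' + l₀) * Real.log 2) ≤ 2 ^ l₀ * (2 * Real.log 2) := h1.trans h5
    have e1 : (1 / 2 : ℝ) ^ m * (2 ^ (n' + l₀) * Real.log 2)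
        = (2 ^ (n' - m)) * (2 ^ l₀ * Real.log 2) := by
      have : n' + l₀ = m + ((n' - m) + l₀) := by omega
      rw [this, pow_add, pow_add]
      have h7 : (1 / 2 : ℝ) ^ m * 2 ^ m = 1 := by rw [← mul_pow]; norm_num
      calc (1 / 2 : ℝ) ^ m * (2 ^ m * (2 ^ (n' - m) * 2 ^ l₀) * Real.log 2)
          = ((1 / 2 : ℝ) ^ m * 2 ^ m) * (2 ^ (n' - m) * (2 ^ l₀ * Real.log 2)) := by ring
        _ = _ := by rw [h7, one_mul]
    rw [e1] at h6
    have h8 : (4 : ℝ) ≤ 2 ^ (n' - m) := by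
      calc (4 : ℝ) = 2 ^ 2 := by norm_num
        _ ≤ _ := pow_le_pow_right₀ (by norm_num) (by omega)
    have h9 : 0 < 2 ^ l₀ * Real.log 2 := by positivity
    nlinarith

/-- The escape time is at most the number of steps plus three. -/
theorem chain_time {m : ℕ} {c : ℕ → ℂ} (h0 : 3 ≤ ‖c 0‖)
    (hstep : ∀ i < m, ‖c (i + 1) - c i‖ ≤ dM (c i) / 4) {n : ℕ} (hn : m + 3 ≤ n) :
    3 < ‖P n (c m)‖ := by
  have key : ∀ i ≤ m, 0 < dM (c i) ∧ ∃ l₀ : ℕ, ∀ l, l₀ ≤ l →
      (1 / 2 : ℝ) ^ i * (2 ^ l * Real.log 2) ≤ Real.log ‖P (l + 1) (c i)‖ := by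
    intro i
    induction i with
    | zero =>
      intro _
      refine ⟨?_, 0, fun l _ => ?_⟩
      · have := le_dM (c := c 0)
        linarith
      · rw [pow_zero, one_mul, ← two_pow_log]
        exact Real.log_le_log (by positivity) (growth h0 l)
    | succ i ih =>
      intro hi
      obtain ⟨hd, l₀, hl₀⟩ := ih (by omega)
      have hs := hstep i (by omega)
      refine ⟨?_, ?_⟩
      · have := dM_le_add (c i) (c (i + 1))
        rw [norm_sub_rev] at this
        linarith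
      · obtain ⟨l₁, hl₁⟩ := orbit_harnack hd
        refine ⟨max l₀ l₁, fun l hl => ?_⟩
        have h1 := hl₀ l ((le_max_left _ _).trans hl)
        have h2 := hl₁ (l + 1) (((le_max_right _ _).trans hl).trans (Nat.le_succ l)) _ hs
        rw [pow_succ]
        linarith
  exact time_of_log (key m le_rfl).2 hn

/-- If a point near `w` is large at time `N`, then `w` escapes. -/
lemma time_of_near {N : ℕ} (hN : 1 ≤ N) {w y : ℂ} {r : ℝ} (hr : r < dM w) (hr0 : 0 < r)
    (hy : ‖y - w‖ ≤ r / 4) (hP : 3 < ‖P N y‖) {n : ℕ} (hn : N + 3 ≤ n) : 3 < ‖P n w‖ := by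
  -- lower bound at `y`
  have hlow : ∀ j : ℕ, (2 : ℝ) ^ (2 ^ j) ≤ ‖P (N + j) y‖ := by
    intro j
    rcases le_total 3 ‖y‖ with h3 | h3
    · obtain ⟨N', rfl⟩ : ∃ N', N = N' + 1 := ⟨N - 1, by omega⟩
      rw [show N' + 1 + j = (N' + j) + 1 by ring]
      refine le_trans ?_ (growth h3 (N' + j))
      apply pow_le_pow_right₀ (by norm_num)
      exact Nat.pow_le_pow_right (by norm_num) (by omega)
    · have key : ∀ j : ℕ, (2 : ℝ) ^ (2 ^ j) + 1 ≤ ‖P (N + j) y‖ := by
        intro j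
        induction j with
        | zero => simp only [add_zero, pow_zero, pow_one]; linarith
        | succ j ih =>
          have h4 : ‖P (N + j) y‖ ^ 2 - ‖y‖ ≤ ‖P (N + j + 1) y‖ := by
            rw [P_succ, ← norm_pow]
            have := norm_sub_norm_le (P (N + j) y ^ 2) (-y)
            rw [norm_neg, sub_neg_eq_add] at this
            exact this
          rw [← add_assoc]
          set t : ℝ := 2 ^ (2 ^ j) with ht
          have e : (2 : ℝ) ^ (2 ^ (j + 1)) = t ^ 2 := by rw [ht, ← pow_mul, ← pow_succ]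
          rw [e]
          have ht1 : 2 ≤ t := by
            have : (2 : ℝ) ^ 1 ≤ 2 ^ (2 ^ j) := pow_le_pow_right₀ (by norm_num) Nat.one_le_two_pow
            simpa using this
          have h5 : (t + 1) ^ 2 ≤ ‖P (N + j) y‖ ^ 2 := pow_le_pow_left₀ (by positivity) ih 2
          nlinarith
      linarith [key j]
  have hdy : 3 * r / 4 < dM y := by
    have := dM_le_add w y
    rw [norm_sub_rev] at this
    linarith
  obtain ⟨l₁, hl₁⟩ : ∃ l₀ : ℕ, ∀ l, l₀ ≤ l → Real.log ‖P l y‖ ≤ 2 * Real.log ‖P l w‖ := by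
    -- Harnack on the ball of radius `3 r / 4` around `y`
    have hK : ∀ v ∈ closedBall y (3 * r / 4), v ∉ MM := by
      intro v hv
      rw [mem_closedBall, dist_eq_norm] at hv
      apply dM_pos
      have := dM_le_add y v
      rw [norm_sub_rev] at this
      linarith
    obtain ⟨l₀, hl₀⟩ := exists_esc_compact (isCompact_closedBall y (3 * r / 4)) hK
    refine ⟨l₀, fun l hl => ?_⟩
    apply harnack (R := 3 * r / 4) (by positivity) (differentiable_P l).differentiableOn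
    · intro z hz
      have h2 : max 2 ‖z‖ < ‖P l z‖ := hl₀ l hl z (ball_subset_closedBall hz)
      have h3 : (2 : ℝ) ≤ max 2 ‖z‖ := le_max_left _ _
      linarith
    · rw [norm_sub_rev]
      linarith
  obtain ⟨N', rfl⟩ : ∃ N', N = N' + 1 := ⟨N - 1, by omega⟩
  apply time_of_log (m := N' + 1) (w := w) _ (n := n) (by omega)
  refine ⟨max l₁ N', fun l hl => ?_⟩
  have h1 := hl₁ (l + 1) (((le_max_left _ _).trans hl).trans (Nat.le_succ l))
  have hlN : N' ≤ l := (le_max_right _ _).trans hl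
  have h2 := hlow (l - N')
  rw [show N' + 1 + (l - N') = l + 1 by omega] at h2
  have h3 := Real.log_le_log (by positivity) h2
  rw [two_pow_log] at h3
  have e : (2 : ℝ) ^ l = 2 ^ N' * 2 ^ (l - N') := by rw [← pow_add]; congr 1; omega
  have e2 : (1 / 2 : ℝ) ^ (N' + 1) * 2 ^ N' = 1 / 2 := by
    rw [pow_succ, mul_right_comm, ← mul_pow]; norm_num
  rw [e]
  calc (1 / 2 : ℝ) ^ (N' + 1) * (2 ^ N' * 2 ^ (l - N') * Real.log 2)
      = ((1 / 2 : ℝ) ^ (N' + 1) * 2 ^ N') * (2 ^ (l - N') * Real.log 2) := by ring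
    _ = 1 / 2 * (2 ^ (l - N') * Real.log 2) := by rw [e2]
    _ ≤ _ := by linarith

end Pool.MP_500150_lc.H8
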