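import Mathlib
import Pool.Agent.Work.MP_500150_lc.H8.Orbit

set_option autoImplicit false

/-!
# The critical orbit of dyadic points in natural number arithmetic
-/

namespace Pool.MP_500150_lc.H8

section basics

variable {α : Type*} [Primcodable α]

lemma padd {f g : α → ℕ} (hf : Primrec f) (hg : Primrec g) : Primrec fun a => f a + g a :=
  Primrec.nat_add.comp hf hg

lemma pmul {f g : α → ℕ} (hf : Primrec f) (hg : Primrec g) : Primrec fun a => f a * g a :=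
  Primrec.nat_mul.comp hf hg

lemma psub {f g : α → ℕ} (hf : Primrec f) (hg : Primrec g) : Primrec fun a => f a - g a :=
  Primrec.nat_sub.comp hf hg

lemma primrec_pow : Primrec₂ ((· ^ ·) : ℕ → ℕ → ℕ) := Primrec₂.unpaired'.1 Nat.Primrec.pow

lemma ppow {f g : α → ℕ} (hf : Primrec f) (hg : Primrec g) : Primrec fun a => f a ^ g a :=
  primrec_pow.comp hf hg

lemma pconst (n : ℕ) : Primrec fun _ : α => n := Primrec.const n

lemma plt {f g : α → ℕ} (hf : Primrec f) (hg : Primrec g) : PrimrecPred fun a => f a < g a :=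
  Primrec.nat_lt.comp hf hg

lemma pforall {f : α → ℕ} {p : α × ℕ → Prop} (hf : Primrec f) (hp : PrimrecPred p) :
    PrimrecPred fun a => ∀ x < f a, p (a, x) := by
  have h1 : PrimrecRel fun (x : ℕ) (a : α) => p (a, x) :=
    hp.comp (Primrec.snd.pair Primrec.fst)
  have h2 := h1.forall_mem_list
  have h3 : PrimrecPred fun a : α => ∀ x ∈ List.range (f a), p (a, x) :=
    h2.comp (Primrec.list_range.comp hf) Primrec.id
  exact h3.of_eq (fun a => by simp)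

end basics

/-- One step of the orbit of the point `((x - X) + (y - Y) i) / E`. -/
def step (q s : ℕ × ℕ × ℕ × ℕ × ℕ) : ℕ × ℕ × ℕ × ℕ × ℕ :=
  (s.1 * s.1 + s.2.1 * s.2.1 + 2 * (s.2.2.1 * s.2.2.2.1) + q.1 * s.2.2.2.2,
   2 * (s.1 * s.2.1) + (s.2.2.1 * s.2.2.1 + s.2.2.2.1 * s.2.2.2.1) + q.2.1 * s.2.2.2.2,
   2 * (s.1 * s.2.2.1 + s.2.1 * s.2.2.2.1) + q.2.2.1 * s.2.2.2.2,
   2 * (s.1 * s.2.2.2.1 + s.2.1 * s.2.2.1) + q.2.2.2.1 * s.2.2.2.2,
   s.2.2.2.2 * s.2.2.2.2 * q.2.2.2.2)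

/-- The orbit. -/
def orb (q : ℕ × ℕ × ℕ × ℕ × ℕ) (n : ℕ) : ℕ × ℕ × ℕ × ℕ × ℕ :=
  (step q)^[n] (0, 0, 0, 0, q.2.2.2.2)

lemma primrec_step_aux {α : Type*} [Primcodable α] {q1 q2 q3 q4 q5 s1 s2 s3 s4 s5 : α → ℕ}
    (hq1 : Primrec q1) (hq2 : Primrec q2)
    (hq3 : Primrec q3) (hq4 : Primrec q4) (hq5 : Primrec q5) (hs1 : Primrec s1) (hs2 : Primrec s2)
    (hs3 : Primrec s3) (hs4 : Primrec s4) (hs5 : Primrec s5) :
    Primrec fun a => (s1 a * s1 a + s2 a * s2 a + 2 * (s3 a * s4 a) + q1 a * s5 a,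
      2 * (s1 a * s2 a) + (s3 a * s3 a + s4 a * s4 a) + q2 a * s5 a,
      2 * (s1 a * s3 a + s2 a * s4 a) + q3 a * s5 a,
      2 * (s1 a * s4 a + s2 a * s3 a) + q4 a * s5 a,
      s5 a * s5 a * q5 a) :=
  (padd (padd (padd (pmul hs1 hs1) (pmul hs2 hs2)) (pmul (pconst 2) (pmul hs3 hs4))) (pmul hq1 hs5)).pair
  ((padd (padd (pmul (pconst 2) (pmul hs1 hs2)) (padd (pmul hs3 hs3) (pmul hs4 hs4))) (pmul hq2 hs5)).pair
  ((padd (pmul (pconst 2) (padd (pmul hs1 hs3) (pmul hs2 hs4))) (pmul hq3 hs5)).pair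
  ((padd (pmul (pconst 2) (padd (pmul hs1 hs4) (pmul hs2 hs3))) (pmul hq4 hs5)).pair
  (pmul (pmul hs5 hs5) hq5))))

lemma primrec_step : Primrec₂ step := by
  have q : Primrec fun p : (ℕ × ℕ × ℕ × ℕ × ℕ) × (ℕ × ℕ × ℕ × ℕ × ℕ) => p.1 := Primrec.fst
  have s : Primrec fun p : (ℕ × ℕ × ℕ × ℕ × ℕ) × (ℕ × ℕ × ℕ × ℕ × ℕ) => p.2 := Primrec.snd
  have q2 := Primrec.snd.comp q
  have q3 := Primrec.snd.comp q2
  have q4 := Primrec.snd.comp q3
  have s2 := Primrec.snd.comp s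
  have s3 := Primrec.snd.comp s2
  have s4 := Primrec.snd.comp s3
  exact primrec_step_aux (Primrec.fst.comp q) (Primrec.fst.comp q2) (Primrec.fst.comp q3)
    (Primrec.fst.comp q4) (Primrec.snd.comp q4) (Primrec.fst.comp s) (Primrec.fst.comp s2)
    (Primrec.fst.comp s3) (Primrec.fst.comp s4) (Primrec.snd.comp s4)

lemma porb {α : Type*} [Primcodable α] {q : α → ℕ × ℕ × ℕ × ℕ × ℕ} {n : α → ℕ} (hq : Primrec q)
    (hn : Primrec n) : Primrec fun a => orb (q a) (n a) := by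
  have h5 : Primrec fun a => (q a).2.2.2.2 :=
    Primrec.snd.comp (Primrec.snd.comp (Primrec.snd.comp (Primrec.snd.comp hq)))
  have h0 : Primrec fun a : α => (0 : ℕ) := pconst 0
  have hinit : Primrec fun a => ((0, 0, 0, 0, (q a).2.2.2.2) : ℕ × ℕ × ℕ × ℕ × ℕ) :=
    h0.pair (h0.pair (h0.pair (h0.pair h5)))
  have hstep : Primrec₂ fun (a : α) (s : ℕ × ℕ × ℕ × ℕ × ℕ) => step (q a) s :=
    primrec_step.comp₂ (hq.comp Primrec.fst).to₂ Primrec₂.right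
  exact Primrec.nat_iterate hn hinit hstep

/-- The point coded by `q`. -/
noncomputable def pt (q : ℕ × ℕ × ℕ × ℕ × ℕ) : ℂ :=
  ⟨((q.1 : ℝ) - q.2.1) / q.2.2.2.2, ((q.2.2.1 : ℝ) - q.2.2.2.1) / q.2.2.2.2⟩

lemma orb_spec (q : ℕ × ℕ × ℕ × ℕ × ℕ) (hE : 0 < q.2.2.2.2) (n : ℕ) :
    ((orb q n).1 : ℝ) - (orb q n).2.1 = (q.2.2.2.2 : ℝ) ^ (2 ^ n) * (P n (pt q)).re ∧
    ((orb q n).2.2.1 : ℝ) - (orb q n).2.2.2.1 = (q.2.2.2.2 : ℝ) ^ (2 ^ n) * (P n (pt q)).im ∧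
    ((orb q n).2.2.2.2 : ℝ) * q.2.2.2.2 = ((q.2.2.2.2 : ℝ) ^ (2 ^ n)) ^ 2 := by
  have hE' : (0 : ℝ) < q.2.2.2.2 := by exact_mod_cast hE
  induction n with
  | zero =>
    simp only [orb, Function.iterate_zero, id_eq, P_zero, Complex.zero_re, Complex.zero_im,
      mul_zero, Nat.cast_zero, sub_self, pow_zero, pow_one, true_and]
    ring
  | succ n ih =>
    have hs : orb q (n + 1) = step q (orb q n) := by
      unfold orb; rw [Function.iterate_succ_apply']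
    obtain ⟨h1, h2, h3⟩ := ih
    rw [hs, P_succ]
    set s := orb q n
    set E : ℝ := (q.2.2.2.2 : ℝ) with hEdef
    set D : ℝ := E ^ (2 ^ n) with hD
    have hD2 : E ^ (2 ^ (n + 1)) = D ^ 2 := by rw [hD, ← pow_mul, ← pow_succ]
    rw [hD2]
    have hre : (pt q).re * E = (q.1 : ℝ) - q.2.1 := by
      rw [hEdef]; unfold pt; simp only; rw [div_mul_cancel₀ _ hE'.ne']
    have him : (pt q).im * E = (q.2.2.1 : ℝ) - q.2.2.2.1 := by
      rw [hEdef]; unfold pt; simp only; rw [div_mul_cancel₀ _ hE'.ne']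
    have e1 : ((P n (pt q)) ^ 2 + pt q).re = (P n (pt q)).re ^ 2 - (P n (pt q)).im ^ 2 + (pt q).re := by
      rw [sq, Complex.add_re, Complex.mul_re]; ring
    have e2 : ((P n (pt q)) ^ 2 + pt q).im = 2 * (P n (pt q)).re * (P n (pt q)).im + (pt q).im := by
      rw [sq, Complex.add_im, Complex.mul_im]; ring
    rw [e1, e2]
    unfold step
    simp only
    push_cast
    refine ⟨?_, ?_, ?_⟩
    · have g1 : D ^ 2 * ((P n (pt q)).re ^ 2 - (P n (pt q)).im ^ 2 + (pt q).re)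
          = (D * (P n (pt q)).re) ^ 2 - (D * (P n (pt q)).im) ^ 2 + D ^ 2 * (pt q).re := by ring
      rw [g1, ← h1, ← h2, ← h3]
      have g2 : ((s.2.2.2.2 : ℝ) * E) * (pt q).re = s.2.2.2.2 * ((pt q).re * E) := by ring
      rw [g2, hre]
      ring
    · have g1 : D ^ 2 * (2 * (P n (pt q)).re * (P n (pt q)).im + (pt q).im)
          = 2 * (D * (P n (pt q)).re) * (D * (P n (pt q)).im) + D ^ 2 * (pt q).im := by ring
      rw [g1, ← h1, ← h2, ← h3]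
      have g2 : ((s.2.2.2.2 : ℝ) * E) * (pt q).im = s.2.2.2.2 * ((pt q).im * E) := by ring
      rw [g2, him]
      ring
    · rw [← h3]
      ring

/-- The test `t < ‖z_n‖²`. -/
def Big (t : ℕ) (q : ℕ × ℕ × ℕ × ℕ × ℕ) (n : ℕ) : Prop :=
  t * ((orb q n).2.2.2.2 * q.2.2.2.2) + 2 * ((orb q n).1 * (orb q n).2.1) +
      2 * ((orb q n).2.2.1 * (orb q n).2.2.2.1) <
    (orb q n).1 * (orb q n).1 + (orb q n).2.1 * (orb q n).2.1 +
      ((orb q n).2.2.1 * (orb q n).2.2.1 + (orb q n).2.2.2.1 * (orb q n).2.2.2.1)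

instance (t : ℕ) (q : ℕ × ℕ × ℕ × ℕ × ℕ) (n : ℕ) : Decidable (Big t q n) := by
  unfold Big; infer_instance

lemma big_iff (t : ℕ) (q : ℕ × ℕ × ℕ × ℕ × ℕ) (hE : 0 < q.2.2.2.2) (n : ℕ) :
    Big t q n ↔ (t : ℝ) < ‖P n (pt q)‖ ^ 2 := by
  obtain ⟨h1, h2, h3⟩ := orb_spec q hE n
  have hE' : (0 : ℝ) < q.2.2.2.2 := by exact_mod_cast hE
  set D : ℝ := (q.2.2.2.2 : ℝ) ^ (2 ^ n) with hD
  have hD0 : 0 < D ^ 2 := by positivity
  rw [← Complex.normSq_eq_norm_sq, Complex.normSq_apply]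
  unfold Big
  rw [← Nat.cast_lt (α := ℝ)]
  push_cast
  rw [h3]
  have e : D ^ 2 * ((P n (pt q)).re * (P n (pt q)).re + (P n (pt q)).im * (P n (pt q)).im)
      = (((orb q n).1 : ℝ) - (orb q n).2.1) ^ 2 + (((orb q n).2.2.1 : ℝ) - (orb q n).2.2.2.1) ^ 2 := by
    rw [h1, h2]; ring
  rw [← mul_lt_mul_iff_right₀ hD0 (b := (t : ℝ)), e]
  constructor
  · intro h; nlinarith
  · intro h; nlinarith

lemma pbig {α : Type*} [Primcodable α] {q : α → ℕ × ℕ × ℕ × ℕ × ℕ} {n : α → ℕ} (t : ℕ)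
    (hq : Primrec q) (hn : Primrec n) : PrimrecPred fun a => Big t (q a) (n a) := by
  have s := porb hq hn
  have s2 := Primrec.snd.comp s
  have s3 := Primrec.snd.comp s2
  have s4 := Primrec.snd.comp s3
  have h5 := Primrec.snd.comp s4
  have h1 := Primrec.fst.comp s
  have h2 := Primrec.fst.comp s2
  have h3 := Primrec.fst.comp s3
  have h4 := Primrec.fst.comp s4
  have e5 : Primrec fun a => (q a).2.2.2.2 :=
    Primrec.snd.comp (Primrec.snd.comp (Primrec.snd.comp (Primrec.snd.comp hq)))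
  exact plt (padd (padd (pmul (pconst t) (pmul h5 e5)) (pmul (pconst 2) (pmul h1 h2)))
    (pmul (pconst 2) (pmul h3 h4)))
    (padd (padd (pmul h1 h1) (pmul h2 h2)) (padd (pmul h3 h3) (pmul h4 h4)))

end Pool.MP_500150_lc.H8
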