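import Mathlib
import Pool.Agent.Work.MP_500150_lc.H8.Escape
import Pool.Agent.Work.MP_500150_lc.H8.Comp

set_option autoImplicit false

/-!
# Pictures of the Mandelbrot set which are correct up to narrow fjords
-/

namespace Pool.MP_500150_lc.H8

open Metric Set

/-- The number of iterations. -/
def NN (e : ℕ) : ℕ := 3100 * 4 ^ e

/-- The precision. -/
def JJ (N k : ℕ) : ℕ := 4 * 2 ^ N + k + 4

/-- `|u - v|`. -/
def nd (u v : ℕ) : ℕ := (u - v) + (v - u)

lemma nd_cast (u v : ℕ) : ((nd u v : ℕ) : ℝ) ^ 2 = ((u : ℝ) - v) ^ 2 := by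
  unfold nd
  rcases le_total u v with h | h
  · rw [Nat.sub_eq_zero_of_le h, zero_add, Nat.cast_sub h]; ring
  · rw [Nat.sub_eq_zero_of_le h, add_zero, Nat.cast_sub h]

/-- The grid point. -/
def gq (J x y : ℕ) : ℕ × ℕ × ℕ × ℕ × ℕ := (x, 4 * 2 ^ J, y, 4 * 2 ^ J, 2 ^ J)

/-- The distance (times `4 ^ J`) of the grid point to the point `z`. -/
def sqd (a b c d k J x y : ℕ) : ℕ :=
  nd (x + b * 2 ^ (J - k)) (4 * 2 ^ J + a * 2 ^ (J - k)) ^ 2 +
    nd (y + d * 2 ^ (J - k)) (4 * 2 ^ J + c * 2 ^ (J - k)) ^ 2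

/-- All grid points near `z` escape. -/
def TT' (a b c d k N J : ℕ) : Prop :=
  ∀ x < 8 * 2 ^ J + 1, ∀ y < 8 * 2 ^ J + 1,
    (2 ^ (J - k) + 2) ^ 2 < sqd a b c d k J x y ∨ Big 9 (gq J x y) N

/-- The test. -/
def TT (a b c d k m : ℕ) : Prop := TT' a b c d k (NN (m + k + 1)) (JJ (NN (m + k + 1)) k)

/-- The point of the plane. -/
noncomputable def zpt (a b c d k : ℕ) : ℂ :=
  Complex.mk (((a : ℝ) - (b : ℝ)) / 2 ^ k) (((c : ℝ) - (d : ℝ)) / 2 ^ k)

section prim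

variable {α : Type*} [Primcodable α]

lemma pnd {f g : α → ℕ} (hf : Primrec f) (hg : Primrec g) : Primrec fun a => nd (f a) (g a) :=
  padd (psub hf hg) (psub hg hf)

lemma pgq {J x y : α → ℕ} (hJ : Primrec J) (hx : Primrec x) (hy : Primrec y) :
    Primrec fun u => gq (J u) (x u) (y u) := by
  have h2 : Primrec fun u => 2 ^ J u := ppow (pconst 2) hJ
  have h4 : Primrec fun u => 4 * 2 ^ J u := pmul (pconst 4) h2
  exact hx.pair (h4.pair (hy.pair (h4.pair h2)))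

lemma psqd {a b c d k J x y : α → ℕ} (ha : Primrec a) (hb : Primrec b) (hc : Primrec c)
    (hd : Primrec d) (hk : Primrec k) (hJ : Primrec J) (hx : Primrec x) (hy : Primrec y) :
    Primrec fun u => sqd (a u) (b u) (c u) (d u) (k u) (J u) (x u) (y u) := by
  have hW : Primrec fun u => 2 ^ (J u - k u) := ppow (pconst 2) (psub hJ hk)
  have h4 : Primrec fun u => 4 * 2 ^ J u := pmul (pconst 4) (ppow (pconst 2) hJ)
  exact padd (ppow (pnd (padd hx (pmul hb hW)) (padd h4 (pmul ha hW))) (pconst 2))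
    (ppow (pnd (padd hy (pmul hd hW)) (padd h4 (pmul hc hW))) (pconst 2))

lemma pTT' {a b c d k N J : α → ℕ} (ha : Primrec a) (hb : Primrec b) (hc : Primrec c)
    (hd : Primrec d) (hk : Primrec k) (hN : Primrec N) (hJ : Primrec J) :
    PrimrecPred fun u => TT' (a u) (b u) (c u) (d u) (k u) (N u) (J u) := by
  have hB : Primrec fun u => 8 * 2 ^ J u + 1 := padd (pmul (pconst 8) (ppow (pconst 2) hJ)) (pconst 1)
  have f1 : Primrec fun p : (α × ℕ) × ℕ => p.1.1 := Primrec.fst.comp Primrec.fst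
  have fx : Primrec fun p : (α × ℕ) × ℕ => p.1.2 := Primrec.snd.comp Primrec.fst
  have fy : Primrec fun p : (α × ℕ) × ℕ => p.2 := Primrec.snd
  have hin : PrimrecPred fun p : (α × ℕ) × ℕ =>
      (2 ^ (J p.1.1 - k p.1.1) + 2) ^ 2 < sqd (a p.1.1) (b p.1.1) (c p.1.1) (d p.1.1) (k p.1.1)
        (J p.1.1) p.1.2 p.2 ∨ Big 9 (gq (J p.1.1) p.1.2 p.2) (N p.1.1) := by
    apply PrimrecPred.or
    · exact plt (ppow (padd (ppow (pconst 2) (psub (hJ.comp f1) (hk.comp f1))) (pconst 2)) (pconst 2))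
        (psqd (ha.comp f1) (hb.comp f1) (hc.comp f1) (hd.comp f1) (hk.comp f1) (hJ.comp f1) fx fy)
    · exact pbig 9 (pgq (hJ.comp f1) fx fy) (hN.comp f1)
  have h1 := pforall (hB.comp (Primrec.fst (α := α) (β := ℕ))) hin
  exact pforall hB h1

lemma pNN {e : α → ℕ} (he : Primrec e) : Primrec fun u => NN (e u) :=
  pmul (pconst 3100) (ppow (pconst 4) he)

lemma pJJ {N k : α → ℕ} (hN : Primrec N) (hk : Primrec k) : Primrec fun u => JJ (N u) (k u) :=
  padd (padd (pmul (pconst 4) (ppow (pconst 2) hN)) hk) (pconst 4)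

lemma pTT {a b c d k m : α → ℕ} (ha : Primrec a) (hb : Primrec b) (hc : Primrec c)
    (hd : Primrec d) (hk : Primrec k) (hm : Primrec m) :
    PrimrecPred fun u => TT (a u) (b u) (c u) (d u) (k u) (m u) := by
  have h1 : Primrec fun u => NN (m u + k u + 1) := pNN (padd (padd hm hk) (pconst 1))
  exact pTT' ha hb hc hd hk h1 (pJJ h1 hk)

end prim

lemma pt_gq (J x y : ℕ) : pt (gq J x y)
    = Complex.mk (((x : ℝ) - 4 * 2 ^ J) / 2 ^ J) (((y : ℝ) - 4 * 2 ^ J) / 2 ^ J) := by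
  unfold pt gq
  simp only
  push_cast
  rfl

lemma gq_pos (J x y : ℕ) : 0 < (gq J x y).2.2.2.2 := by
  unfold gq; positivity

lemma sqd_cast {a b c d k J : ℕ} (hk : k ≤ J) (x y : ℕ) :
    ((sqd a b c d k J x y : ℕ) : ℝ) = (2 ^ J * ‖pt (gq J x y) - zpt a b c d k‖) ^ 2 := by
  unfold sqd
  push_cast
  rw [nd_cast, nd_cast]
  rw [mul_pow, ← Complex.normSq_eq_norm_sq, Complex.normSq_apply, pt_gq]
  unfold zpt
  simp only [Complex.sub_re, Complex.sub_im]
  push_cast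
  have h2 : (2 : ℝ) ^ J = 2 ^ (J - k) * 2 ^ k := by rw [← pow_add, Nat.sub_add_cancel hk]
  have hk0 : (2 : ℝ) ^ k ≠ 0 := by positivity
  have hW0 : (2 : ℝ) ^ (J - k) ≠ 0 := by positivity
  rw [h2]
  field_simp
  ring

lemma near_iff {a b c d k J : ℕ} (hk : k ≤ J) (x y : ℕ) :
    (2 ^ (J - k) + 2) ^ 2 < sqd a b c d k J x y ↔
      1 / 2 ^ k + 2 / 2 ^ J < ‖pt (gq J x y) - zpt a b c d k‖ := by
  rw [← Nat.cast_lt (α := ℝ), sqd_cast hk]
  push_cast
  have h2 : (2 : ℝ) ^ J = 2 ^ (J - k) * 2 ^ k := by rw [← pow_add, Nat.sub_add_cancel hk]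
  have hJ0 : (0 : ℝ) < 2 ^ J := by positivity
  have e : (2 : ℝ) ^ (J - k) + 2 = 2 ^ J * (1 / 2 ^ k + 2 / 2 ^ J) := by
    rw [mul_add, mul_div_cancel₀ _ hJ0.ne', h2]
    field_simp
  rw [e, sq_lt_sq₀ (by positivity) (by positivity), mul_lt_mul_iff_right₀ hJ0]

/-- Every point of the disc of radius `3` is near to a grid point. -/
lemma grid_near (J : ℕ) {w : ℂ} (hw : ‖w‖ ≤ 3) :
    ∃ x < 8 * 2 ^ J + 1, ∃ y < 8 * 2 ^ J + 1, ‖pt (gq J x y) - w‖ ≤ 2 / 2 ^ J := by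
  have hE : (0 : ℝ) < 2 ^ J := by positivity
  have key : ∀ t : ℝ, |t| ≤ 3 → ∃ x < 8 * 2 ^ J + 1, |((x : ℕ) - 4 * 2 ^ J : ℝ) / 2 ^ J - t| ≤ 1 / 2 ^ J := by
    intro t ht
    rw [abs_le] at ht
    have h0 : 0 ≤ (t + 4) * 2 ^ J := mul_nonneg (by linarith) hE.le
    refine ⟨⌊(t + 4) * 2 ^ J⌋₊, ?_, ?_⟩
    · rw [Nat.floor_lt h0]
      push_cast
      nlinarith
    · have h1 := Nat.floor_le h0
      have h2 := Nat.lt_floor_add_one ((t + 4) * 2 ^ J)
      have e : ((⌊(t + 4) * 2 ^ J⌋₊ : ℕ) - 4 * 2 ^ J : ℝ) / 2 ^ J - t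
          = ((⌊(t + 4) * 2 ^ J⌋₊ : ℝ) - (t + 4) * 2 ^ J) / 2 ^ J := by
        field_simp; ring
      rw [e, abs_div, abs_of_pos hE]
      apply div_le_div_of_nonneg_right _ hE.le
      rw [abs_le]
      constructor <;> linarith
  obtain ⟨x, hx, hx2⟩ := key w.re ((Complex.abs_re_le_norm w).trans hw)
  obtain ⟨y, hy, hy2⟩ := key w.im ((Complex.abs_im_le_norm w).trans hw)
  refine ⟨x, hx, y, hy, ?_⟩
  rw [pt_gq]
  refine (Complex.norm_le_abs_re_add_abs_im _).trans ?_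
  simp only [Complex.sub_re, Complex.sub_im]
  have e : (2 : ℝ) / 2 ^ J = 1 / 2 ^ J + 1 / 2 ^ J := by ring
  rw [e]
  exact add_le_add hx2 hy2

lemma prec (N k : ℕ) : (9 : ℝ) ^ (2 ^ N) * (2 / 2 ^ (JJ N k)) ≤ 1 / 8 := by
  have h1 : (2 : ℝ) ^ (JJ N k) = 16 ^ (2 ^ N) * (2 ^ k * 16) := by
    unfold JJ
    rw [pow_add, pow_add, pow_mul]
    norm_num
    ring
  rw [h1]
  have h2 : (9 : ℝ) ^ (2 ^ N) ≤ 16 ^ (2 ^ N) := pow_le_pow_left₀ (by norm_num) (by norm_num) _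
  have h3 : (1 : ℝ) ≤ 2 ^ k := one_le_pow₀ (by norm_num)
  rw [mul_div_assoc', div_le_div_iff₀ (by positivity) (by norm_num)]
  have h4 : (0 : ℝ) < 16 ^ (2 ^ N) := by positivity
  nlinarith [mul_le_mul_of_nonneg_left h3 h4.le]

lemma prec2 (N k : ℕ) : (2 : ℝ) / 2 ^ (JJ N k) ≤ 1 / 2 ^ k / 8 := by
  have h1 : (2 : ℝ) ^ (JJ N k) = 16 ^ (2 ^ N) * (2 ^ k * 16) := by
    unfold JJ
    rw [pow_add, pow_add, pow_mul]
    norm_num
    ring
  rw [h1]
  have h2 : (1 : ℝ) ≤ 16 ^ (2 ^ N) := one_le_pow₀ (by norm_num)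
  have h3 : (0 : ℝ) < 2 ^ k := by positivity
  rw [div_div, div_le_div_iff₀ (by positivity) (by positivity)]
  nlinarith [mul_le_mul_of_nonneg_left h2 h3.le]

lemma le_JJ (N k : ℕ) : k ≤ JJ N k := by unfold JJ; omega

/-- A grid point near a point of `M` does not escape. -/
lemma not_big {N k : ℕ} {w : ℂ} (hw : w ∈ MM) {x y : ℕ}
    (h : ‖pt (gq (JJ N k) x y) - w‖ ≤ 2 / 2 ^ (JJ N k)) : ‖P N (pt (gq (JJ N k) x y))‖ ≤ 17 / 8 := by
  set g := pt (gq (JJ N k) x y)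
  have hw2 := norm_le_of_mem hw
  have h8 := prec2 N k
  have h9 : (1 : ℝ) / 2 ^ k ≤ 1 := by
    rw [div_le_one (by positivity)]; exact one_le_pow₀ (by norm_num)
  have hg4 : ‖g‖ ≤ 4 := by
    have h5 : ‖g‖ ≤ ‖g - w‖ + ‖w‖ := by
      have := norm_add_le (g - w) w
      simpa using this
    linarith
  have h6 := lip hg4 (hw2.trans (by norm_num)) N
  have h7 : (9 : ℝ) ^ (2 ^ N) * ‖g - w‖ ≤ 1 / 8 :=
    (mul_le_mul_of_nonneg_left h (by positivity)).trans (prec N k)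
  have h10 : ‖P N g‖ ≤ ‖P N g - P N w‖ + ‖P N w‖ := by
    have := norm_add_le (P N g - P N w) (P N w)
    simpa using this
  have := (mem_MM.mp hw) N
  linarith

theorem pic_zero {a b c d k m : ℕ} (h : dM (zpt a b c d k) < 1 / 2 ^ k) : ¬ TT a b c d k m := by
  intro hT
  unfold dM at h
  rw [infDist_lt_iff ⟨0, zero_mem_MM⟩] at h
  obtain ⟨w, hw, hwz⟩ := h
  set N := NN (m + k + 1) with hN
  obtain ⟨x, hx, y, hy, hxy⟩ := grid_near (JJ N k) ((norm_le_of_mem hw).trans (by norm_num))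
  rcases hT x hx y hy with h1 | h1
  · rw [near_iff (le_JJ _ _)] at h1
    rw [dist_eq_norm, norm_sub_rev] at hwz
    have := norm_sub_le_norm_sub_add_norm_sub (pt (gq (JJ N k) x y)) w (zpt a b c d k)
    linarith
  · rw [big_iff _ _ (gq_pos _ _ _)] at h1
    have h2 := not_big hw hxy
    have h3 := norm_nonneg (P N (pt (gq (JJ N k) x y)))
    push_cast at h1
    nlinarith

/-- Moving the point. -/
lemma Reach.move' {r R δ : ℝ} {c c' : ℂ} (h : Reach r c) (hR : R < dM c) (hc : ‖c' - c‖ ≤ δ) :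
    Reach (min r (R - δ)) c' := by
  obtain ⟨S, h1, h2, h3, h4⟩ := h
  refine ⟨S ∪ segment ℝ c c', ?_, Or.inr (right_mem_segment ℝ c c'), ?_, ?_⟩
  · exact h1.union c h2 (left_mem_segment ℝ c c') (convex_segment c c').isPreconnected
  · obtain ⟨w, hw, hw3⟩ := h3
    exact ⟨w, Or.inl hw, hw3⟩
  · rintro w (hw | hw)
    · exact (min_le_left _ _).trans_lt (h4 w hw)
    · have h5 : ‖c - w‖ ≤ δ := by
        have := norm_sub_le_of_mem_segment hw
        have h6 := norm_sub_rev c w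
        rw [h6]
        exact this.trans hc
      have h7 := dM_le_add c w
      refine (min_le_right _ _).trans_lt ?_
      linarith

theorem pic_one {a b c d k m : ℕ} (h : 2 / 2 ^ k < dM (zpt a b c d k))
    (hr : Reach (1 / 2 ^ m) (zpt a b c d k)) : TT a b c d k m := by
  intro x _ y _
  set N := NN (m + k + 1) with hN
  rw [near_iff (le_JJ _ _), big_iff _ _ (gq_pos _ _ _)]
  by_cases h1 : 1 / 2 ^ k + 2 / 2 ^ (JJ N k) < ‖pt (gq (JJ N k) x y) - zpt a b c d k‖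
  · exact Or.inl h1
  · push Not at h1
    right
    have h2 := hr.move' h h1
    have h3 : Reach (1 / 2 ^ (m + k + 1)) (pt (gq (JJ N k) x y)) := by
      apply h2.mono
      apply le_min
      · apply one_div_le_one_div_of_le (by positivity)
        exact pow_le_pow_right₀ (by norm_num) (by omega)
      · have h4 := prec2 N k
        have h5 : (1 : ℝ) / 2 ^ (m + k + 1) ≤ 1 / 2 ^ k / 2 := by
          rw [div_div]
          apply one_div_le_one_div_of_le (by positivity)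
          rw [← pow_succ]
          exact pow_le_pow_right₀ (by norm_num) (by omega)
        have h6 : (0 : ℝ) < 1 / 2 ^ k := by positivity
        have e : (2 : ℝ) / 2 ^ k = 2 * (1 / 2 ^ k) := by ring
        rw [e]
        linarith
    have h4 : (1 : ℝ) / 2 ^ (m + k + 1) ≤ 1 := by
      rw [div_le_one (by positivity)]; exact one_le_pow₀ (by norm_num)
    have h5 := escape_time (by positivity) h4 h3 (n := N) (by
      rw [hN]
      unfold NN
      push_cast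
      rw [one_div, inv_pow, div_inv_eq_mul, ← pow_mul, mul_comm (m + k + 1) 2, pow_mul]
      norm_num)
    push_cast
    nlinarith

end Pool.MP_500150_lc.H8
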