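import Mathlib
import Pool.Agent.Work.MP_500150_lc.H8.Pic

set_option autoImplicit false

/-!
# A bound for the widths of the necks gives the computability of `M`, and conversely
-/

namespace Pool.MP_500150_lc.H8

open Metric Set

/-- Points with a large value `z_N` are reached by channels of a certain width. -/
lemma reach_of_large {N k : ℕ} {c : ℂ} (hc : 3 < ‖P N c‖) :
    Reach (1 / 2 ^ (4 * 2 ^ N + k + 1)) c := by
  set O : Set ℂ := {w : ℂ | 3 < ‖P N w‖} with hO
  have hOo : IsOpen O := isOpen_lt continuous_const (continuous_P N).norm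
  have hcO : c ∈ O := hc
  set S := connectedComponentIn O c with hS
  have hcS : c ∈ S := mem_connectedComponentIn hcO
  have hSO : S ⊆ O := connectedComponentIn_subset O c
  have hSo : IsOpen S := hOo.connectedComponentIn
  have hSc : IsPreconnected S := isPreconnected_connectedComponentIn
  refine ⟨S, hSc, hcS, ?_, ?_⟩
  · by_contra hcon
    push Not at hcon
    have hb : Bornology.IsBounded S :=
      (isBounded_ball (x := (0 : ℂ)) (r := 3)).subset
        (fun w hw => by rw [mem_ball_zero_iff]; exact hcon w hw)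
    have hfr : ∀ w ∈ frontier S, ‖P N w‖ ≤ 3 := by
      intro w hw
      by_contra h3
      push Not at h3
      rw [hSo.frontier_eq] at hw
      obtain ⟨hw1, hw2⟩ := hw
      apply hw2
      obtain ⟨ε, hε, hεO⟩ := Metric.isOpen_iff.mp hOo w h3
      obtain ⟨v, hvS, hvw⟩ := Metric.mem_closure_iff.mp hw1 ε hε
      have hball : IsPreconnected (ball w ε) := (convex_ball w ε).isPreconnected
      have hvb : v ∈ ball w ε := by rw [mem_ball, dist_comm]; exact hvw
      have h4 : IsPreconnected (S ∪ ball w ε) := hSc.union v hvS hvb hball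
      have h5 : S ∪ ball w ε ⊆ S :=
        h4.subset_connectedComponentIn (Or.inl hcS) (union_subset hSO hεO)
      exact h5 (Or.inr (mem_ball_self hε))
    have h6 := Complex.norm_le_of_forall_mem_frontier_norm_le hb
      (differentiable_P N).diffContOnCl hfr (subset_closure hcS)
    linarith
  · intro w hw
    have hwO : 3 < ‖P N w‖ := hSO hw
    rcases le_total ‖w‖ 4 with h4 | h4
    · have h5 : 1 / 9 ^ (2 ^ N) ≤ dM w := by
        unfold dM
        rw [le_infDist ⟨0, zero_mem_MM⟩]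
        intro v hv
        rw [dist_eq_norm]
        have h6 := lip h4 ((norm_le_of_mem hv).trans (by norm_num)) N
        have h7 := norm_sub_norm_le (P N w) (P N v)
        have h8 := (mem_MM.mp hv) N
        rw [div_le_iff₀ (by positivity)]
        linarith
      refine lt_of_lt_of_le ?_ h5
      apply one_div_lt_one_div_of_lt (by positivity)
      have h9 : (2 : ℝ) ^ (4 * 2 ^ N + k + 1) = 16 ^ (2 ^ N) * (2 ^ k * 2) := by
        rw [pow_add, pow_add, pow_mul]
        norm_num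
        ring
      rw [h9]
      have h10 : (9 : ℝ) ^ (2 ^ N) ≤ 16 ^ (2 ^ N) := pow_le_pow_left₀ (by norm_num) (by norm_num) _
      have h11 : (1 : ℝ) ≤ 2 ^ k := one_le_pow₀ (by norm_num)
      have h12 : (0 : ℝ) < 16 ^ (2 ^ N) := by positivity
      nlinarith
    · have h5 := le_dM (c := w)
      have h6 : (1 : ℝ) / 2 ^ (4 * 2 ^ N + k + 1) ≤ 1 := by
        rw [div_le_one (by positivity)]; exact one_le_pow₀ (by norm_num)
      linarith

lemma reach_of_norm {c : ℂ} (hc : 3 ≤ ‖c‖) {r : ℝ} (hr : r < dM c) : Reach r c := by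
  refine ⟨{c}, isPreconnected_singleton, mem_singleton c, ⟨c, mem_singleton c, hc⟩, ?_⟩
  intro w hw
  rw [mem_singleton_iff] at hw
  rw [hw]
  exact hr

/-- The frozen notion of computability of the Mandelbrot set. -/
def CompM : Prop :=
    ∃ f : ℕ × ℕ × ℕ × ℕ × ℕ → ℕ × ℕ, Computable f ∧
      ∀ a b c d n : ℕ,
        |(((f (a, b, c, d, n)).1 : ℝ) - ((f (a, b, c, d, n)).2 : ℝ)) / 2 ^ n -
          Metric.infDist (Complex.mk (((a : ℝ) - (b : ℝ)) / 2 ^ n) (((c : ℝ) - (d : ℝ)) / 2 ^ n))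
            {w : ℂ | ∀ i : ℕ, ‖(fun z : ℂ => z ^ 2 + w)^[i] 0‖ ≤ 2}| ≤ 1 / 2 ^ n

/-! ### From the necks to the distance function -/

/-- The condition on `p`. -/
def CC (a b c d n N J p : ℕ) : Prop :=
  ∀ x < 8 * 2 ^ J + 1, ∀ y < 8 * 2 ^ J + 1,
    Big 9 (gq J x y) N ∨ ((2 * p - 1) * 2 ^ (J - n)) ^ 2 < 4 * sqd a b c d n J x y

open Classical in
/-- The approximation of `2 ^ n d_M(z)`. -/
noncomputable def PP (a b c d n N : ℕ) : ℕ :=
  Nat.findGreatest (CC a b c d n N (JJ N n)) (a + b + c + d + 1)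

lemma pCC {α : Type*} [Primcodable α] {a b c d n N J p : α → ℕ} (ha : Primrec a) (hb : Primrec b)
    (hc : Primrec c) (hd : Primrec d) (hn : Primrec n) (hN : Primrec N) (hJ : Primrec J)
    (hp : Primrec p) :
    PrimrecPred fun u => CC (a u) (b u) (c u) (d u) (n u) (N u) (J u) (p u) := by
  have hB : Primrec fun u => 8 * 2 ^ J u + 1 := padd (pmul (pconst 8) (ppow (pconst 2) hJ)) (pconst 1)
  have f1 : Primrec fun p : (α × ℕ) × ℕ => p.1.1 := Primrec.fst.comp Primrec.fst
  have fx : Primrec fun p : (α × ℕ) × ℕ => p.1.2 := Primrec.snd.comp Primrec.fst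
  have fy : Primrec fun p : (α × ℕ) × ℕ => p.2 := Primrec.snd
  have hin : PrimrecPred fun q : (α × ℕ) × ℕ =>
      Big 9 (gq (J q.1.1) q.1.2 q.2) (N q.1.1) ∨
      ((2 * p q.1.1 - 1) * 2 ^ (J q.1.1 - n q.1.1)) ^ 2 <
        4 * sqd (a q.1.1) (b q.1.1) (c q.1.1) (d q.1.1) (n q.1.1) (J q.1.1) q.1.2 q.2 := by
    apply PrimrecPred.or
    · exact pbig 9 (pgq (hJ.comp f1) fx fy) (hN.comp f1)
    · exact plt (ppow (pmul (psub (pmul (pconst 2) (hp.comp f1)) (pconst 1))
        (ppow (pconst 2) (psub (hJ.comp f1) (hn.comp f1)))) (pconst 2))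
        (pmul (pconst 4) (psqd (ha.comp f1) (hb.comp f1) (hc.comp f1) (hd.comp f1) (hn.comp f1)
          (hJ.comp f1) fx fy))
  have h1 := pforall (hB.comp (Primrec.fst (α := α) (β := ℕ))) hin
  exact pforall hB h1

lemma pPP {α : Type*} [Primcodable α] {a b c d n N : α → ℕ} (ha : Primrec a) (hb : Primrec b)
    (hc : Primrec c) (hd : Primrec d) (hn : Primrec n) (hN : Primrec N) :
    Primrec fun u => PP (a u) (b u) (c u) (d u) (n u) (N u) := by
  classical
  have hbd : Primrec fun u => a u + b u + c u + d u + 1 :=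
    padd (padd (padd (padd ha hb) hc) hd) (pconst 1)
  have f1 : Primrec fun q : α × ℕ => q.1 := Primrec.fst
  have f2 : Primrec fun q : α × ℕ => q.2 := Primrec.snd
  have hrel : PrimrecRel fun (u : α) (p : ℕ) =>
      CC (a u) (b u) (c u) (d u) (n u) (N u) (JJ (N u) (n u)) p :=
    pCC (ha.comp f1) (hb.comp f1) (hc.comp f1) (hd.comp f1) (hn.comp f1) (hN.comp f1)
      (pJJ (hN.comp f1) (hn.comp f1)) f2
  exact Primrec.nat_findGreatest hbd hrel

lemma cc_iff {a b c d n J : ℕ} (hn : n ≤ J) (x y p : ℕ) (hp : 1 ≤ p) :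
    ((2 * p - 1) * 2 ^ (J - n)) ^ 2 < 4 * sqd a b c d n J x y ↔
      ((p : ℝ) - 1 / 2) < 2 ^ n * ‖pt (gq J x y) - zpt a b c d n‖ := by
  rw [← Nat.cast_lt (α := ℝ)]
  push_cast
  rw [sqd_cast hn]
  have h2 : (2 : ℝ) ^ J = 2 ^ (J - n) * 2 ^ n := by rw [← pow_add, Nat.sub_add_cancel hn]
  have hW : (0 : ℝ) < 2 ^ (J - n) := by positivity
  have hp' : (1 : ℝ) ≤ p := by exact_mod_cast hp
  have e1 : (((2 * p - 1 : ℕ) : ℝ) * 2 ^ (J - n)) ^ 2 = (2 ^ (J - n) * (2 * ((p : ℝ) - 1 / 2))) ^ 2 := by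
    rw [Nat.cast_sub (by omega)]
    push_cast
    ring
  have e2 : 4 * (2 ^ J * ‖pt (gq J x y) - zpt a b c d n‖) ^ 2
      = (2 ^ (J - n) * (2 * (2 ^ n * ‖pt (gq J x y) - zpt a b c d n‖))) ^ 2 := by
    rw [h2]; ring
  rw [e1, e2, sq_lt_sq₀ (by apply mul_nonneg hW.le; linarith) (by positivity),
    mul_lt_mul_iff_right₀ hW]
  constructor <;> intro h <;> linarith

lemma pp_spec {a b c d n N : ℕ}
    (H : ∀ w : ℂ, 1 / 2 ^ (n + 2) < dM w → 3 < ‖P N w‖) :
    |(PP a b c d n N : ℝ) - 2 ^ n * dM (zpt a b c d n)| ≤ 1 := by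
  classical
  set J := JJ N n with hJ
  set z := zpt a b c d n with hz
  set p := PP a b c d n N with hp
  have h2n : (0 : ℝ) < 2 ^ n := by positivity
  have hnJ : n ≤ J := le_JJ _ _
  -- good grid points are near to `M`
  have hgood : ∀ x y : ℕ, ¬ Big 9 (gq J x y) N → 2 ^ n * dM z ≤ 2 ^ n * ‖pt (gq J x y) - z‖ + 1 / 4 := by
    intro x y hb
    rw [big_iff _ _ (gq_pos _ _ _)] at hb
    push_cast at hb
    push Not at hb
    have h1 : dM (pt (gq J x y)) ≤ 1 / 2 ^ (n + 2) := by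
      by_contra hc
      push Not at hc
      have h5 := H _ hc
      nlinarith [norm_nonneg (P N (pt (gq J x y)))]
    have h3 := dM_le_add z (pt (gq J x y))
    rw [norm_sub_rev] at h3
    have h4 : (2 : ℝ) ^ n * (1 / 2 ^ (n + 2)) = 1 / 4 := by
      rw [pow_add]; field_simp; norm_num
    have h5 : 2 ^ n * dM z ≤ 2 ^ n * (1 / 2 ^ (n + 2) + ‖pt (gq J x y) - z‖) :=
      mul_le_mul_of_nonneg_left (by linarith) h2n.le
    rw [mul_add, h4] at h5
    linarith
  -- a good grid point near to the nearest point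
  obtain ⟨x₀, hx₀, y₀, hy₀, hb₀, hd₀⟩ : ∃ x < 8 * 2 ^ J + 1, ∃ y < 8 * 2 ^ J + 1,
      ¬ Big 9 (gq J x y) N ∧ 2 ^ n * ‖pt (gq J x y) - z‖ ≤ 2 ^ n * dM z + 1 / 8 := by
    obtain ⟨w, hw, hwd⟩ := isClosed_MM.exists_infDist_eq_dist ⟨0, zero_mem_MM⟩ z
    obtain ⟨x, hx, y, hy, hxy⟩ := grid_near J ((norm_le_of_mem hw).trans (by norm_num))
    refine ⟨x, hx, y, hy, ?_, ?_⟩
    · rw [big_iff _ _ (gq_pos _ _ _)]
      have h2 := not_big hw hxy
      have h3 := norm_nonneg (P N (pt (gq J x y)))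
      push_cast
      push Not
      nlinarith
    · have h1 := norm_sub_le_norm_sub_add_norm_sub (pt (gq J x y)) w z
      have h2 : dM z = ‖w - z‖ := by
        unfold dM
        rw [hwd, dist_comm, dist_eq_norm]
      have h3 := prec2 N n
      have h4 : (2 : ℝ) ^ n * (1 / 2 ^ n / 8) = 1 / 8 := by field_simp
      have h5 : 2 ^ n * ‖pt (gq J x y) - z‖ ≤ 2 ^ n * (dM z + 1 / 2 ^ n / 8) :=
        mul_le_mul_of_nonneg_left (by rw [h2]; linarith) h2n.le
      rw [mul_add, h4] at h5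
      exact h5
  -- size of the distance
  have hsize : 2 ^ n * dM z ≤ (a : ℝ) + b + c + d := by
    have h1 : dM z ≤ ‖z‖ := by
      have := infDist_le_dist_of_mem (x := z) zero_mem_MM
      rw [dist_zero_right] at this
      exact this
    have h2 : ‖z‖ ≤ |z.re| + |z.im| := Complex.norm_le_abs_re_add_abs_im z
    have h3 : 2 ^ n * |z.re| ≤ (a : ℝ) + b := by
      rw [hz]
      unfold zpt
      simp only
      rw [abs_div, abs_of_pos h2n, mul_div_cancel₀ _ h2n.ne']
      have ha : (0 : ℝ) ≤ a := Nat.cast_nonneg _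
      have hb : (0 : ℝ) ≤ b := Nat.cast_nonneg _
      rw [abs_le]
      constructor <;> linarith
    have h4 : 2 ^ n * |z.im| ≤ (c : ℝ) + d := by
      rw [hz]
      unfold zpt
      simp only
      rw [abs_div, abs_of_pos h2n, mul_div_cancel₀ _ h2n.ne']
      have ha : (0 : ℝ) ≤ c := Nat.cast_nonneg _
      have hb : (0 : ℝ) ≤ d := Nat.cast_nonneg _
      rw [abs_le]
      constructor <;> linarith
    have h5 : 2 ^ n * dM z ≤ 2 ^ n * (|z.re| + |z.im|) :=
      mul_le_mul_of_nonneg_left (h1.trans h2) h2n.le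
    rw [mul_add] at h5
    linarith
  -- the condition fails at the bound
  have hfail : ¬ CC a b c d n N J (a + b + c + d + 1) := by
    intro hC
    rcases hC x₀ hx₀ y₀ hy₀ with h1 | h1
    · exact hb₀ h1
    · rw [cc_iff hnJ _ _ _ (by omega)] at h1
      push_cast at h1
      linarith
  have hpb : p < a + b + c + d + 1 := by
    have h1 : p ≤ a + b + c + d + 1 := Nat.findGreatest_le _
    rcases h1.lt_or_eq with h2 | h2
    · exact h2
    · exfalso
      apply hfail
      have := Nat.findGreatest_of_ne_zero (P := CC a b c d n N J) (n := a + b + c + d + 1) h2 (by omega)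
      exact this
  have hfail2 : ¬ CC a b c d n N J (p + 1) :=
    Nat.findGreatest_is_greatest (P := CC a b c d n N J) (Nat.lt_succ_self p) (by omega)
  unfold CC at hfail2
  push Not at hfail2
  obtain ⟨x₁, -, y₁, -, hb₁, hd₁⟩ := hfail2
  rw [← not_lt, cc_iff hnJ _ _ _ (by omega)] at hd₁
  push_cast at hd₁
  push Not at hd₁
  have hup := hgood x₁ y₁ hb₁
  have hlow : (p : ℝ) ≤ 2 ^ n * dM z + 5 / 8 := by
    rcases Nat.eq_zero_or_pos p with h0 | h0
    · rw [h0]
      have := dM_nonneg z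
      push_cast
      positivity
    · have hC : CC a b c d n N J p :=
        Nat.findGreatest_of_ne_zero (P := CC a b c d n N J) (n := a + b + c + d + 1) rfl (by omega)
      rcases hC x₀ hx₀ y₀ hy₀ with h1 | h1
      · exact absurd h1 hb₀
      · rw [cc_iff hnJ _ _ _ h0] at h1
        linarith
  rw [abs_le]
  constructor <;> linarith

/-- A computable bound of the escape times gives the computability of `M`. -/
theorem comp_of_time {m : ℕ → ℕ} (hm : Computable m)
    (H : ∀ (k : ℕ) (w : ℂ), 1 / 2 ^ k < dM w → 3 < ‖P (m k) w‖) : CompM := by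
  refine ⟨fun u => (PP u.1 u.2.1 u.2.2.1 u.2.2.2.1 u.2.2.2.2 (m (u.2.2.2.2 + 2)), 0), ?_, ?_⟩
  · have f0 : Primrec fun q : (ℕ × ℕ × ℕ × ℕ × ℕ) × ℕ => q.1 := Primrec.fst
    have f1 := Primrec.snd.comp f0
    have f2 := Primrec.snd.comp f1
    have f3 := Primrec.snd.comp f2
    have hP := pPP (Primrec.fst.comp f0) (Primrec.fst.comp f1) (Primrec.fst.comp f2)
      (Primrec.fst.comp f3) (Primrec.snd.comp f3) (Primrec.snd (α := ℕ × ℕ × ℕ × ℕ × ℕ) (β := ℕ))
    have g5 : Primrec fun u : ℕ × ℕ × ℕ × ℕ × ℕ => u.2.2.2.2 + 2 :=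
      padd (Primrec.snd.comp (Primrec.snd.comp (Primrec.snd.comp Primrec.snd))) (pconst 2)
    have hmc : Computable fun u : ℕ × ℕ × ℕ × ℕ × ℕ => m (u.2.2.2.2 + 2) := hm.comp g5.to_comp
    have h1 := hP.to_comp.comp (Computable.id.pair hmc)
    exact h1.pair (Computable.const 0)
  · intro a b c d n
    have h1 := pp_spec (a := a) (b := b) (c := c) (d := d) (n := n) (N := m (n + 2)) (H (n + 2))
    have h2n : (0 : ℝ) < 2 ^ n := by positivity
    have e : Metric.infDist (Complex.mk (((a : ℝ) - (b : ℝ)) / 2 ^ n) (((c : ℝ) - (d : ℝ)) / 2 ^ n))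
            {w : ℂ | ∀ i : ℕ, ‖(fun z : ℂ => z ^ 2 + w)^[i] 0‖ ≤ 2} = dM (zpt a b c d n) := rfl
    rw [e]
    simp only
    push_cast
    rw [sub_zero]
    have e2 : (PP a b c d n (m (n + 2)) : ℝ) / 2 ^ n - dM (zpt a b c d n)
        = ((PP a b c d n (m (n + 2)) : ℝ) - 2 ^ n * dM (zpt a b c d n)) / 2 ^ n := by
      field_simp
    rw [e2, abs_div, abs_of_pos h2n]
    exact div_le_div_of_nonneg_right h1 h2n.le

theorem comp_of_neck {m : ℕ → ℕ} (hm : Computable m)
    (H : ∀ (k : ℕ) (w : ℂ), 1 / 2 ^ k < dM w → Reach (1 / 2 ^ (m k)) w) : CompM := by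
  have h1 : Computable fun k => NN (m k) := (pNN Primrec.id).to_comp.comp hm
  refine comp_of_time h1 (fun k w hw => ?_)
  have h4 : (1 : ℝ) / 2 ^ (m k) ≤ 1 := by
    rw [div_le_one (by positivity)]; exact one_le_pow₀ (by norm_num)
  exact escape_time (by positivity) h4 (H k w hw) (by
    unfold NN
    push_cast
    rw [one_div, inv_pow, div_inv_eq_mul, ← pow_mul, mul_comm (m k) 2, pow_mul]
    norm_num)

end Pool.MP_500150_lc.H8
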