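import Mathlib
import Pool.Agent.Work.MP_500150_lc.H8.Chain
import Pool.Agent.Work.MP_500150_lc.H8.Neck

set_option autoImplicit false

/-!
# The area of the Mandelbrot set and escape times
-/

namespace Pool.MP_500150_lc.H8

open Metric Set MeasureTheory

/-- The points with `‖z_N‖ ≤ R`. -/
def MN (R : ℝ) (N : ℕ) : Set ℂ := {w : ℂ | ‖P N w‖ ≤ R}

lemma isClosed_MN (R : ℝ) (N : ℕ) : IsClosed (MN R N) := isClosed_le (continuous_P N).norm continuous_const

lemma MM_subset_MN {R : ℝ} (hR : 2 ≤ R) (N : ℕ) : MM ⊆ MN R N :=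
  fun _ hw => ((mem_MM.mp hw) N).trans hR

/-- If the area of `MN 3 N` is near to the area of `M`, then all points at distance more than `r`
escape at time `N + 3`. -/
theorem area_time {N : ℕ} (hN : 1 ≤ N) {r : ℝ} (hr0 : 0 < r)
    (ha : volume (MN 3 N \ MM) < ENNReal.ofReal (Real.pi * (r / 4) ^ 2)) {w : ℂ} (hw : r < dM w)
    {n : ℕ} (hn : N + 3 ≤ n) : 3 < ‖P n w‖ := by
  by_contra hcon
  have hsub : ball w (r / 4) ⊆ MN 3 N \ MM := by
    intro y hy
    rw [mem_ball, dist_eq_norm] at hy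
    constructor
    · by_contra h3
      have h4 : 3 < ‖P N y‖ := not_le.mp h3
      exact hcon (time_of_near hN hw hr0 hy.le h4 hn)
    · apply dM_pos
      have := dM_le_add w y
      rw [norm_sub_rev] at this
      linarith
  have h1 := measure_mono (μ := volume) hsub
  rw [Complex.volume_ball] at h1
  have h2 : ENNReal.ofReal (Real.pi * (r / 4) ^ 2) = ENNReal.ofReal (r / 4) ^ 2 * (NNReal.pi : ENNReal) := by
    rw [mul_comm, ENNReal.ofReal_mul (by positivity), ENNReal.ofReal_pow (by positivity)]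
    congr 1
    rw [← NNReal.coe_real_pi, ENNReal.ofReal_coe_nnreal]
  rw [h2] at ha
  exact absurd (lt_of_le_of_lt h1 ha) (lt_irrefl _)

lemma growth' {c : ℂ} (hc : 3 ≤ ‖c‖) (n : ℕ) : ‖c‖ ≤ ‖P (n + 1) c‖ := by
  induction n with
  | zero => rw [P_one]
  | succ n ih =>
    have h3 : ‖P (n + 1) c‖ ^ 2 - ‖c‖ ≤ ‖P (n + 1 + 1) c‖ := by
      rw [P_succ (n + 1), ← norm_pow]
      have := norm_sub_norm_le (P (n + 1) c ^ 2) (-c)
      rw [norm_neg, sub_neg_eq_add] at this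
      exact this
    nlinarith

lemma norm_le_of_P {N : ℕ} (hN : 1 ≤ N) {w : ℂ} {R : ℝ} (hR : 3 ≤ R) (h : ‖P N w‖ ≤ R) : ‖w‖ ≤ R := by
  by_contra hc
  push Not at hc
  obtain ⟨n, rfl⟩ : ∃ n, N = n + 1 := ⟨N - 1, by omega⟩
  have := growth' (c := w) (by linarith) n
  linarith

/-! ### The cells -/

/-- The cell with lower left corner at the grid point. -/
def cell (J x y : ℕ) : Set ℂ :=
  Complex.measurableEquivRealProd ⁻¹'
    (Ico (((x : ℝ) - 4 * 2 ^ J) / 2 ^ J) (((x : ℝ) + 1 - 4 * 2 ^ J) / 2 ^ J) ×ˢ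
      Ico (((y : ℝ) - 4 * 2 ^ J) / 2 ^ J) (((y : ℝ) + 1 - 4 * 2 ^ J) / 2 ^ J))

lemma mem_cell {J x y : ℕ} {w : ℂ} : w ∈ cell J x y ↔
    ((((x : ℝ) - 4 * 2 ^ J) / 2 ^ J ≤ w.re ∧ w.re < ((x : ℝ) + 1 - 4 * 2 ^ J) / 2 ^ J) ∧
      (((y : ℝ) - 4 * 2 ^ J) / 2 ^ J ≤ w.im ∧ w.im < ((y : ℝ) + 1 - 4 * 2 ^ J) / 2 ^ J)) := by
  unfold cell
  rw [mem_preimage, mem_prod, mem_Ico, mem_Ico]
  rfl

lemma measurableSet_cell (J x y : ℕ) : MeasurableSet (cell J x y) :=
  Complex.measurableEquivRealProd.measurable (measurableSet_Ico.prod measurableSet_Ico)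

lemma volume_cell (J x y : ℕ) : volume (cell J x y) = ENNReal.ofReal (1 / 4 ^ J) := by
  unfold cell
  rw [Complex.volume_preserving_equiv_real_prod.measure_preimage
    (measurableSet_Ico.prod measurableSet_Ico).nullMeasurableSet, Measure.volume_eq_prod,
    Measure.prod_prod, Real.volume_Ico, Real.volume_Ico, ← ENNReal.ofReal_mul]
  · congr 1
    have h4 : (4 : ℝ) ^ J = 2 ^ J * 2 ^ J := by rw [← mul_pow]; norm_num
    rw [h4]
    field_simp
    ring
  · have hJ : (0 : ℝ) < 2 ^ J := by positivity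
    rw [← sub_div]
    apply div_nonneg _ hJ.le
    linarith

lemma cell_near {J x y : ℕ} {w : ℂ} (hw : w ∈ cell J x y) : ‖pt (gq J x y) - w‖ ≤ 2 / 2 ^ J := by
  rw [mem_cell] at hw
  obtain ⟨⟨h1, h2⟩, h3, h4⟩ := hw
  have hJ : (0 : ℝ) < 2 ^ J := by positivity
  refine (Complex.norm_le_abs_re_add_abs_im _).trans ?_
  rw [pt_gq]
  simp only [Complex.sub_re, Complex.sub_im]
  have e : (2 : ℝ) / 2 ^ J = 1 / 2 ^ J + 1 / 2 ^ J := by ring
  have e1 : ∀ t : ℝ, (t + 1 - 4 * 2 ^ J) / 2 ^ J = (t - 4 * 2 ^ J) / 2 ^ J + 1 / 2 ^ J := by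
    intro t; ring
  rw [e1] at h2 h4
  rw [e]
  apply add_le_add <;> rw [abs_le] <;> constructor <;> linarith

lemma exists_cell (J : ℕ) {w : ℂ} (hw : ‖w‖ ≤ 3) :
    ∃ x < 8 * 2 ^ J + 1, ∃ y < 8 * 2 ^ J + 1, w ∈ cell J x y := by
  have hE : (0 : ℝ) < 2 ^ J := by positivity
  have key : ∀ t : ℝ, |t| ≤ 3 → ∃ x < 8 * 2 ^ J + 1, ((x : ℕ) - 4 * 2 ^ J : ℝ) / 2 ^ J ≤ t ∧
      t < ((x : ℕ) + 1 - 4 * 2 ^ J : ℝ) / 2 ^ J := by
    intro t ht
    rw [abs_le] at ht
    have h0 : 0 ≤ (t + 4) * 2 ^ J := mul_nonneg (by linarith) hE.le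
    refine ⟨⌊(t + 4) * 2 ^ J⌋₊, ?_, ?_, ?_⟩
    · rw [Nat.floor_lt h0]
      push_cast
      nlinarith
    · have h1 := Nat.floor_le h0
      rw [div_le_iff₀ hE]
      linarith
    · have h2 := Nat.lt_floor_add_one ((t + 4) * 2 ^ J)
      rw [lt_div_iff₀ hE]
      linarith
  obtain ⟨x, hx, hx2⟩ := key w.re ((Complex.abs_re_le_norm w).trans hw)
  obtain ⟨y, hy, hy2⟩ := key w.im ((Complex.abs_im_le_norm w).trans hw)
  exact ⟨x, hx, y, hy, mem_cell.mpr ⟨hx2, hy2⟩⟩

lemma cell_inj {J x y x' y' : ℕ} {w : ℂ} (h : w ∈ cell J x y) (h' : w ∈ cell J x' y') :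
    x = x' ∧ y = y' := by
  rw [mem_cell] at h h'
  have hE : (0 : ℝ) < 2 ^ J := by positivity
  have key : ∀ (t : ℝ) (u v : ℕ), ((u : ℝ) - 4 * 2 ^ J) / 2 ^ J ≤ t → t < ((v : ℝ) + 1 - 4 * 2 ^ J) / 2 ^ J →
      u ≤ v := by
    intro t u v h1 h2
    have h3 := h1.trans_lt h2
    rw [div_lt_div_iff_of_pos_right hE] at h3
    have h4 : (u : ℝ) < v + 1 := by linarith
    have h5 : u < v + 1 := by exact_mod_cast h4
    omega
  constructor
  · exact le_antisymm (key _ _ _ h.1.1 h'.1.2) (key _ _ _ h'.1.1 h.1.2)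
  · exact le_antisymm (key _ _ _ h.2.1 h'.2.2) (key _ _ _ h'.2.1 h.2.2)

/-! ### The count -/

/-- The set of the indices of the cells which may meet `MN 3 N`. -/
def idx (N k : ℕ) : Finset ℕ :=
  (Finset.range ((8 * 2 ^ (JJ N k) + 1) * (8 * 2 ^ (JJ N k) + 1))).filter
    (fun i => ¬ Big 10 (gq (JJ N k) (i / (8 * 2 ^ (JJ N k) + 1)) (i % (8 * 2 ^ (JJ N k) + 1))) N)

/-- The number of these cells. -/
def cnt (N k : ℕ) : ℕ := (idx N k).card

lemma volume_le_cnt {N : ℕ} (hN : 1 ≤ N) (k : ℕ) :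
    volume (MN 3 N) ≤ ENNReal.ofReal (cnt N k / 4 ^ (JJ N k)) := by
  set J := JJ N k with hJ
  set B := 8 * 2 ^ J + 1 with hB
  have hB0 : 0 < B := by omega
  have hsub : MN 3 N ⊆ ⋃ i ∈ idx N k, cell J (i / B) (i % B) := by
    intro w hw
    have hw3 : ‖w‖ ≤ 3 := norm_le_of_P hN le_rfl hw
    obtain ⟨x, hx, y, hy, hc⟩ := exists_cell J hw3
    rw [mem_iUnion₂]
    have e1 : (x * B + y) / B = x := by
      rw [mul_comm, Nat.mul_add_div hB0, Nat.div_eq_of_lt hy, add_zero]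
    have e2 : (x * B + y) % B = y := by
      rw [mul_comm, Nat.mul_add_mod, Nat.mod_eq_of_lt hy]
    refine ⟨x * B + y, ?_, ?_⟩
    · unfold idx
      rw [← hJ, ← hB, Finset.mem_filter, Finset.mem_range, e1, e2]
      refine ⟨by nlinarith, ?_⟩
      rw [big_iff _ _ (gq_pos _ _ _)]
      have hnear := cell_near hc
      have h8 := prec2 N k
      have h9 : (1 : ℝ) / 2 ^ k ≤ 1 := by
        rw [div_le_one (by positivity)]; exact one_le_pow₀ (by norm_num)
      have hg4 : ‖pt (gq J x y)‖ ≤ 4 := by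
        have h6 : ‖pt (gq J x y)‖ ≤ ‖pt (gq J x y) - w‖ + ‖w‖ := by
          have := norm_add_le (pt (gq J x y) - w) w
          simpa using this
        linarith
      have h7 := lip hg4 (hw3.trans (by norm_num)) N
      have h10 : (9 : ℝ) ^ (2 ^ N) * ‖pt (gq J x y) - w‖ ≤ 1 / 8 :=
        (mul_le_mul_of_nonneg_left hnear (by positivity)).trans (prec N k)
      have h11 : ‖P N (pt (gq J x y))‖ ≤ ‖P N (pt (gq J x y)) - P N w‖ + ‖P N w‖ := by
        have := norm_add_le (P N (pt (gq J x y)) - P N w) (P N w)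
        simpa using this
      have h12 : ‖P N w‖ ≤ 3 := hw
      push_cast
      push Not
      nlinarith [norm_nonneg (P N (pt (gq J x y)))]
    · rw [e1, e2]
      exact hc
  refine (measure_mono hsub).trans ((measure_biUnion_finset_le _ _).trans ?_)
  simp only [volume_cell]
  rw [Finset.sum_const, nsmul_eq_mul]
  unfold cnt
  have e : ENNReal.ofReal (((idx N k).card : ℝ) / 4 ^ J) =
      ((idx N k).card : ENNReal) * ENNReal.ofReal (1 / 4 ^ J) := by
    rw [div_eq_mul_one_div, ENNReal.ofReal_mul (Nat.cast_nonneg _), ENNReal.ofReal_natCast]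
  rw [e]

lemma cnt_le_volume {N : ℕ} (hN : 1 ≤ N) (k : ℕ) :
    ENNReal.ofReal (cnt N k / 4 ^ (JJ N k)) ≤ volume (MN 4 N) := by
  set J := JJ N k with hJ
  set B := 8 * 2 ^ J + 1 with hB
  have hB0 : 0 < B := by omega
  have hsub : (⋃ i ∈ idx N k, cell J (i / B) (i % B)) ⊆ MN 4 N := by
    intro w hw
    rw [mem_iUnion₂] at hw
    obtain ⟨i, hi, hc⟩ := hw
    unfold idx at hi
    rw [← hJ, ← hB, Finset.mem_filter, big_iff _ _ (gq_pos _ _ _)] at hi
    have hi2 := hi.2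
    push_cast at hi2
    push Not at hi2
    set g := pt (gq J (i / B) (i % B))
    have hP : ‖P N g‖ ≤ 3.2 := by
      by_contra h
      push Not at h
      nlinarith
    have hg : ‖g‖ ≤ 3.2 := norm_le_of_P hN (by norm_num) hP
    have hnear := cell_near hc
    have h8 := prec2 N k
    have h9 : (1 : ℝ) / 2 ^ k ≤ 1 := by
      rw [div_le_one (by positivity)]; exact one_le_pow₀ (by norm_num)
    have hw4 : ‖w‖ ≤ 4 := by
      have h6 : ‖w‖ ≤ ‖w - g‖ + ‖g‖ := by
        have := norm_add_le (w - g) g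
        simpa using this
      rw [norm_sub_rev] at h6
      linarith
    have h7 := lip (hg.trans (by norm_num)) hw4 N
    have h10 : (9 : ℝ) ^ (2 ^ N) * ‖g - w‖ ≤ 1 / 8 :=
      (mul_le_mul_of_nonneg_left hnear (by positivity)).trans (prec N k)
    have h11 : ‖P N w‖ ≤ ‖P N g - P N w‖ + ‖P N g‖ := by
      have := norm_add_le (P N w - P N g) (P N g)
      rw [norm_sub_rev] at this
      simpa using this
    show ‖P N w‖ ≤ 4
    linarith
  refine le_trans (le_of_eq ?_) (measure_mono hsub)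
  rw [measure_biUnion_finset]
  · simp only [volume_cell]
    rw [Finset.sum_const, nsmul_eq_mul]
    unfold cnt
    have e : ENNReal.ofReal (((idx N k).card : ℝ) / 4 ^ J) =
        ((idx N k).card : ENNReal) * ENNReal.ofReal (1 / 4 ^ J) := by
      rw [div_eq_mul_one_div, ENNReal.ofReal_mul (Nat.cast_nonneg _), ENNReal.ofReal_natCast]
    rw [e]
  · intro i _ j _ hij
    rw [Function.onFun, Set.disjoint_left]
    intro w hw hw'
    obtain ⟨h1, h2⟩ := cell_inj hw hw'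
    apply hij
    rw [← Nat.div_add_mod i B, ← Nat.div_add_mod j B, h1, h2]
  · intro i _
    exact measurableSet_cell _ _ _

/-- The areas converge. -/
lemma tendsto_area : Filter.Tendsto (fun N : ℕ => volume (MN 4 (N + 1))) Filter.atTop
    (nhds (volume MM)) := by
  have hanti : Antitone (fun N : ℕ => MN 4 (N + 1)) := by
    apply antitone_nat_of_succ_le
    intro N w hw
    have hw2 : ‖P (N + 1 + 1) w‖ ≤ 4 := hw
    have hw4 : ‖w‖ ≤ 4 := norm_le_of_P (by omega) (by norm_num) hw2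
    by_contra h
    have h2 : 4 < ‖P (N + 1) w‖ := not_le.mp h
    have h3 : Esc (N + 1) w := max_lt (by linarith) (by linarith)
    have h4 : ‖P (N + 1) w‖ ^ 2 - ‖w‖ ≤ ‖P (N + 1 + 1) w‖ := by
      rw [P_succ (N + 1), ← norm_pow]
      have := norm_sub_norm_le (P (N + 1) w ^ 2) (-w)
      rw [norm_neg, sub_neg_eq_add] at this
      exact this
    nlinarith
  have hint : ⋂ N : ℕ, MN 4 (N + 1) = MM := by
    apply subset_antisymm
    · intro w hw
      rw [mem_iInter] at hw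
      by_contra hc
      obtain ⟨N, hN⟩ := esc_large (K := {w}) isCompact_singleton
        (fun c hc' => by rw [mem_singleton_iff] at hc'; rw [hc']; exact hc) 4
      have h1 := hN (N + 1) (by omega) w (mem_singleton w)
      have h2 : ‖P (N + 1) w‖ ≤ 4 := hw N
      linarith
    · intro w hw
      rw [mem_iInter]
      intro N
      exact MM_subset_MN (by norm_num) (N + 1) hw
  rw [← hint]
  apply tendsto_measure_iInter_atTop
  · intro N
    exact (isClosed_MN 4 (N + 1)).measurableSet.nullMeasurableSet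
  · exact hanti
  · refine ⟨0, ?_⟩
    have h1 : MN 4 (0 + 1) ⊆ closedBall (0 : ℂ) 4 := by
      intro w hw
      rw [mem_closedBall_zero_iff]
      exact norm_le_of_P (by omega) (by norm_num) hw
    exact ((measure_mono h1).trans_lt measure_closedBall_lt_top).ne

/-- The area. -/
noncomputable def areaM : ℝ := (volume MM).toReal

lemma volume_MM_ne : volume MM ≠ ⊤ := by
  have h1 : MM ⊆ closedBall (0 : ℂ) 2 := by
    intro w hw
    rw [mem_closedBall_zero_iff]
    exact norm_le_of_mem hw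
  exact ((measure_mono h1).trans_lt measure_closedBall_lt_top).ne

/-- The search condition. -/
def scond (k s N : ℕ) : Prop := cnt (N + 1) k * 4 ^ (k + 2) ≤ (s + 2) * 4 ^ (JJ (N + 1) k)

lemma exists_scond {k s : ℕ} (hs : |(s : ℝ) / 4 ^ (k + 2) - areaM| ≤ 1 / 4 ^ (k + 2)) :
    ∃ N, scond k s N := by
  have h4 : (0 : ℝ) < 4 ^ (k + 2) := by positivity
  rw [abs_le] at hs
  have h1 : areaM < ((s : ℝ) + 2) / 4 ^ (k + 2) := by
    have e : ((s : ℝ) + 2) / 4 ^ (k + 2) = (s : ℝ) / 4 ^ (k + 2) + 2 * (1 / 4 ^ (k + 2)) := by ring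
    have : (0 : ℝ) < 1 / 4 ^ (k + 2) := by positivity
    rw [e]
    linarith
  have h2 : volume MM < ENNReal.ofReal (((s : ℝ) + 2) / 4 ^ (k + 2)) := by
    rw [← ENNReal.ofReal_toReal volume_MM_ne]
    apply (ENNReal.ofReal_lt_ofReal_iff (by positivity)).mpr h1
  obtain ⟨N, hN⟩ := (tendsto_area.eventually_lt_const h2).exists
  refine ⟨N, ?_⟩
  have h3 := (cnt_le_volume (N := N + 1) (by omega) k).trans_lt hN
  rw [ENNReal.ofReal_lt_ofReal_iff (by positivity), div_lt_div_iff₀ (by positivity) h4] at h3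
  unfold scond
  exact_mod_cast h3.le

lemma time_of_scond {k s N : ℕ} (hs : |(s : ℝ) / 4 ^ (k + 2) - areaM| ≤ 1 / 4 ^ (k + 2))
    (hN : scond k s N) {w : ℂ} (hw : 1 / 2 ^ k < dM w) : 3 < ‖P (N + 4) w‖ := by
  have h4 : (0 : ℝ) < 4 ^ (k + 2) := by positivity
  rw [abs_le] at hs
  have h1 : (cnt (N + 1) k : ℝ) / 4 ^ (JJ (N + 1) k) ≤ ((s : ℝ) + 2) / 4 ^ (k + 2) := by
    rw [div_le_div_iff₀ (by positivity) h4]
    unfold scond at hN
    exact_mod_cast hN
  have h2 : (cnt (N + 1) k : ℝ) / 4 ^ (JJ (N + 1) k) ≤ areaM + 3 * (1 / 4 ^ (k + 2)) := by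
    have e : ((s : ℝ) + 2) / 4 ^ (k + 2) = (s : ℝ) / 4 ^ (k + 2) + 2 * (1 / 4 ^ (k + 2)) := by ring
    rw [e] at h1
    linarith
  have h3 : volume (MN 3 (N + 1)) ≤ volume MM + ENNReal.ofReal (3 * (1 / 4 ^ (k + 2))) := by
    refine (volume_le_cnt (by omega) k).trans ?_
    rw [← ENNReal.ofReal_toReal volume_MM_ne, ← ENNReal.ofReal_add ENNReal.toReal_nonneg (by positivity)]
    exact ENNReal.ofReal_le_ofReal h2
  have h5 : volume (MN 3 (N + 1) \ MM) ≤ ENNReal.ofReal (3 * (1 / 4 ^ (k + 2))) := by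
    rw [measure_sdiff (MM_subset_MN (by norm_num) _) isClosed_MM.measurableSet.nullMeasurableSet volume_MM_ne]
    exact tsub_le_iff_left.mpr h3
  have h6 : (3 : ℝ) * (1 / 4 ^ (k + 2)) < Real.pi * ((1 / 2 ^ k) / 4) ^ 2 := by
    have e1 : (4 : ℝ) ^ (k + 2) = 2 ^ k * 2 ^ k * 16 := by
      rw [pow_add, ← mul_pow]; norm_num
    rw [e1]
    have e2 : Real.pi * ((1 / 2 ^ k) / 4) ^ 2 = Real.pi * (1 / (2 ^ k * 2 ^ k * 16)) := by
      field_simp
      norm_num
    rw [e2]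
    apply mul_lt_mul_of_pos_right _ (by positivity)
    exact Real.pi_gt_three
  apply area_time (N := N + 1) (by omega) (r := 1 / 2 ^ k) (by positivity) _ hw (by omega)
  exact h5.trans_lt ((ENNReal.ofReal_lt_ofReal_iff (by positivity)).mpr h6)

end Pool.MP_500150_lc.H8
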