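import Mathlib
import Pool.Agent.Work.MP_500150_lc.H8.Area

set_option autoImplicit false

/-!
# Computing the Mandelbrot set from its area
-/

namespace Pool.MP_500150_lc.H8

/-- The indicator. -/
def ind (N k i : ℕ) : ℕ :=
  if Big 10 (gq (JJ N k) (i / (8 * 2 ^ (JJ N k) + 1)) (i % (8 * 2 ^ (JJ N k) + 1))) N then 0 else 1

/-- The partial count. -/
def cntR (N k n : ℕ) : ℕ := Nat.rec 0 (fun i acc => acc + ind N k i) n

lemma cntR_eq (N k n : ℕ) : cntR N k n = ((Finset.range n).filter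
    (fun i => ¬ Big 10 (gq (JJ N k) (i / (8 * 2 ^ (JJ N k) + 1)) (i % (8 * 2 ^ (JJ N k) + 1))) N)).card := by
  induction n with
  | zero => rfl
  | succ n ih =>
    have e : cntR N k (n + 1) = cntR N k n + ind N k n := rfl
    rw [e, ih, Finset.range_add_one, Finset.filter_insert]
    unfold ind
    by_cases h : Big 10 (gq (JJ N k) (n / (8 * 2 ^ (JJ N k) + 1)) (n % (8 * 2 ^ (JJ N k) + 1))) N
    · rw [if_pos h, if_neg (not_not.mpr h), add_zero]
    · rw [if_neg h, if_pos h, Finset.card_insert_of_notMem]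
      simp

lemma cnt_eq (N k : ℕ) : cnt N k =
    cntR N k ((8 * 2 ^ (JJ N k) + 1) * (8 * 2 ^ (JJ N k) + 1)) := by
  rw [cntR_eq]
  rfl

section prim

variable {α : Type*} [Primcodable α]

lemma pind_aux {N J x y : α → ℕ} (hN : Primrec N) (hJ : Primrec J) (hx : Primrec x)
    (hy : Primrec y) :
    Primrec fun u => if Big 10 (gq (J u) (x u) (y u)) (N u) then 0 else 1 :=
  Primrec.ite (pbig 10 (pgq hJ hx hy) hN) (pconst 0) (pconst 1)

lemma pind {N k i : α → ℕ} (hN : Primrec N) (hk : Primrec k) (hi : Primrec i) :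
    Primrec fun u => ind (N u) (k u) (i u) := by
  have hJ : Primrec fun u => JJ (N u) (k u) := pJJ hN hk
  have hB : Primrec fun u => 8 * 2 ^ JJ (N u) (k u) + 1 :=
    padd (pmul (pconst 8) (ppow (pconst 2) hJ)) (pconst 1)
  exact pind_aux hN hJ (Primrec.nat_div.comp hi hB) (Primrec.nat_mod.comp hi hB)

lemma psum {t : α → ℕ → ℕ} (ht : Primrec fun p : α × ℕ => t p.1 p.2) {n : α → ℕ}
    (hn : Primrec n) :
    Primrec fun a => (Nat.rec 0 (fun i acc => acc + t a i) (n a) : ℕ) := by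
  have e1 : Primrec fun p : α × (ℕ × ℕ) => p.2.2 := Primrec.snd.comp Primrec.snd
  have e2 : Primrec fun p : α × (ℕ × ℕ) => (p.1, p.2.1) :=
    Primrec.fst.pair (Primrec.fst.comp Primrec.snd)
  have e3 : Primrec fun p : α × (ℕ × ℕ) => t p.1 p.2.1 := ht.comp e2
  have gstep : Primrec₂ fun (a : α) (q : ℕ × ℕ) => q.2 + t a q.1 := padd e1 e3
  exact Primrec.nat_rec' hn (pconst 0) gstep

lemma pcnt {N k : α → ℕ} (hN : Primrec N) (hk : Primrec k) :
    Primrec fun u => cnt (N u) (k u) := by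
  have f1 : Primrec fun p : α × ℕ => p.1 := Primrec.fst
  have ht : Primrec fun p : α × ℕ => ind (N p.1) (k p.1) p.2 :=
    pind (hN.comp f1) (hk.comp f1) Primrec.snd
  have hJ : Primrec fun u => JJ (N u) (k u) := pJJ hN hk
  have hB : Primrec fun u => 8 * 2 ^ JJ (N u) (k u) + 1 :=
    padd (pmul (pconst 8) (ppow (pconst 2) hJ)) (pconst 1)
  have h := psum (t := fun u i => ind (N u) (k u) i) ht (pmul hB hB)
  exact h.of_eq (fun u => (cnt_eq (N u) (k u)).symm)

end prim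

/-- The search condition, as a Boolean. -/
def sb (k s N : ℕ) : Bool := decide (cnt (N + 1) k * 4 ^ (k + 2) ≤ (s + 2) * 4 ^ (JJ (N + 1) k))

lemma sb_iff (k s N : ℕ) : sb k s N = true ↔ scond k s N := by
  unfold sb scond
  exact decide_eq_true_iff

lemma sb_comp : Computable fun u : (ℕ × ℕ) × ℕ => sb u.1.1 u.1.2 u.2 := by
  have hk : Primrec fun u : (ℕ × ℕ) × ℕ => u.1.1 := Primrec.fst.comp Primrec.fst
  have hs : Primrec fun u : (ℕ × ℕ) × ℕ => u.1.2 := Primrec.snd.comp Primrec.fst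
  have hN1 : Primrec fun u : (ℕ × ℕ) × ℕ => u.2 + 1 := padd Primrec.snd (pconst 1)
  have h1 : PrimrecPred fun u : (ℕ × ℕ) × ℕ =>
      cnt (u.2 + 1) u.1.1 * 4 ^ (u.1.1 + 2) ≤ (u.1.2 + 2) * 4 ^ (JJ (u.2 + 1) u.1.1) :=
    Primrec.nat_le.comp
      (pmul (pcnt hN1 hk) (ppow (pconst 4) (padd hk (pconst 2))))
      (pmul (padd hs (pconst 2)) (ppow (pconst 4) (pJJ hN1 hk)))
  exact h1.decide.to_comp

attribute [irreducible] sb

/-- The search. -/
lemma search_partrec : Partrec fun u : ℕ × ℕ =>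
    Nat.rfind fun N => (Part.some (sb u.1 u.2 N) : Part Bool) := by
  have h1 : Partrec₂ fun (u : ℕ × ℕ) (N : ℕ) => (Part.some (sb u.1 u.2 N) : Part Bool) := by
    have h2 : Computable₂ fun (u : ℕ × ℕ) (N : ℕ) => sb u.1 u.2 N := sb_comp
    exact h2.partrec₂
  exact Partrec.rfind h1

lemma search_comp {α : Type*} [Primcodable α] {f : α → ℕ × ℕ} (hf : Computable f) :
    Partrec fun u : α => Nat.rfind fun N => (Part.some (sb (f u).1 (f u).2 N) : Part Bool) :=
  search_partrec.comp hf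

/-- `d_M` with error `2^{-n}` is computed from `2 n + 8` binary digits of the area of `M`. -/
theorem area_alg : ∃ F : ℕ × ℕ × ℕ × ℕ × ℕ × ℕ →. ℕ, Partrec F ∧
    ∀ a b c d n s : ℕ, |(s : ℝ) / 4 ^ (n + 4) - areaM| ≤ 1 / 4 ^ (n + 4) →
      ∃ p ∈ F (a, b, c, d, n, s), |(p : ℝ) / 2 ^ n - dM (zpt a b c d n)| ≤ 1 / 2 ^ n := by
  refine ⟨fun u => (Nat.rfind fun N => (Part.some (sb (u.2.2.2.2.1 + 2) u.2.2.2.2.2 N) :
      Part Bool)).map (fun N => PP u.1 u.2.1 u.2.2.1 u.2.2.2.1 u.2.2.2.2.1 (N + 4)), ?_, ?_⟩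
  · have h1 : Primrec fun u : ℕ × ℕ × ℕ × ℕ × ℕ × ℕ => u.2 := Primrec.snd
    have h2 := Primrec.snd.comp h1
    have h3 := Primrec.snd.comp h2
    have h4 := Primrec.snd.comp h3
    have h5 : Primrec fun u : ℕ × ℕ × ℕ × ℕ × ℕ × ℕ => u.2.2.2.2.2 := Primrec.snd.comp h4
    have h6 : Primrec fun u : ℕ × ℕ × ℕ × ℕ × ℕ × ℕ => u.2.2.2.2.1 := Primrec.fst.comp h4
    have h7 : Computable fun u : ℕ × ℕ × ℕ × ℕ × ℕ × ℕ => (u.2.2.2.2.1 + 2, u.2.2.2.2.2) :=
      ((padd h6 (pconst 2)).pair h5).to_comp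
    have h8 := search_comp h7
    have f0 : Primrec fun q : (ℕ × ℕ × ℕ × ℕ × ℕ × ℕ) × ℕ => q.1 := Primrec.fst
    have hN : Primrec fun q : (ℕ × ℕ × ℕ × ℕ × ℕ × ℕ) × ℕ => q.2 + 4 := padd Primrec.snd (pconst 4)
    have g1 : Primrec fun q : (ℕ × ℕ × ℕ × ℕ × ℕ × ℕ) × ℕ => q.1.1 := Primrec.fst.comp f0
    have g2 : Primrec fun q : (ℕ × ℕ × ℕ × ℕ × ℕ × ℕ) × ℕ => q.1.2 := Primrec.snd.comp f0
    have g21 := Primrec.fst.comp g2
    have g22 := Primrec.snd.comp g2
    have g31 := Primrec.fst.comp g22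
    have g32 := Primrec.snd.comp g22
    have g41 := Primrec.fst.comp g32
    have g42 := Primrec.snd.comp g32
    have g51 := Primrec.fst.comp g42
    have hP : Computable₂ fun (u : ℕ × ℕ × ℕ × ℕ × ℕ × ℕ) (N : ℕ) =>
        PP u.1 u.2.1 u.2.2.1 u.2.2.2.1 u.2.2.2.2.1 (N + 4) :=
      (pPP g1 g21 g31 g41 g51 hN).to_comp
    exact h8.map hP
  · intro a b c d n s hs
    have hs' : |(s : ℝ) / 4 ^ ((n + 2) + 2) - areaM| ≤ 1 / 4 ^ ((n + 2) + 2) := hs
    have hex : ∃ N, sb (n + 2) s N = true := by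
      obtain ⟨N, hN⟩ := exists_scond hs'
      exact ⟨N, (sb_iff _ _ _).mpr hN⟩
    refine ⟨PP a b c d n (Nat.find hex + 4), ?_, ?_⟩
    · rw [Part.mem_map_iff]
      refine ⟨Nat.find hex, ?_, rfl⟩
      refine Nat.mem_rfind.mpr ⟨?_, ?_⟩
      · have := Nat.find_spec hex
        simp only [Part.mem_some_iff]
        exact this.symm
      · intro N hN
        have := Nat.find_min hex hN
        simp only [Part.mem_some_iff]
        simpa using this
    · have h1 := pp_spec (a := a) (b := b) (c := c) (d := d) (n := n) (N := Nat.find hex + 4)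
        (fun w hw => time_of_scond hs' ((sb_iff _ _ _).mp (Nat.find_spec hex)) hw)
      have h2n : (0 : ℝ) < 2 ^ n := by positivity
      have e2 : (PP a b c d n (Nat.find hex + 4) : ℝ) / 2 ^ n - dM (zpt a b c d n)
          = ((PP a b c d n (Nat.find hex + 4) : ℝ) - 2 ^ n * dM (zpt a b c d n)) / 2 ^ n := by
        field_simp
      rw [e2, abs_div, abs_of_pos h2n]
      exact div_le_div_of_nonneg_right h1 h2n.le

/-- If the area of `M` is a computable real number, then `M` is computable. -/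
theorem comp_of_area {g : ℕ → ℕ} (hg : Computable g)
    (hga : ∀ n, |(g n : ℝ) / 2 ^ n - areaM| ≤ 1 / 2 ^ n) : CompM := by
  have hs : ∀ k : ℕ, |(g (2 * (k + 2)) : ℝ) / 4 ^ (k + 2) - areaM| ≤ 1 / 4 ^ (k + 2) := by
    intro k
    have h1 := hga (2 * (k + 2))
    have e : (2 : ℝ) ^ (2 * (k + 2)) = 4 ^ (k + 2) := by rw [pow_mul]; norm_num
    rwa [e] at h1
  have hex : ∀ k, ∃ N, sb k (g (2 * (k + 2))) N = true := by
    intro k
    obtain ⟨N, hN⟩ := exists_scond (hs k)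
    exact ⟨N, (sb_iff _ _ _).mpr hN⟩
  set m : ℕ → ℕ := fun k => Nat.find (hex k) with hm
  have hmc : Computable m := by
    have h0 : Computable fun k : ℕ => (k, g (2 * (k + 2))) :=
      Computable.id.pair (hg.comp (pmul (pconst 2) (padd Primrec.id (pconst 2))).to_comp)
    have h3 := search_comp h0
    refine h3.of_eq (fun k => ?_)
    rw [PFun.coe_val, Part.eq_some_iff]
    refine Nat.mem_rfind.mpr ⟨?_, ?_⟩
    · have := Nat.find_spec (hex k)
      simp only [Part.mem_some_iff]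
      exact this.symm
    · intro N hN
      have := Nat.find_min (hex k) hN
      simp only [Part.mem_some_iff]
      simpa using this
  have h4 : Computable fun k => m k + 4 :=
    (padd (α := ℕ) Primrec.id (pconst 4)).to_comp.comp hmc
  exact comp_of_time h4 (fun k w hw =>
    time_of_scond (hs k) ((sb_iff _ _ _).mp (Nat.find_spec (hex k))) hw)

end Pool.MP_500150_lc.H8
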