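import Mathlib
import Pool.Agent.Work.MP_500150_lc.H8.Neck

set_option autoImplicit false

/-!
# The computability of `M` gives a bound for the widths of the necks
-/

namespace Pool.MP_500150_lc.H8

open Metric Set

/-- The check at one grid point. -/
def tst (f : ℕ × ℕ × ℕ × ℕ × ℕ → ℕ × ℕ) (N k i : ℕ) : Bool :=
  decide (Big 16 (gq (JJ N k) (i / (8 * 2 ^ (JJ N k) + 1)) (i % (8 * 2 ^ (JJ N k) + 1))) N) ||
  decide (4 * 2 ^ k * (f (i / (8 * 2 ^ (JJ N k) + 1), 4 * 2 ^ (JJ N k),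
      i % (8 * 2 ^ (JJ N k) + 1), 4 * 2 ^ (JJ N k), JJ N k)).1 ≤
    3 * 2 ^ (JJ N k) + 4 * 2 ^ k * (f (i / (8 * 2 ^ (JJ N k) + 1), 4 * 2 ^ (JJ N k),
      i % (8 * 2 ^ (JJ N k) + 1), 4 * 2 ^ (JJ N k), JJ N k)).2)

/-- The check at all grid points. -/
def chk (f : ℕ × ℕ × ℕ × ℕ × ℕ → ℕ × ℕ) (N k : ℕ) : Bool :=
  Nat.rec true (fun i acc => acc && tst f N k i) ((8 * 2 ^ (JJ N k) + 1) * (8 * 2 ^ (JJ N k) + 1))

lemma chk_iff (f : ℕ × ℕ × ℕ × ℕ × ℕ → ℕ × ℕ) (N k : ℕ) : chk f N k = true ↔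
    ∀ x < 8 * 2 ^ (JJ N k) + 1, ∀ y < 8 * 2 ^ (JJ N k) + 1,
      Big 16 (gq (JJ N k) x y) N ∨
      4 * 2 ^ k * (f (x, 4 * 2 ^ (JJ N k), y, 4 * 2 ^ (JJ N k), JJ N k)).1 ≤
        3 * 2 ^ (JJ N k) + 4 * 2 ^ k * (f (x, 4 * 2 ^ (JJ N k), y, 4 * 2 ^ (JJ N k), JJ N k)).2 := by
  have h1 : ∀ n : ℕ, (Nat.rec true (fun i acc => acc && tst f N k i) n : Bool) = true ↔
      ∀ i < n, tst f N k i = true := by
    intro n
    induction n with
    | zero => simp
    | succ n ih =>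
      simp only [Bool.and_eq_true]
      rw [ih]
      constructor
      · rintro ⟨h, h'⟩ i hi
        rcases Nat.lt_succ_iff_lt_or_eq.mp hi with h2 | h2
        · exact h i h2
        · rw [h2]; exact h'
      · intro h
        exact ⟨fun i hi => h i (by omega), h n (by omega)⟩
  unfold chk
  rw [h1]
  set B := 8 * 2 ^ (JJ N k) + 1 with hB
  have hB0 : 0 < B := by omega
  constructor
  · intro h x hx y hy
    have h2 := h (x * B + y) (by nlinarith)
    have e1 : (x * B + y) / B = x := by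
      rw [mul_comm, Nat.mul_add_div hB0, Nat.div_eq_of_lt hy, add_zero]
    have e2 : (x * B + y) % B = y := by
      rw [mul_comm, Nat.mul_add_mod, Nat.mod_eq_of_lt hy]
    unfold tst at h2
    rw [← hB, e1, e2] at h2
    simpa using h2
  · intro h i hi
    have h2 := h (i / B) (Nat.div_lt_of_lt_mul hi) (i % B) (Nat.mod_lt _ hB0)
    unfold tst
    rw [← hB]
    simpa using h2

section comp

variable {α : Type*} [Primcodable α]

lemma cadd {f g : α → ℕ} (hf : Computable f) (hg : Computable g) : Computable fun a => f a + g a :=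
  Primrec.nat_add.to_comp.comp hf hg

lemma cmul {f g : α → ℕ} (hf : Computable f) (hg : Computable g) : Computable fun a => f a * g a :=
  Primrec.nat_mul.to_comp.comp hf hg

lemma cle {f g : α → ℕ} (hf : Computable f) (hg : Computable g) :
    Computable fun a => decide (f a ≤ g a) := by
  have h : Computable₂ fun (x y : ℕ) => decide (x ≤ y) := Primrec.nat_le.decide.to_comp
  exact h.comp hf hg

lemma cor {f g : α → Bool} (hf : Computable f) (hg : Computable g) :
    Computable fun a => (f a || g a) := by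
  have h : Computable₂ fun (x y : Bool) => (x || y) := Primrec.or.to_comp
  exact h.comp hf hg

lemma cand {f g : α → Bool} (hf : Computable f) (hg : Computable g) :
    Computable fun a => (f a && g a) := by
  have h : Computable₂ fun (x y : Bool) => (x && y) := Primrec.and.to_comp
  exact h.comp hf hg

lemma ctst_aux {f : ℕ × ℕ × ℕ × ℕ × ℕ → ℕ × ℕ} (hf : Computable f) {N k J x y : α → ℕ}
    (hN : Primrec N) (hk : Primrec k) (hJ : Primrec J) (hx : Primrec x) (hy : Primrec y) :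
    Computable fun u => (decide (Big 16 (gq (J u) (x u) (y u)) (N u)) ||
      decide (4 * 2 ^ k u * (f (x u, 4 * 2 ^ J u, y u, 4 * 2 ^ J u, J u)).1 ≤
        3 * 2 ^ J u + 4 * 2 ^ k u * (f (x u, 4 * 2 ^ J u, y u, 4 * 2 ^ J u, J u)).2)) := by
  have h2 : Primrec fun u => 2 ^ J u := ppow (pconst 2) hJ
  have h4 : Primrec fun u => 4 * 2 ^ J u := pmul (pconst 4) h2
  have h4k : Primrec fun u => 4 * 2 ^ k u := pmul (pconst 4) (ppow (pconst 2) hk)
  have hin : Primrec fun u => (x u, 4 * 2 ^ J u, y u, 4 * 2 ^ J u, J u) :=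
    hx.pair (h4.pair (hy.pair (h4.pair hJ)))
  have gf : Computable fun u => f (x u, 4 * 2 ^ J u, y u, 4 * 2 ^ J u, J u) := hf.comp hin.to_comp
  have g1 : Computable fun u => (f (x u, 4 * 2 ^ J u, y u, 4 * 2 ^ J u, J u)).1 :=
    Computable.fst.comp gf
  have g2 : Computable fun u => (f (x u, 4 * 2 ^ J u, y u, 4 * 2 ^ J u, J u)).2 :=
    Computable.snd.comp gf
  have gb : Computable fun u => decide (Big 16 (gq (J u) (x u) (y u)) (N u)) :=
    (pbig 16 (pgq hJ hx hy) hN).decide.to_comp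
  exact cor gb (cle (cmul h4k.to_comp g1) (cadd (pmul (pconst 3) h2).to_comp (cmul h4k.to_comp g2)))

lemma ctst {f : ℕ × ℕ × ℕ × ℕ × ℕ → ℕ × ℕ} (hf : Computable f) {N k i : α → ℕ}
    (hN : Primrec N) (hk : Primrec k) (hi : Primrec i) :
    Computable fun u => tst f (N u) (k u) (i u) := by
  have hJ : Primrec fun u => JJ (N u) (k u) := pJJ hN hk
  have hB : Primrec fun u => 8 * 2 ^ JJ (N u) (k u) + 1 :=
    padd (pmul (pconst 8) (ppow (pconst 2) hJ)) (pconst 1)
  have hx : Primrec fun u => i u / (8 * 2 ^ JJ (N u) (k u) + 1) := Primrec.nat_div.comp hi hB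
  have hy : Primrec fun u => i u % (8 * 2 ^ JJ (N u) (k u) + 1) := Primrec.nat_mod.comp hi hB
  exact ctst_aux hf hN hk hJ hx hy

lemma crec {t : α → ℕ → Bool} (ht : Computable fun p : α × ℕ => t p.1 p.2) {n : α → ℕ}
    (hn : Computable n) :
    Computable fun a => (Nat.rec true (fun i acc => acc && t a i) (n a) : Bool) := by
  have e1 : Computable fun p : α × (ℕ × Bool) => p.2.2 := Computable.snd.comp Computable.snd
  have e2 : Computable fun p : α × (ℕ × Bool) => (p.1, p.2.1) :=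
    Computable.fst.pair (Computable.fst.comp Computable.snd)
  have e3 : Computable fun p : α × (ℕ × Bool) => t p.1 p.2.1 := ht.comp e2
  have gstep : Computable₂ fun (a : α) (q : ℕ × Bool) => (q.2 && t a q.1) := cand e1 e3
  exact Computable.nat_rec hn (Computable.const true) gstep

lemma comp_chk {f : ℕ × ℕ × ℕ × ℕ × ℕ → ℕ × ℕ} (hf : Computable f) {N k : α → ℕ}
    (hN : Primrec N) (hk : Primrec k) :
    Computable fun u : α => chk f (N u) (k u) := by
  have f1 : Primrec fun p : α × ℕ => p.1 := Primrec.fst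
  have ht : Computable fun p : α × ℕ => tst f (N p.1) (k p.1) p.2 :=
    ctst hf (hN.comp f1) (hk.comp f1) Primrec.snd
  have hJ : Primrec fun u => JJ (N u) (k u) := pJJ hN hk
  have hB : Primrec fun u => 8 * 2 ^ JJ (N u) (k u) + 1 :=
    padd (pmul (pconst 8) (ppow (pconst 2) hJ)) (pconst 1)
  exact crec (t := fun u i => tst f (N u) (k u) i) ht (pmul hB hB).to_comp

end comp

attribute [irreducible] chk

/-- The check is passed eventually. -/
lemma chk_eventually {f : ℕ × ℕ × ℕ × ℕ × ℕ → ℕ × ℕ}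
    (hf : ∀ a b c d n : ℕ, |(((f (a, b, c, d, n)).1 : ℝ) - ((f (a, b, c, d, n)).2 : ℝ)) / 2 ^ n -
      dM (zpt a b c d n)| ≤ 1 / 2 ^ n) (k : ℕ) : ∃ N, chk f N k = true := by
  set K : Set ℂ := {w : ℂ | ‖w‖ ≤ 8 ∧ 1 / 2 ^ k / 2 ≤ dM w} with hK
  have hKc : IsCompact K := by
    have h1 : IsClosed K := by
      apply IsClosed.inter
      · exact isClosed_le continuous_norm continuous_const
      · exact isClosed_le continuous_const continuous_dM
    apply (isCompact_closedBall (0 : ℂ) 8).of_isClosed_subset h1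
    intro z hz
    rw [mem_closedBall_zero_iff]
    exact hz.1
  obtain ⟨N, hN⟩ := esc_large hKc (fun z hz => dM_pos (lt_of_lt_of_le (by positivity) hz.2)) 4
  refine ⟨N, ?_⟩
  rw [chk_iff]
  intro x hx y hy
  set J := JJ N k with hJ
  have hJ0 : (0 : ℝ) < 2 ^ J := by positivity
  have hz : zpt x (4 * 2 ^ J) y (4 * 2 ^ J) J = pt (gq J x y) := by
    rw [pt_gq]
    unfold zpt
    push_cast
    rfl
  have h1 := hf x (4 * 2 ^ J) y (4 * 2 ^ J) J
  rw [hz] at h1
  by_cases h2 : 4 * 2 ^ k * (f (x, 4 * 2 ^ J, y, 4 * 2 ^ J, J)).1 ≤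
        3 * 2 ^ J + 4 * 2 ^ k * (f (x, 4 * 2 ^ J, y, 4 * 2 ^ J, J)).2
  · exact Or.inr h2
  · left
    push Not at h2
    have h3 : (3 * 2 ^ J + 4 * 2 ^ k * ((f (x, 4 * 2 ^ J, y, 4 * 2 ^ J, J)).2 : ℝ))
        < 4 * 2 ^ k * ((f (x, 4 * 2 ^ J, y, 4 * 2 ^ J, J)).1 : ℝ) := by exact_mod_cast h2
    set v1 : ℝ := ((f (x, 4 * 2 ^ J, y, 4 * 2 ^ J, J)).1 : ℝ)
    set v2 : ℝ := ((f (x, 4 * 2 ^ J, y, 4 * 2 ^ J, J)).2 : ℝ)
    have hk0 : (0 : ℝ) < 2 ^ k := by positivity
    have h4 : 3 / 4 * (1 / 2 ^ k) < (v1 - v2) / 2 ^ J := by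
      rw [lt_div_iff₀ hJ0, mul_one_div, div_mul_eq_mul_div, div_lt_iff₀ hk0]
      nlinarith
    have h5 : (1 : ℝ) / 2 ^ J ≤ 1 / 2 ^ k / 16 := by
      have := prec2 N k
      rw [← hJ] at this
      have e : (2 : ℝ) / 2 ^ J = 2 * (1 / 2 ^ J) := by ring
      rw [e] at this
      linarith
    rw [abs_le] at h1
    have hdm : (1 : ℝ) / 2 ^ k / 2 ≤ dM (pt (gq J x y)) := by
      have : (0 : ℝ) < 1 / 2 ^ k := by positivity
      linarith [h1.2]
    have hnorm : ‖pt (gq J x y)‖ ≤ 8 := by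
      refine (Complex.norm_le_abs_re_add_abs_im _).trans ?_
      rw [pt_gq]
      simp only
      have key : ∀ t : ℕ, t < 8 * 2 ^ J + 1 → |((t : ℝ) - 4 * 2 ^ J) / 2 ^ J| ≤ 4 := by
        intro t ht
        have ht' : (t : ℝ) ≤ 8 * 2 ^ J := by
          have : t ≤ 8 * 2 ^ J := by omega
          exact_mod_cast this
        have ht0 : (0 : ℝ) ≤ t := Nat.cast_nonneg _
        rw [abs_div, abs_of_pos hJ0, div_le_iff₀ hJ0, abs_le]
        constructor <;> linarith
      have := key x hx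
      have := key y hy
      linarith
    have h6 := hN N le_rfl (pt (gq J x y)) ⟨hnorm, hdm⟩
    rw [big_iff _ _ (gq_pos _ _ _)]
    push_cast
    nlinarith

/-- If the check is passed, then all points at distance more than `2^(-k)` are reached. -/
lemma reach_of_chk {f : ℕ × ℕ × ℕ × ℕ × ℕ → ℕ × ℕ}
    (hf : ∀ a b c d n : ℕ, |(((f (a, b, c, d, n)).1 : ℝ) - ((f (a, b, c, d, n)).2 : ℝ)) / 2 ^ n -
      dM (zpt a b c d n)| ≤ 1 / 2 ^ n) {N k : ℕ} (hc : chk f N k = true) {w : ℂ}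
    (hw : 1 / 2 ^ k < dM w) : Reach (1 / 2 ^ (4 * 2 ^ N + k + 1)) w := by
  rcases le_total 3 ‖w‖ with h3 | h3
  · apply reach_of_norm h3
    refine lt_of_le_of_lt ?_ hw
    apply one_div_le_one_div_of_le (by positivity)
    exact pow_le_pow_right₀ (by norm_num) (by omega)
  · rw [chk_iff] at hc
    set J := JJ N k with hJ
    have hJ0 : (0 : ℝ) < 2 ^ J := by positivity
    obtain ⟨x, hx, y, hy, hxy⟩ := grid_near J h3
    have hz : zpt x (4 * 2 ^ J) y (4 * 2 ^ J) J = pt (gq J x y) := by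
      rw [pt_gq]
      unfold zpt
      push_cast
      rfl
    have h1 := hf x (4 * 2 ^ J) y (4 * 2 ^ J) J
    rw [hz] at h1
    have h5 : (2 : ℝ) / 2 ^ J ≤ 1 / 2 ^ k / 8 := by
      have := prec2 N k
      rwa [← hJ] at this
    have e2 : (2 : ℝ) / 2 ^ J = 2 * (1 / 2 ^ J) := by ring
    have hk1 : (1 : ℝ) / 2 ^ k ≤ 1 := by
      rw [div_le_one (by positivity)]; exact one_le_pow₀ (by norm_num)
    have hk00 : (0 : ℝ) < 1 / 2 ^ k := by positivity
    have hbig : Big 16 (gq J x y) N := by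
      rcases hc x hx y hy with h2 | h2
      · exact h2
      · exfalso
        have h3 : 4 * 2 ^ k * ((f (x, 4 * 2 ^ J, y, 4 * 2 ^ J, J)).1 : ℝ) ≤
          (3 * 2 ^ J + 4 * 2 ^ k * ((f (x, 4 * 2 ^ J, y, 4 * 2 ^ J, J)).2 : ℝ)) := by exact_mod_cast h2
        set v1 : ℝ := ((f (x, 4 * 2 ^ J, y, 4 * 2 ^ J, J)).1 : ℝ)
        set v2 : ℝ := ((f (x, 4 * 2 ^ J, y, 4 * 2 ^ J, J)).2 : ℝ)
        have hk0 : (0 : ℝ) < 2 ^ k := by positivity
        have h4 : (v1 - v2) / 2 ^ J ≤ 3 / 4 * (1 / 2 ^ k) := by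
          rw [div_le_iff₀ hJ0, mul_one_div, div_mul_eq_mul_div, le_div_iff₀ hk0]
          nlinarith
        rw [abs_le] at h1
        have h6 := dM_le_add w (pt (gq J x y))
        rw [norm_sub_rev] at h6
        linarith [h1.1]
    rw [big_iff _ _ (gq_pos _ _ _)] at hbig
    push_cast at hbig
    have h4 : 4 < ‖P N (pt (gq J x y))‖ := by
      nlinarith [norm_nonneg (P N (pt (gq J x y)))]
    have hg4 : ‖pt (gq J x y)‖ ≤ 4 := by
      have h6 : ‖pt (gq J x y)‖ ≤ ‖pt (gq J x y) - w‖ + ‖w‖ := by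
        have := norm_add_le (pt (gq J x y) - w) w
        simpa using this
      linarith
    have h7 := lip hg4 (h3.trans (by norm_num)) N
    have h8 : (9 : ℝ) ^ (2 ^ N) * ‖pt (gq J x y) - w‖ ≤ 1 / 8 :=
      (mul_le_mul_of_nonneg_left hxy (by positivity)).trans (prec N k)
    have h9 := norm_sub_norm_le (P N (pt (gq J x y))) (P N w)
    exact reach_of_large (by linarith)

theorem neck_of_comp (h : CompM) : ∃ m : ℕ → ℕ, Computable m ∧
    ∀ (k : ℕ) (w : ℂ), 1 / 2 ^ k < dM w → Reach (1 / 2 ^ (m k)) w := by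
  obtain ⟨f, hfc, hf⟩ := h
  have hf' : ∀ a b c d n : ℕ, |(((f (a, b, c, d, n)).1 : ℝ) - ((f (a, b, c, d, n)).2 : ℝ)) / 2 ^ n -
      dM (zpt a b c d n)| ≤ 1 / 2 ^ n := hf
  have hex : ∀ k, ∃ N, chk f N k = true := chk_eventually hf'
  set g : ℕ → ℕ := fun k => Nat.find (hex k) with hg
  have hgc : Computable g := by
    have h1 : Partrec₂ fun (k N : ℕ) => (Part.some (chk f N k) : Part Bool) := by
      have h2 : Computable₂ fun (k N : ℕ) => chk f N k :=
        comp_chk hfc Primrec.snd Primrec.fst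
      exact h2.partrec₂
    have h3 : Partrec fun k : ℕ => Nat.rfind fun N => (Part.some (chk f N k) : Part Bool) :=
      Partrec.rfind h1
    refine h3.of_eq (fun k => ?_)
    rw [PFun.coe_val, Part.eq_some_iff]
    refine Nat.mem_rfind.mpr ⟨?_, ?_⟩
    · have := Nat.find_spec (hex k)
      simp only [Part.mem_some_iff]
      exact this.symm
    · intro N hN
      have := Nat.find_min (hex k) hN
      simp only [Part.mem_some_iff]
      simpa using this
  refine ⟨fun k => 4 * 2 ^ (g k) + k + 1, ?_, ?_⟩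
  · have h1 : Primrec fun u : ℕ × ℕ => 4 * 2 ^ u.1 + u.2 + 1 :=
      padd (padd (pmul (pconst 4) (ppow (pconst 2) Primrec.fst)) Primrec.snd) (pconst 1)
    exact h1.to_comp.comp (hgc.pair Computable.id)
  · intro k w hw
    exact reach_of_chk hf' (Nat.find_spec (hex k)) hw

theorem comp_iff_neck : CompM ↔ ∃ m : ℕ → ℕ, Computable m ∧
    ∀ (k : ℕ) (w : ℂ), 1 / 2 ^ k < dM w → Reach (1 / 2 ^ (m k)) w :=
  ⟨neck_of_comp, fun ⟨_, hm, H⟩ => comp_of_neck hm H⟩

end Pool.MP_500150_lc.H8
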