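import Mathlib
import Pool.Agent.Work.MP_500150_lc.H8.Fwd
import Pool.Agent.Work.MP_500150_lc.H8.Chain

set_option autoImplicit false

/-!
# Pictures with few wrong pixels are enough
-/

namespace Pool.MP_500150_lc.H8

open Metric Set

/-- The pixel `q` of the picture `f` of level `n` is wrong. -/
def Wrong (f : ℕ × ℕ × ℕ → ℕ) (n : ℕ) (q : ℕ × ℕ) : Prop :=
  (dM (pt (gq n q.1 q.2)) < 1 / 2 ^ n ∧ f (q.1, q.2, n) ≠ 0) ∨
  (2 / 2 ^ n < dM (pt (gq n q.1 q.2)) ∧ f (q.1, q.2, n) ≠ 1)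

open Classical in
/-- The set of the wrong pixels. -/
noncomputable def wrongs (f : ℕ × ℕ × ℕ → ℕ) (n : ℕ) : Finset (ℕ × ℕ) :=
  (Finset.range (8 * 2 ^ n + 1) ×ˢ Finset.range (8 * 2 ^ n + 1)).filter (fun q => Wrong f n q)

/-- The pixel has not escaped and is not marked `0`. -/
def Bad (f : ℕ × ℕ × ℕ → ℕ) (n N x y : ℕ) : Prop := ¬ Big 9 (gq n x y) N ∧ f (x, y, n) ≠ 0

instance (f : ℕ × ℕ × ℕ → ℕ) (n N x y : ℕ) : Decidable (Bad f n N x y) := by
  unfold Bad; infer_instance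

/-- The bad indices. -/
def bads (f : ℕ × ℕ × ℕ → ℕ) (n N : ℕ) : Finset ℕ :=
  (Finset.range ((8 * 2 ^ n + 1) * (8 * 2 ^ n + 1))).filter
    (fun i => Bad f n N (i / (8 * 2 ^ n + 1)) (i % (8 * 2 ^ n + 1)))

lemma bads_le {f : ℕ × ℕ × ℕ → ℕ} {n N : ℕ}
    (h : ∀ x < 8 * 2 ^ n + 1, ∀ y < 8 * 2 ^ n + 1, 1 / 2 ^ n ≤ dM (pt (gq n x y)) →
      Big 9 (gq n x y) N) : (bads f n N).card ≤ (wrongs f n).card := by
  classical
  set B := 8 * 2 ^ n + 1 with hB
  have hB0 : 0 < B := by omega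
  apply Finset.card_le_card_of_injOn (fun i => (i / B, i % B))
  · intro i hi
    have hi' : i ∈ bads f n N := hi
    unfold bads at hi'
    rw [← hB, Finset.mem_filter, Finset.mem_range] at hi'
    obtain ⟨h1, h2, h3⟩ := hi'
    have hx : i / B < B := Nat.div_lt_of_lt_mul h1
    have hy : i % B < B := Nat.mod_lt _ hB0
    show (i / B, i % B) ∈ wrongs f n
    unfold wrongs
    rw [← hB, Finset.mem_filter, Finset.mem_product, Finset.mem_range, Finset.mem_range]
    refine ⟨⟨hx, hy⟩, Or.inl ⟨?_, h3⟩⟩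
    by_contra h4
    push Not at h4
    exact h2 (h _ hx _ hy h4)
  · intro i _ j _ hij
    simp only [Prod.mk.injEq] at hij
    rw [← Nat.div_add_mod i B, ← Nat.div_add_mod j B, hij.1, hij.2]

/-- There is a time at which few pixels are bad. -/
lemma exists_bads (f : ℕ × ℕ × ℕ → ℕ) (n : ℕ) :
    ∃ N, (bads f n (N + 1)).card ≤ (wrongs f n).card := by
  classical
  set K : Set ℂ := {w : ℂ | ‖w‖ ≤ 8 ∧ 1 / 2 ^ n ≤ dM w} with hK
  have hKc : IsCompact K := by
    have h1 : IsClosed K := by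
      apply IsClosed.inter
      · exact isClosed_le continuous_norm continuous_const
      · exact isClosed_le continuous_const continuous_dM
    apply (isCompact_closedBall (0 : ℂ) 8).of_isClosed_subset h1
    intro z hz
    rw [mem_closedBall_zero_iff]
    exact hz.1
  obtain ⟨N, hN⟩ := esc_large hKc (fun z hz => dM_pos (lt_of_lt_of_le (by positivity) hz.2)) 3
  refine ⟨N, bads_le ?_⟩
  intro x hx y hy hd
  have hJ0 : (0 : ℝ) < 2 ^ n := by positivity
  have hnorm : ‖pt (gq n x y)‖ ≤ 8 := by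
    refine (Complex.norm_le_abs_re_add_abs_im _).trans ?_
    rw [pt_gq]
    simp only
    have key : ∀ t : ℕ, t < 8 * 2 ^ n + 1 → |((t : ℝ) - 4 * 2 ^ n) / 2 ^ n| ≤ 4 := by
      intro t ht
      have ht' : (t : ℝ) ≤ 8 * 2 ^ n := by
        have : t ≤ 8 * 2 ^ n := by omega
        exact_mod_cast this
      have ht0 : (0 : ℝ) ≤ t := Nat.cast_nonneg _
      rw [abs_div, abs_of_pos hJ0, div_le_iff₀ hJ0, abs_le]
      constructor <;> linarith
    have := key x hx
    have := key y hy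
    linarith
  have h6 := hN (N + 1) (by omega) (pt (gq n x y)) ⟨hnorm, hd⟩
  rw [big_iff _ _ (gq_pos _ _ _)]
  push_cast
  nlinarith

/-- Few bad and few wrong pixels give an escape time. -/
lemma time_of_bads {f : ℕ × ℕ × ℕ → ℕ} {n N k : ℕ} (hn : 2 * k + 6 ≤ n)
    (h1 : (bads f n (N + 1)).card * 2 ^ (2 * k + 6) ≤ 4 ^ n)
    (h2 : (wrongs f n).card * 2 ^ (2 * k + 6) ≤ 4 ^ n)
    {w : ℂ} (hw : 1 / 2 ^ k < dM w) : 3 < ‖P (N + 4) w‖ := by
  classical
  by_contra hcon
  -- the point is in the disc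
  have hw3 : ‖w‖ < 3 := by
    by_contra h3
    push Not at h3
    have := growth h3 (N + 3)
    have h4 : (2 : ℝ) ^ 2 ≤ 2 ^ (2 ^ (N + 3)) := by
      apply pow_le_pow_right₀ (by norm_num)
      calc 2 = 2 ^ 1 := by norm_num
        _ ≤ 2 ^ (N + 3) := Nat.pow_le_pow_right (by norm_num) (by omega)
    apply hcon
    show 3 < ‖P (N + 3 + 1) w‖
    linarith
  have hball : ∀ y : ℂ, ‖y - w‖ ≤ 1 / 2 ^ k / 4 → ‖P (N + 1) y‖ ≤ 3 := by
    intro y hy
    by_contra h3
    push Not at h3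
    exact hcon (time_of_near (N := N + 1) (by omega) hw (by positivity) hy h3 (by omega))
  set B := 8 * 2 ^ n + 1 with hB
  have hB0 : 0 < B := by omega
  obtain ⟨j, hj⟩ : ∃ j, n = k + 2 + j := ⟨n - (k + 2), by omega⟩
  set s : ℕ := 2 ^ j with hs
  have h2n : (0 : ℝ) < 2 ^ n := by positivity
  have hk0 : (0 : ℝ) < 2 ^ k := by positivity
  have hk1 : (1 : ℝ) / 2 ^ k ≤ 1 := by
    rw [div_le_one hk0]; exact one_le_pow₀ (by norm_num)
  have hsR : (s : ℝ) / 2 ^ n = 1 / 2 ^ k / 4 := by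
    rw [hs, hj, pow_add, pow_add]
    push_cast
    field_simp
    norm_num
  -- the coordinates
  have coord : ∀ t : ℝ, |t| < 3 → ∃ x₀ : ℕ, ∀ a < s, x₀ + a < B ∧
      |(((x₀ + a : ℕ) : ℝ) - 4 * 2 ^ n) / 2 ^ n - t| ≤ 1 / 2 ^ k / 8 := by
    intro t ht
    rw [abs_lt] at ht
    have hpos : 0 ≤ (t + 4) * 2 ^ n - s / 2 := by
      have e : ((t + 4) * 2 ^ n - s / 2) = (t + 4 - (s / 2 ^ n) / 2) * 2 ^ n := by
        field_simp
      rw [e, hsR]
      apply mul_nonneg _ h2n.le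
      linarith
    refine ⟨⌈(t + 4) * 2 ^ n - s / 2⌉₊, fun a ha => ?_⟩
    have h3 := Nat.le_ceil ((t + 4) * 2 ^ n - (s : ℝ) / 2)
    have h4 := Nat.ceil_lt_add_one hpos
    have ha' : (a : ℝ) + 1 ≤ s := by exact_mod_cast ha
    have ha0 : (0 : ℝ) ≤ a := Nat.cast_nonneg _
    constructor
    · have h5 : (((⌈(t + 4) * 2 ^ n - (s : ℝ) / 2⌉₊ + a : ℕ)) : ℝ) < B := by
        rw [hB]
        push_cast
        have e : (s : ℝ) = 1 / 2 ^ k / 4 * 2 ^ n := by
          rw [← hsR]; field_simp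
        have e2 : (s : ℝ) / 2 ≤ 1 * 2 ^ n := by
          rw [e]
          have : (1 : ℝ) / 2 ^ k / 4 / 2 * 2 ^ n ≤ 1 * 2 ^ n :=
            mul_le_mul_of_nonneg_right (by linarith) h2n.le
          linarith
        nlinarith
      exact_mod_cast h5
    · have e : (((⌈(t + 4) * 2 ^ n - (s : ℝ) / 2⌉₊ + a : ℕ) : ℝ) - 4 * 2 ^ n) / 2 ^ n - t
          = (((⌈(t + 4) * 2 ^ n - (s : ℝ) / 2⌉₊ : ℕ) : ℝ) + a - (t + 4) * 2 ^ n) / 2 ^ n := by
        push_cast
        field_simp
        ring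
      rw [e, abs_div, abs_of_pos h2n, div_le_iff₀ h2n]
      have e3 : 1 / 2 ^ k / 8 * 2 ^ n = (s : ℝ) / 2 := by
        have : (s : ℝ) = 1 / 2 ^ k / 4 * 2 ^ n := by
          rw [← hsR]; field_simp
        rw [this]; ring
      rw [e3, abs_le]
      constructor <;> linarith
  obtain ⟨x₀, hx₀⟩ := coord w.re ((Complex.abs_re_le_norm w).trans_lt hw3)
  obtain ⟨y₀, hy₀⟩ := coord w.im ((Complex.abs_im_le_norm w).trans_lt hw3)
  -- the pixels
  have hpix : ∀ a < s, ∀ b < s, (x₀ + a) < B ∧ (y₀ + b) < B ∧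
      (Bad f n (N + 1) (x₀ + a) (y₀ + b) ∨ Wrong f n (x₀ + a, y₀ + b)) := by
    intro a ha b hb
    obtain ⟨ha1, ha2⟩ := hx₀ a ha
    obtain ⟨hb1, hb2⟩ := hy₀ b hb
    refine ⟨ha1, hb1, ?_⟩
    set g := pt (gq n (x₀ + a) (y₀ + b)) with hg
    have hgw : ‖g - w‖ ≤ 1 / 2 ^ k / 4 := by
      refine (Complex.norm_le_abs_re_add_abs_im _).trans ?_
      rw [hg, pt_gq]
      simp only [Complex.sub_re, Complex.sub_im]
      linarith
    have h3 := hball g hgw
    have h4 : ¬ Big 9 (gq n (x₀ + a) (y₀ + b)) (N + 1) := by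
      rw [big_iff _ _ (gq_pos _ _ _)]
      push_cast
      push Not
      nlinarith [norm_nonneg (P (N + 1) (pt (gq n (x₀ + a) (y₀ + b))))]
    by_cases h5 : f (x₀ + a, y₀ + b, n) = 1
    · left
      exact ⟨h4, by rw [h5]; norm_num⟩
    · right
      right
      refine ⟨?_, h5⟩
      have h6 := dM_le_add w g
      rw [norm_sub_rev] at h6
      have h7 : (2 : ℝ) / 2 ^ n ≤ 1 / 2 ^ k / 4 := by
        rw [← hsR]
        apply div_le_div_of_nonneg_right _ h2n.le
        rw [hs]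
        push_cast
        calc (2 : ℝ) = 2 ^ 1 := by norm_num
          _ ≤ 2 ^ j := pow_le_pow_right₀ (by norm_num) (by omega)
      show 2 / 2 ^ n < dM g
      have : (0 : ℝ) < 1 / 2 ^ k := by positivity
      linarith
  -- the count
  have hcount : s * s ≤ (bads f n (N + 1)).card + (wrongs f n).card := by
    have h3 : ((Finset.range s) ×ˢ (Finset.range s)).card = s * s := by
      rw [Finset.card_product, Finset.card_range]
    rw [← h3]
    have h4 : (bads f n (N + 1)).card + (wrongs f n).card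
        = ((bads f n (N + 1)).disjSum (wrongs f n)).card := by
      rw [Finset.card_disjSum]
    rw [h4]
    apply Finset.card_le_card_of_injOn (fun q : ℕ × ℕ =>
      if Bad f n (N + 1) (x₀ + q.1) (y₀ + q.2) then
        (Sum.inl ((x₀ + q.1) * B + (y₀ + q.2)) : ℕ ⊕ (ℕ × ℕ)) else Sum.inr (x₀ + q.1, y₀ + q.2))
    · rintro ⟨a, b⟩ hq
      simp only [Finset.coe_product, Finset.coe_range, mem_prod, mem_Iio] at hq
      obtain ⟨ha, hb⟩ := hq
      obtain ⟨p1, p2, p3⟩ := hpix a ha b hb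
      show (if Bad f n (N + 1) (x₀ + a) (y₀ + b) then
        (Sum.inl ((x₀ + a) * B + (y₀ + b)) : ℕ ⊕ (ℕ × ℕ)) else Sum.inr (x₀ + a, y₀ + b)) ∈ _
      split_ifs with hbad
      · rw [Finset.mem_coe, Finset.inl_mem_disjSum]
        unfold bads
        rw [← hB, Finset.mem_filter, Finset.mem_range]
        have e1 : ((x₀ + a) * B + (y₀ + b)) / B = x₀ + a := by
          rw [mul_comm, Nat.mul_add_div hB0, Nat.div_eq_of_lt p2, add_zero]
        have e2 : ((x₀ + a) * B + (y₀ + b)) % B = y₀ + b := by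
          rw [mul_comm, Nat.mul_add_mod, Nat.mod_eq_of_lt p2]
        rw [e1, e2]
        exact ⟨by nlinarith, hbad⟩
      · rw [Finset.mem_coe, Finset.inr_mem_disjSum]
        unfold wrongs
        rw [← hB, Finset.mem_filter, Finset.mem_product, Finset.mem_range, Finset.mem_range]
        exact ⟨⟨p1, p2⟩, p3.resolve_left hbad⟩
    · rintro ⟨a, b⟩ hq ⟨a', b'⟩ hq' he
      simp only [Finset.coe_product, Finset.coe_range, mem_prod, mem_Iio] at hq hq'
      obtain ⟨ha, hb⟩ := hq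
      obtain ⟨ha', hb'⟩ := hq'
      obtain ⟨p1, p2, -⟩ := hpix a ha b hb
      obtain ⟨p1', p2', -⟩ := hpix a' ha' b' hb'
      simp only at he
      split_ifs at he with c1 c2 c2
      · have he' := Sum.inl.inj he
        have e1 : ((x₀ + a) * B + (y₀ + b)) / B = x₀ + a := by
          rw [mul_comm, Nat.mul_add_div hB0, Nat.div_eq_of_lt p2, add_zero]
        have e2 : ((x₀ + a') * B + (y₀ + b')) / B = x₀ + a' := by
          rw [mul_comm, Nat.mul_add_div hB0, Nat.div_eq_of_lt p2', add_zero]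
        have e3 : x₀ + a = x₀ + a' := by rw [← e1, ← e2, he']
        rw [e3] at he'
        have e4 : y₀ + b = y₀ + b' := by omega
        rw [Prod.mk.injEq]
        constructor <;> omega
      · have he' := Sum.inr.inj he
        rw [Prod.mk.injEq] at he' ⊢
        constructor <;> omega
  have hmul : s * s * 2 ^ (2 * k + 6) ≤ 2 * 4 ^ n := by
    calc s * s * 2 ^ (2 * k + 6)
        ≤ ((bads f n (N + 1)).card + (wrongs f n).card) * 2 ^ (2 * k + 6) :=
          Nat.mul_le_mul_right _ hcount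
      _ = (bads f n (N + 1)).card * 2 ^ (2 * k + 6) + (wrongs f n).card * 2 ^ (2 * k + 6) := by
          rw [add_mul]
      _ ≤ 2 * 4 ^ n := by omega
  have hs2 : s * s * 2 ^ (2 * k + 6) = 4 * 4 ^ n := by
    have e4 : ∀ m : ℕ, (4 : ℕ) ^ m = 2 ^ m * 2 ^ m := fun m => by rw [← mul_pow]; norm_num
    rw [e4 n, hj, hs]
    have e5 : 2 * k + 6 = (k + 3) + (k + 3) := by ring
    rw [e5, pow_add 2 (k + 3) (k + 3), pow_add 2 (k + 2) j, pow_add 2 k 3, pow_add 2 k 2]
    ring
  rw [hs2] at hmul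
  have : 0 < 4 ^ n := by positivity
  omega

/-! ### Computability -/

/-- The indicator of the points which have not escaped. -/
def nb (q : (ℕ × ℕ) × (ℕ × ℕ)) : ℕ := if Big 9 (gq q.1.1 q.2.1 q.2.2) q.1.2 then 0 else 1

lemma nb_eq (n N x y : ℕ) : nb ((n, N), (x, y)) = if Big 9 (gq n x y) N then 0 else 1 := rfl

lemma pnb : Primrec nb :=
  Primrec.ite (pbig 9 (pgq (Primrec.fst.comp Primrec.fst) (Primrec.fst.comp Primrec.snd)
        (Primrec.snd.comp Primrec.snd)) (Primrec.snd.comp Primrec.fst)) (pconst 0) (pconst 1)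

attribute [irreducible] nb

/-- The indicator. -/
def bind (f : ℕ × ℕ × ℕ → ℕ) (n N i : ℕ) : ℕ :=
  if Bad f n N (i / (8 * 2 ^ n + 1)) (i % (8 * 2 ^ n + 1)) then 1 else 0

/-- The partial count. -/
def bcnt (f : ℕ × ℕ × ℕ → ℕ) (n N m : ℕ) : ℕ := Nat.rec 0 (fun i acc => acc + bind f n N i) m

lemma bcnt_eq (f : ℕ × ℕ × ℕ → ℕ) (n N : ℕ) :
    (bads f n N).card = bcnt f n N ((8 * 2 ^ n + 1) * (8 * 2 ^ n + 1)) := by
  have key : ∀ m : ℕ, bcnt f n N m = ((Finset.range m).filter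
      (fun i => Bad f n N (i / (8 * 2 ^ n + 1)) (i % (8 * 2 ^ n + 1)))).card := by
    intro m
    induction m with
    | zero => rfl
    | succ m ih =>
      have e : bcnt f n N (m + 1) = bcnt f n N m + bind f n N m := rfl
      rw [e, ih, Finset.range_add_one, Finset.filter_insert]
      unfold bind
      by_cases h : Bad f n N (m / (8 * 2 ^ n + 1)) (m % (8 * 2 ^ n + 1))
      · rw [if_pos h, if_pos h, Finset.card_insert_of_notMem]
        simp
      · rw [if_neg h, if_neg h, add_zero]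
  rw [key]
  rfl

section comp

variable {α : Type*} [Primcodable α]

lemma cbind_aux {f : ℕ × ℕ × ℕ → ℕ} (hf : Computable f) {n N x y : α → ℕ}
    (hn : Computable n) (hN : Computable N) (hx : Computable x) (hy : Computable y) :
    Computable fun u => if Bad f (n u) (N u) (x u) (y u) then 1 else 0 := by
  have gb : Computable fun u => nb ((n u, N u), (x u, y u)) := pnb.to_comp.comp ((hn.pair hN).pair (hx.pair hy))
  have gf : Computable fun u => f (x u, y u, n u) := hf.comp (hx.pair (hy.pair hn))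
  have g0 : Computable fun u => 1 - (1 - f (x u, y u, n u)) := by
    have h0 : Primrec fun m : ℕ => 1 - (1 - m) := psub (pconst 1) (psub (pconst 1) Primrec.id)
    exact h0.to_comp.comp gf
  refine (cmul gb g0).of_eq (fun u => ?_)
  rw [nb_eq]
  unfold Bad
  by_cases c1 : Big 9 (gq (n u) (x u) (y u)) (N u)
  · simp [c1]
  · by_cases c2 : f (x u, y u, n u) = 0
    · simp [c2]
    · have : 1 - (1 - f (x u, y u, n u)) = 1 := by omega
      simp [c1, c2, this]

lemma cbind {f : ℕ × ℕ × ℕ → ℕ} (hf : Computable f) {n N i : α → ℕ}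
    (hn : Computable n) (hN : Computable N) (hi : Computable i) :
    Computable fun u => bind f (n u) (N u) (i u) := by
  have hB : Computable fun u => 8 * 2 ^ n u + 1 := by
    have h0 : Primrec fun m : ℕ => 8 * 2 ^ m + 1 :=
      padd (pmul (pconst 8) (ppow (pconst 2) Primrec.id)) (pconst 1)
    exact h0.to_comp.comp hn
  have hx : Computable fun u => i u / (8 * 2 ^ n u + 1) := Primrec.nat_div.to_comp.comp hi hB
  have hy : Computable fun u => i u % (8 * 2 ^ n u + 1) := Primrec.nat_mod.to_comp.comp hi hB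
  exact cbind_aux hf hn hN hx hy

lemma csum {t : α → ℕ → ℕ} (ht : Computable fun p : α × ℕ => t p.1 p.2) {n : α → ℕ}
    (hn : Computable n) :
    Computable fun a => (Nat.rec 0 (fun i acc => acc + t a i) (n a) : ℕ) := by
  have e1 : Computable fun p : α × (ℕ × ℕ) => p.2.2 := Computable.snd.comp Computable.snd
  have e2 : Computable fun p : α × (ℕ × ℕ) => (p.1, p.2.1) :=
    Computable.fst.pair (Computable.fst.comp Computable.snd)
  have e3 : Computable fun p : α × (ℕ × ℕ) => t p.1 p.2.1 := ht.comp e2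
  have gstep : Computable₂ fun (a : α) (q : ℕ × ℕ) => q.2 + t a q.1 := cadd e1 e3
  exact Computable.nat_rec hn (Computable.const 0) gstep

lemma cbads {f : ℕ × ℕ × ℕ → ℕ} (hf : Computable f) {n N : α → ℕ}
    (hn : Computable n) (hN : Computable N) :
    Computable fun u => (bads f (n u) (N u)).card := by
  have f1 : Computable fun p : α × ℕ => p.1 := Computable.fst
  have ht : Computable fun p : α × ℕ => bind f (n p.1) (N p.1) p.2 :=
    cbind hf (hn.comp f1) (hN.comp f1) Computable.snd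
  have hB : Computable fun u => (8 * 2 ^ n u + 1) * (8 * 2 ^ n u + 1) := by
    have h1 : Primrec fun m : ℕ => 8 * 2 ^ m + 1 :=
      padd (pmul (pconst 8) (ppow (pconst 2) Primrec.id)) (pconst 1)
    exact (pmul h1 h1).to_comp.comp hn
  have h := csum (t := fun u i => bind f (n u) (N u) i) ht hB
  exact h.of_eq (fun u => (bcnt_eq f (n u) (N u)).symm)

end comp

attribute [irreducible] bads

/-- Pictures with few wrong pixels give the computability of `M`. -/
theorem comp_of_avg {f : ℕ × ℕ × ℕ → ℕ} {ρ : ℕ → ℕ} (hf : Computable f) (hρ : Computable ρ)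
    (h : ∀ k, k ≤ ρ k ∧ (wrongs f (ρ k)).card * 2 ^ k ≤ 4 ^ (ρ k)) : CompM := by
  set K : ℕ → ℕ := fun k => 2 * k + 6 with hK
  have hKc : Computable K := (padd (pmul (pconst 2) Primrec.id) (pconst 6)).to_comp
  set b : ℕ → ℕ → Bool := fun k N =>
    decide ((bads f (ρ (K k)) (N + 1)).card * 2 ^ (K k) ≤ 4 ^ (ρ (K k))) with hb
  have hbc : Computable fun u : ℕ × ℕ => b u.1 u.2 := by
    have hk1 : Computable fun u : ℕ × ℕ => K u.1 := hKc.comp Computable.fst
    have hr : Computable fun u : ℕ × ℕ => ρ (K u.1) := hρ.comp hk1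
    have hN : Computable fun u : ℕ × ℕ => u.2 + 1 := (padd (α := ℕ × ℕ) Primrec.snd (pconst 1)).to_comp
    have h1 := cbads hf hr hN
    have h2 : Computable fun u : ℕ × ℕ => 2 ^ (K u.1) :=
      (ppow (α := ℕ) (pconst 2) Primrec.id).to_comp.comp hk1
    have h3 : Computable fun u : ℕ × ℕ => 4 ^ (ρ (K u.1)) :=
      (ppow (α := ℕ) (pconst 4) Primrec.id).to_comp.comp hr
    exact cle (cmul h1 h2) h3
  have hex : ∀ k, ∃ N, b k N = true := by
    intro k
    obtain ⟨N, hN⟩ := exists_bads f (ρ (K k))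
    refine ⟨N, ?_⟩
    rw [hb]
    simp only [decide_eq_true_eq]
    exact (Nat.mul_le_mul_right _ hN).trans (h (K k)).2
  set m : ℕ → ℕ := fun k => Nat.find (hex k) with hm
  have hmc : Computable m := by
    have h1 : Partrec₂ fun (k N : ℕ) => (Part.some (b k N) : Part Bool) := by
      have h2 : Computable₂ fun (k N : ℕ) => b k N := hbc
      exact h2.partrec₂
    have h3 : Partrec fun k : ℕ => Nat.rfind fun N => (Part.some (b k N) : Part Bool) :=
      Partrec.rfind h1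
    refine h3.of_eq (fun k => ?_)
    rw [PFun.coe_val, Part.eq_some_iff]
    refine Nat.mem_rfind.mpr ⟨?_, ?_⟩
    · have := Nat.find_spec (hex k)
      simp only [Part.mem_some_iff]
      exact this.symm
    · intro N hN
      have := Nat.find_min (hex k) hN
      simp only [Part.mem_some_iff]
      simpa using this
  have h4 : Computable fun k => m k + 4 :=
    (padd (α := ℕ) Primrec.id (pconst 4)).to_comp.comp hmc
  refine comp_of_time h4 (fun k w hw => ?_)
  have hspec : b k (m k) = true := Nat.find_spec (hex k)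
  rw [hb] at hspec
  simp only [decide_eq_true_eq] at hspec
  exact time_of_bads (f := f) (n := ρ (K k)) (N := m k) (k := k) (h (K k)).1 hspec (h (K k)).2 hw

/-- The computability of `M` gives pictures without wrong pixels. -/
theorem avg_of_comp (h : CompM) : ∃ f : ℕ × ℕ × ℕ → ℕ, Computable f ∧
    ∀ n, (wrongs f n).card = 0 := by
  classical
  obtain ⟨F, hFc, hF⟩ := h
  set f : ℕ × ℕ × ℕ → ℕ := fun q => cond (decide (
      (F (4 * q.1, 4 * (4 * 2 ^ q.2.2), 4 * q.2.1, 4 * (4 * 2 ^ q.2.2), q.2.2 + 2)).2 + 7 ≤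
      (F (4 * q.1, 4 * (4 * 2 ^ q.2.2), 4 * q.2.1, 4 * (4 * 2 ^ q.2.2), q.2.2 + 2)).1)) 1 0 with hf
  refine ⟨f, ?_, ?_⟩
  · have q1 : Primrec fun q : ℕ × ℕ × ℕ => q.1 := Primrec.fst
    have q2 : Primrec fun q : ℕ × ℕ × ℕ => q.2.1 := Primrec.fst.comp Primrec.snd
    have q3 : Primrec fun q : ℕ × ℕ × ℕ => q.2.2 := Primrec.snd.comp Primrec.snd
    have h4 : Primrec fun q : ℕ × ℕ × ℕ => 4 * (4 * 2 ^ q.2.2) :=
      pmul (pconst 4) (pmul (pconst 4) (ppow (pconst 2) q3))
    have hin : Primrec fun q : ℕ × ℕ × ℕ =>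
        (4 * q.1, 4 * (4 * 2 ^ q.2.2), 4 * q.2.1, 4 * (4 * 2 ^ q.2.2), q.2.2 + 2) :=
      (pmul (pconst 4) q1).pair (h4.pair ((pmul (pconst 4) q2).pair (h4.pair (padd q3 (pconst 2)))))
    have gF := hFc.comp hin.to_comp
    have g1 := Computable.fst.comp gF
    have g2 := Computable.snd.comp gF
    exact Computable.cond (cle (cadd g2 (Computable.const 7)) g1) (Computable.const 1)
      (Computable.const 0)
  · intro n
    rw [Finset.card_eq_zero]
    unfold wrongs
    rw [Finset.filter_eq_empty_iff]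
    rintro ⟨x, y⟩ _
    have h2n : (0 : ℝ) < 2 ^ n := by positivity
    have h1 := hF (4 * x) (4 * (4 * 2 ^ n)) (4 * y) (4 * (4 * 2 ^ n)) (n + 2)
    have hz : (Complex.mk ((((4 * x : ℕ) : ℝ) - ((4 * (4 * 2 ^ n) : ℕ) : ℝ)) / 2 ^ (n + 2))
        ((((4 * y : ℕ) : ℝ) - ((4 * (4 * 2 ^ n) : ℕ) : ℝ)) / 2 ^ (n + 2))) = pt (gq n x y) := by
      rw [pt_gq]
      push_cast
      rw [pow_add]
      apply Complex.ext
      · simp only
        field_simp
        ring
      · simp only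
        field_simp
        ring
    rw [hz] at h1
    have h1' : |(((F (4 * x, 4 * (4 * 2 ^ n), 4 * y, 4 * (4 * 2 ^ n), n + 2)).1 : ℝ) -
        ((F (4 * x, 4 * (4 * 2 ^ n), 4 * y, 4 * (4 * 2 ^ n), n + 2)).2 : ℝ)) / 2 ^ (n + 2) -
        dM (pt (gq n x y))| ≤ 1 / 2 ^ (n + 2) := h1
    set v1 := (F (4 * x, 4 * (4 * 2 ^ n), 4 * y, 4 * (4 * 2 ^ n), n + 2)).1 with hv1
    set v2 := (F (4 * x, 4 * (4 * 2 ^ n), 4 * y, 4 * (4 * 2 ^ n), n + 2)).2 with hv2
    have hfv : f (x, y, n) = cond (decide (v2 + 7 ≤ v1)) 1 0 := rfl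
    have e4 : (2 : ℝ) ^ (n + 2) = 4 * 2 ^ n := by rw [pow_add]; ring
    rw [e4] at h1'
    rw [abs_le, div_sub' (by positivity), le_div_iff₀ (by positivity), div_le_div_iff_of_pos_right (by positivity)] at h1'
    have e5 : -(1 / (4 * 2 ^ n)) * (4 * (2 : ℝ) ^ n) = -1 := by field_simp
    rw [e5] at h1'
    obtain ⟨l1, l2⟩ := h1'
    unfold Wrong
    rintro (⟨w1, w2⟩ | ⟨w1, w2⟩)
    · apply w2
      show f (x, y, n) = 0
      rw [hfv]
      have : ¬ (v2 + 7 ≤ v1) := by
        intro hle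
        have hle' : (v2 : ℝ) + 7 ≤ v1 := by exact_mod_cast hle
        rw [lt_div_iff₀ h2n] at w1
        linarith
      simp [this]
    · apply w2
      show f (x, y, n) = 1
      rw [hfv]
      have : v2 + 7 ≤ v1 := by
        by_contra hle
        have hle' : (v1 : ℝ) + 1 ≤ v2 + 7 := by
          have : v1 + 1 ≤ v2 + 7 := by omega
          exact_mod_cast this
        rw [div_lt_iff₀ h2n] at w1
        linarith
      simp [this]

theorem comp_iff_avg : CompM ↔ ∃ (f : ℕ × ℕ × ℕ → ℕ) (ρ : ℕ → ℕ), Computable f ∧ Computable ρ ∧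
    ∀ k, k ≤ ρ k ∧ (wrongs f (ρ k)).card * 2 ^ k ≤ 4 ^ (ρ k) := by
  constructor
  · intro h
    obtain ⟨f, hf, h0⟩ := avg_of_comp h
    exact ⟨f, id, hf, Computable.id, fun k => ⟨le_rfl, by rw [h0]; simp⟩⟩
  · rintro ⟨f, ρ, hf, hρ, h⟩
    exact comp_of_avg hf hρ h

end Pool.MP_500150_lc.H8
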