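import Mathlib
import Pool.Agent.Work.MP_500150_lc.H8.Avg

set_option autoImplicit false

/-!
# Pictures in which the majority of the pixels of every block is right
-/

namespace Pool.MP_500150_lc.H8

open Metric Set

open Classical in
/-- The wrong pixels of level `n` in the block `(X, Y)` of level `k`. -/
noncomputable def wrongsIn (f : ℕ × ℕ × ℕ → ℕ) (n k X Y : ℕ) : Finset (ℕ × ℕ) :=
  (Finset.range (2 ^ (n - k)) ×ˢ Finset.range (2 ^ (n - k))).filter
    (fun q => Wrong f n (X * 2 ^ (n - k) + q.1, Y * 2 ^ (n - k) + q.2))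

/-- The bad indices of the block. -/
def badsIn (f : ℕ × ℕ × ℕ → ℕ) (n k X Y N : ℕ) : Finset ℕ :=
  (Finset.range (2 ^ (n - k) * 2 ^ (n - k))).filter
    (fun i => Bad f n N (X * 2 ^ (n - k) + i / 2 ^ (n - k)) (Y * 2 ^ (n - k) + i % 2 ^ (n - k)))

lemma block_lt {n k X a : ℕ} (hk : k ≤ n) (hX : X < 8 * 2 ^ k) (ha : a < 2 ^ (n - k)) :
    X * 2 ^ (n - k) + a < 8 * 2 ^ n := by
  have e : 8 * 2 ^ n = 8 * 2 ^ k * 2 ^ (n - k) := by
    rw [mul_assoc, ← pow_add, Nat.add_sub_cancel' hk]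
  rw [e]
  calc X * 2 ^ (n - k) + a < X * 2 ^ (n - k) + 2 ^ (n - k) := by omega
    _ = (X + 1) * 2 ^ (n - k) := by ring
    _ ≤ 8 * 2 ^ k * 2 ^ (n - k) := Nat.mul_le_mul_right _ (by omega)

lemma badsIn_le {f : ℕ × ℕ × ℕ → ℕ} {n k N X Y : ℕ} (hk : k ≤ n) (hX : X < 8 * 2 ^ k)
    (hY : Y < 8 * 2 ^ k)
    (h : ∀ x < 8 * 2 ^ n + 1, ∀ y < 8 * 2 ^ n + 1, 1 / 2 ^ n ≤ dM (pt (gq n x y)) →
      Big 9 (gq n x y) N) : (badsIn f n k X Y N).card ≤ (wrongsIn f n k X Y).card := by
  classical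
  set s := 2 ^ (n - k) with hs
  have hs0 : 0 < s := by positivity
  apply Finset.card_le_card_of_injOn (fun i => (i / s, i % s))
  · intro i hi
    have hi' : i ∈ badsIn f n k X Y N := hi
    unfold badsIn at hi'
    rw [← hs, Finset.mem_filter, Finset.mem_range] at hi'
    obtain ⟨h1, h2, h3⟩ := hi'
    have hx : i / s < s := Nat.div_lt_of_lt_mul h1
    have hy : i % s < s := Nat.mod_lt _ hs0
    show (i / s, i % s) ∈ wrongsIn f n k X Y
    unfold wrongsIn
    rw [← hs, Finset.mem_filter, Finset.mem_product, Finset.mem_range, Finset.mem_range]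
    refine ⟨⟨hx, hy⟩, Or.inl ⟨?_, h3⟩⟩
    by_contra h4
    push Not at h4
    have l1 := block_lt hk hX hx
    have l2 := block_lt hk hY hy
    rw [← hs] at l1 l2
    exact h2 (h _ (by omega) _ (by omega) h4)
  · intro i _ j _ hij
    simp only [Prod.mk.injEq] at hij
    rw [← Nat.div_add_mod i s, ← Nat.div_add_mod j s, hij.1, hij.2]

/-- All pixels at distance at least `2 ^ (-n)` have escaped at large times. -/
lemma exists_all_big (n : ℕ) : ∃ N, ∀ x < 8 * 2 ^ n + 1, ∀ y < 8 * 2 ^ n + 1,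
    1 / 2 ^ n ≤ dM (pt (gq n x y)) → Big 9 (gq n x y) (N + 1) := by
  set K : Set ℂ := {w : ℂ | ‖w‖ ≤ 8 ∧ 1 / 2 ^ n ≤ dM w} with hK
  have hKc : IsCompact K := by
    have h1 : IsClosed K := by
      apply IsClosed.inter
      · exact isClosed_le continuous_norm continuous_const
      · exact isClosed_le continuous_const continuous_dM
    apply (isCompact_closedBall (0 : ℂ) 8).of_isClosed_subset h1
    intro z hz
    rw [mem_closedBall_zero_iff]
    exact hz.1
  obtain ⟨N, hN⟩ := esc_large hKc (fun z hz => dM_pos (lt_of_lt_of_le (by positivity) hz.2)) 3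
  refine ⟨N, ?_⟩
  intro x hx y hy hd
  have hJ0 : (0 : ℝ) < 2 ^ n := by positivity
  have hnorm : ‖pt (gq n x y)‖ ≤ 8 := by
    refine (Complex.norm_le_abs_re_add_abs_im _).trans ?_
    rw [pt_gq]
    simp only
    have key : ∀ t : ℕ, t < 8 * 2 ^ n + 1 → |((t : ℝ) - 4 * 2 ^ n) / 2 ^ n| ≤ 4 := by
      intro t ht
      have ht' : (t : ℝ) ≤ 8 * 2 ^ n := by
        have : t ≤ 8 * 2 ^ n := by omega
        exact_mod_cast this
      have ht0 : (0 : ℝ) ≤ t := Nat.cast_nonneg _
      rw [abs_div, abs_of_pos hJ0, div_le_iff₀ hJ0, abs_le]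
      constructor <;> linarith
    have := key x hx
    have := key y hy
    linarith
  have h6 := hN (N + 1) (by omega) (pt (gq n x y)) ⟨hnorm, hd⟩
  rw [big_iff _ _ (gq_pos _ _ _)]
  push_cast
  nlinarith

/-- Escape times from the blocks. -/
lemma time_of_badsIn {f : ℕ × ℕ × ℕ → ℕ} {n N k : ℕ} (hn : k + 3 ≤ n)
    (h1 : ∀ X < 8 * 2 ^ (k + 3), ∀ Y < 8 * 2 ^ (k + 3),
      2 * (badsIn f n (k + 3) X Y (N + 1)).card < 4 ^ (n - (k + 3)))
    (h2 : ∀ X < 8 * 2 ^ (k + 3), ∀ Y < 8 * 2 ^ (k + 3),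
      2 * (wrongsIn f n (k + 3) X Y).card < 4 ^ (n - (k + 3)))
    {w : ℂ} (hw : 1 / 2 ^ k < dM w) : 3 < ‖P (N + 4) w‖ := by
  classical
  by_contra hcon
  -- the point is in the disc
  have hw3 : ‖w‖ < 3 := by
    by_contra h3
    push Not at h3
    have := growth h3 (N + 3)
    have h4 : (2 : ℝ) ^ 2 ≤ 2 ^ (2 ^ (N + 3)) := by
      apply pow_le_pow_right₀ (by norm_num)
      calc 2 = 2 ^ 1 := by norm_num
        _ ≤ 2 ^ (N + 3) := Nat.pow_le_pow_right (by norm_num) (by omega)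
    apply hcon
    show 3 < ‖P (N + 3 + 1) w‖
    linarith
  have hball : ∀ y : ℂ, ‖y - w‖ ≤ 1 / 2 ^ k / 4 → ‖P (N + 1) y‖ ≤ 3 := by
    intro y hy
    by_contra h3
    push Not at h3
    exact hcon (time_of_near (N := N + 1) (by omega) hw (by positivity) hy h3 (by omega))
  set L := k + 3 with hL
  set s := 2 ^ (n - L) with hs
  have hs0 : 0 < s := by positivity
  have hLp : (0 : ℝ) < 2 ^ L := by positivity
  have h2n : (0 : ℝ) < 2 ^ n := by positivity
  have hk0 : (0 : ℝ) < 2 ^ k := by positivity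
  have hLk : (1 : ℝ) / 2 ^ L = 1 / 2 ^ k / 8 := by
    rw [hL, pow_add]
    field_simp
    norm_num
  have h2s : (2 : ℝ) ^ n = 2 ^ L * s := by
    rw [hs]
    push_cast
    rw [← pow_add, Nat.add_sub_cancel' hn]
  have hsp : (0 : ℝ) < s := by exact_mod_cast hs0
  -- the coordinates
  have coord : ∀ t : ℝ, |t| < 3 → ∃ X < 8 * 2 ^ L, ∀ a < s,
      |(((X * s + a : ℕ) : ℝ) - 4 * 2 ^ n) / 2 ^ n - t| ≤ 1 / 2 ^ k / 8 := by
    intro t ht
    rw [abs_lt] at ht
    have h0 : 0 ≤ (t + 4) * 2 ^ L := mul_nonneg (by linarith) hLp.le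
    refine ⟨⌊(t + 4) * 2 ^ L⌋₊, ?_, fun a ha => ?_⟩
    · rw [Nat.floor_lt h0]
      push_cast
      nlinarith
    · have h3 := Nat.floor_le h0
      have h4 := Nat.lt_floor_add_one ((t + 4) * 2 ^ L)
      have ha' : (a : ℝ) ≤ s := by exact_mod_cast ha.le
      have ha0 : (0 : ℝ) ≤ a := Nat.cast_nonneg _
      have e : (((⌊(t + 4) * 2 ^ L⌋₊ * s + a : ℕ) : ℝ) - 4 * 2 ^ n) / 2 ^ n - t
          = ((⌊(t + 4) * 2 ^ L⌋₊ : ℝ) + a / s - (t + 4) * 2 ^ L) * (1 / 2 ^ L) := by
        push_cast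
        rw [h2s]
        field_simp
        ring
      rw [e, hLk, abs_mul, abs_of_pos (show (0 : ℝ) < 1 / 2 ^ k / 8 by positivity)]
      have h5 : 0 ≤ (a : ℝ) / s := by positivity
      have h6 : (a : ℝ) / s ≤ 1 := by rw [div_le_one hsp]; exact ha'
      have h7 : |(⌊(t + 4) * 2 ^ L⌋₊ : ℝ) + a / s - (t + 4) * 2 ^ L| ≤ 1 := by
        rw [abs_le]
        constructor <;> linarith
      calc |(⌊(t + 4) * 2 ^ L⌋₊ : ℝ) + a / s - (t + 4) * 2 ^ L| * (1 / 2 ^ k / 8)
          ≤ 1 * (1 / 2 ^ k / 8) := mul_le_mul_of_nonneg_right h7 (by positivity)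
        _ = _ := one_mul _
  obtain ⟨X, hX, hX2⟩ := coord w.re ((Complex.abs_re_le_norm w).trans_lt hw3)
  obtain ⟨Y, hY, hY2⟩ := coord w.im ((Complex.abs_im_le_norm w).trans_lt hw3)
  -- the pixels
  have hpix : ∀ a < s, ∀ b < s,
      (Bad f n (N + 1) (X * s + a) (Y * s + b) ∨ Wrong f n (X * s + a, Y * s + b)) := by
    intro a ha b hb
    have ha2 := hX2 a ha
    have hb2 := hY2 b hb
    set g := pt (gq n (X * s + a) (Y * s + b)) with hg
    have hgw : ‖g - w‖ ≤ 1 / 2 ^ k / 4 := by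
      refine (Complex.norm_le_abs_re_add_abs_im _).trans ?_
      rw [hg, pt_gq]
      simp only [Complex.sub_re, Complex.sub_im]
      linarith
    have h3 := hball g hgw
    have h4 : ¬ Big 9 (gq n (X * s + a) (Y * s + b)) (N + 1) := by
      rw [big_iff _ _ (gq_pos _ _ _)]
      push_cast
      push Not
      nlinarith [norm_nonneg (P (N + 1) (pt (gq n (X * s + a) (Y * s + b))))]
    by_cases h5 : f (X * s + a, Y * s + b, n) = 1
    · left
      exact ⟨h4, by rw [h5]; norm_num⟩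
    · right
      right
      refine ⟨?_, h5⟩
      have h6 := dM_le_add w g
      rw [norm_sub_rev] at h6
      have h7 : (2 : ℝ) / 2 ^ n ≤ 1 / 2 ^ k / 4 := by
        have h8 : (1 : ℝ) / 2 ^ n ≤ 1 / 2 ^ L :=
          one_div_le_one_div_of_le hLp (pow_le_pow_right₀ (by norm_num) hn)
        rw [hLk] at h8
        have e : (2 : ℝ) / 2 ^ n = 2 * (1 / 2 ^ n) := by ring
        rw [e]
        linarith
      show 2 / 2 ^ n < dM g
      have : (0 : ℝ) < 1 / 2 ^ k := by positivity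
      linarith
  -- the count
  have hcount : s * s ≤ (badsIn f n L X Y (N + 1)).card + (wrongsIn f n L X Y).card := by
    have h3 : ((Finset.range s) ×ˢ (Finset.range s)).card = s * s := by
      rw [Finset.card_product, Finset.card_range]
    rw [← h3]
    have h4 : (badsIn f n L X Y (N + 1)).card + (wrongsIn f n L X Y).card
        = ((badsIn f n L X Y (N + 1)).disjSum (wrongsIn f n L X Y)).card := by
      rw [Finset.card_disjSum]
    rw [h4]
    have hmd : ∀ a b : ℕ, b < s → (a * s + b) / s = a ∧ (a * s + b) % s = b := by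
      intro a b hb
      constructor
      · rw [mul_comm, Nat.mul_add_div hs0, Nat.div_eq_of_lt hb, add_zero]
      · rw [mul_comm, Nat.mul_add_mod, Nat.mod_eq_of_lt hb]
    apply Finset.card_le_card_of_injOn (fun q : ℕ × ℕ =>
      if Bad f n (N + 1) (X * s + q.1) (Y * s + q.2) then
        (Sum.inl (q.1 * s + q.2) : ℕ ⊕ (ℕ × ℕ)) else Sum.inr (q.1, q.2))
    · rintro ⟨a, b⟩ hq
      simp only [Finset.coe_product, Finset.coe_range, mem_prod, mem_Iio] at hq
      obtain ⟨ha, hb⟩ := hq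
      have p3 := hpix a ha b hb
      show (if Bad f n (N + 1) (X * s + a) (Y * s + b) then
        (Sum.inl (a * s + b) : ℕ ⊕ (ℕ × ℕ)) else Sum.inr (a, b)) ∈ _
      split_ifs with hbad
      · rw [Finset.mem_coe, Finset.inl_mem_disjSum]
        unfold badsIn
        rw [← hs, Finset.mem_filter, Finset.mem_range, (hmd a b hb).1, (hmd a b hb).2]
        exact ⟨by nlinarith, hbad⟩
      · rw [Finset.mem_coe, Finset.inr_mem_disjSum]
        unfold wrongsIn
        rw [← hs, Finset.mem_filter, Finset.mem_product, Finset.mem_range, Finset.mem_range]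
        exact ⟨⟨ha, hb⟩, p3.resolve_left hbad⟩
    · rintro ⟨a, b⟩ hq ⟨a', b'⟩ hq' he
      simp only [Finset.coe_product, Finset.coe_range, mem_prod, mem_Iio] at hq hq'
      obtain ⟨ha, hb⟩ := hq
      obtain ⟨ha', hb'⟩ := hq'
      simp only at he
      split_ifs at he with c1 c2 c2
      · have he' := Sum.inl.inj he
        have e1 : a = a' := by rw [← (hmd a b hb).1, ← (hmd a' b' hb').1, he']
        have e2 : b = b' := by rw [← (hmd a b hb).2, ← (hmd a' b' hb').2, he']
        rw [e1, e2]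
      · exact Sum.inr.inj he
  have c1 := h1 X hX Y hY
  have c2 := h2 X hX Y hY
  have c3 : s * s = 4 ^ (n - L) := by
    rw [hs, ← mul_pow]; norm_num
  omega

/-! ### Computability -/

lemma badsIn_eq (f : ℕ × ℕ × ℕ → ℕ) (n k X Y N : ℕ) :
    (badsIn f n k X Y N).card = Nat.rec 0 (fun i acc => acc +
      (if Bad f n N (X * 2 ^ (n - k) + i / 2 ^ (n - k)) (Y * 2 ^ (n - k) + i % 2 ^ (n - k))
        then 1 else 0)) (2 ^ (n - k) * 2 ^ (n - k)) := by
  have key : ∀ m : ℕ, (Nat.rec 0 (fun i acc => acc +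
      (if Bad f n N (X * 2 ^ (n - k) + i / 2 ^ (n - k)) (Y * 2 ^ (n - k) + i % 2 ^ (n - k))
        then 1 else 0)) m : ℕ) = ((Finset.range m).filter
      (fun i => Bad f n N (X * 2 ^ (n - k) + i / 2 ^ (n - k))
        (Y * 2 ^ (n - k) + i % 2 ^ (n - k)))).card := by
    intro m
    induction m with
    | zero => rfl
    | succ m ih =>
      rw [Finset.range_add_one, Finset.filter_insert]
      show (Nat.rec 0 _ m : ℕ) + _ = _
      rw [ih]
      by_cases h : Bad f n N (X * 2 ^ (n - k) + m / 2 ^ (n - k)) (Y * 2 ^ (n - k) + m % 2 ^ (n - k))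
      · rw [if_pos h, if_pos h, Finset.card_insert_of_notMem]
        simp
      · rw [if_neg h, if_neg h, add_zero]
  rw [key]
  rfl

section comp

variable {α : Type*} [Primcodable α]

lemma cpow2 {f : α → ℕ} (hf : Computable f) : Computable fun a => 2 ^ f a :=
  (ppow (α := ℕ) (pconst 2) Primrec.id).to_comp.comp hf

lemma csub {f g : α → ℕ} (hf : Computable f) (hg : Computable g) : Computable fun a => f a - g a :=
  Primrec.nat_sub.to_comp.comp hf hg

lemma cbadsIn {f : ℕ × ℕ × ℕ → ℕ} (hf : Computable f) {n k X Y N : α → ℕ}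
    (hn : Computable n) (hk : Computable k) (hX : Computable X) (hY : Computable Y)
    (hN : Computable N) :
    Computable fun u => (badsIn f (n u) (k u) (X u) (Y u) (N u)).card := by
  have f1 : Computable fun p : α × ℕ => p.1 := Computable.fst
  have f2 : Computable fun p : α × ℕ => p.2 := Computable.snd
  have hs : Computable fun u => 2 ^ (n u - k u) := cpow2 (csub hn hk)
  have hs1 := hs.comp f1
  have hx : Computable fun p : α × ℕ => X p.1 * 2 ^ (n p.1 - k p.1) + p.2 / 2 ^ (n p.1 - k p.1) :=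
    cadd (cmul (hX.comp f1) hs1) (Primrec.nat_div.to_comp.comp f2 hs1)
  have hy : Computable fun p : α × ℕ => Y p.1 * 2 ^ (n p.1 - k p.1) + p.2 % 2 ^ (n p.1 - k p.1) :=
    cadd (cmul (hY.comp f1) hs1) (Primrec.nat_mod.to_comp.comp f2 hs1)
  have ht := cbind_aux hf (hn.comp f1) (hN.comp f1) hx hy
  have h := csum (t := fun u i => if Bad f (n u) (N u) (X u * 2 ^ (n u - k u) + i / 2 ^ (n u - k u))
    (Y u * 2 ^ (n u - k u) + i % 2 ^ (n u - k u)) then 1 else 0) ht (cmul hs hs)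
  exact h.of_eq (fun u => (badsIn_eq f (n u) (k u) (X u) (Y u) (N u)).symm)

end comp

/-- The indicator of a block which violates the condition. -/
def viol (f : ℕ × ℕ × ℕ → ℕ) (n k N j : ℕ) : ℕ :=
  (1 + 2 * (badsIn f n k (j / (8 * 2 ^ k)) (j % (8 * 2 ^ k)) (N + 1)).card) - 4 ^ (n - k)

/-- The sum. -/
def viols (f : ℕ × ℕ × ℕ → ℕ) (n k N : ℕ) : ℕ :=
  Nat.rec 0 (fun j acc => acc + viol f n k N j) ((8 * 2 ^ k) * (8 * 2 ^ k))

lemma viols_zero (f : ℕ × ℕ × ℕ → ℕ) (n k N : ℕ) : viols f n k N = 0 ↔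
    ∀ X < 8 * 2 ^ k, ∀ Y < 8 * 2 ^ k, 2 * (badsIn f n k X Y (N + 1)).card < 4 ^ (n - k) := by
  have key : ∀ m : ℕ, (Nat.rec 0 (fun j acc => acc + viol f n k N j) m : ℕ) = 0 ↔
      ∀ j < m, viol f n k N j = 0 := by
    intro m
    induction m with
    | zero => simp
    | succ m ih =>
      show (Nat.rec 0 _ m : ℕ) + _ = 0 ↔ _
      rw [Nat.add_eq_zero_iff, ih]
      constructor
      · rintro ⟨h, h'⟩ j hj
        rcases Nat.lt_succ_iff_lt_or_eq.mp hj with h2 | h2
        · exact h j h2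
        · rw [h2]; exact h'
      · intro h
        exact ⟨fun j hj => h j (by omega), h m (by omega)⟩
  unfold viols
  rw [key]
  set B := 8 * 2 ^ k with hB
  have hB0 : 0 < B := by positivity
  constructor
  · intro h X hX Y hY
    have h2 := h (X * B + Y) (by nlinarith)
    have e1 : (X * B + Y) / B = X := by
      rw [mul_comm, Nat.mul_add_div hB0, Nat.div_eq_of_lt hY, add_zero]
    have e2 : (X * B + Y) % B = Y := by
      rw [mul_comm, Nat.mul_add_mod, Nat.mod_eq_of_lt hY]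
    unfold viol at h2
    rw [← hB, e1, e2] at h2
    omega
  · intro h j hj
    have h2 := h (j / B) (Nat.div_lt_of_lt_mul hj) (j % B) (Nat.mod_lt _ hB0)
    unfold viol
    rw [← hB]
    omega

lemma cviols {α : Type*} [Primcodable α] {f : ℕ × ℕ × ℕ → ℕ} (hf : Computable f) {n k N : α → ℕ}
    (hn : Computable n) (hk : Computable k) (hN : Computable N) :
    Computable fun u => viols f (n u) (k u) (N u) := by
  have f1 : Computable fun p : α × ℕ => p.1 := Computable.fst
  have f2 : Computable fun p : α × ℕ => p.2 := Computable.snd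
  have hB : Computable fun u => 8 * 2 ^ k u := cmul (Computable.const 8) (cpow2 hk)
  have hB1 := hB.comp f1
  have h4 : Computable fun u => 4 ^ (n u - k u) :=
    (ppow (α := ℕ) (pconst 4) Primrec.id).to_comp.comp (csub hn hk)
  have hb : Computable fun p : α × ℕ => (badsIn f (n p.1) (k p.1) (p.2 / (8 * 2 ^ k p.1))
      (p.2 % (8 * 2 ^ k p.1)) (N p.1 + 1)).card :=
    cbadsIn hf (hn.comp f1) (hk.comp f1) (Primrec.nat_div.to_comp.comp f2 hB1)
      (Primrec.nat_mod.to_comp.comp f2 hB1) (cadd (hN.comp f1) (Computable.const 1))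
  have hv : Computable fun p : α × ℕ => viol f (n p.1) (k p.1) (N p.1) p.2 :=
    csub (cadd (Computable.const 1) (cmul (Computable.const 2) hb)) (h4.comp f1)
  exact csum (t := fun u j => viol f (n u) (k u) (N u) j) hv (cmul hB hB)

attribute [irreducible] viols

/-- Pictures in which the majority of the pixels of every block is right give the computability
of `M`. -/
theorem comp_of_maj {f : ℕ × ℕ × ℕ → ℕ} {ρ : ℕ → ℕ} (hf : Computable f) (hρ : Computable ρ)
    (h : ∀ k, k ≤ ρ k ∧ ∀ X < 8 * 2 ^ k, ∀ Y < 8 * 2 ^ k,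
      2 * (wrongsIn f (ρ k) k X Y).card < 4 ^ (ρ k - k)) : CompM := by
  have hK : Computable fun k : ℕ => k + 3 := (padd (α := ℕ) Primrec.id (pconst 3)).to_comp
  have hbc : Computable fun u : ℕ × ℕ => decide (viols f (ρ (u.1 + 3)) (u.1 + 3) u.2 ≤ 0) := by
    have hk1 : Computable fun u : ℕ × ℕ => u.1 + 3 := hK.comp Computable.fst
    have hr : Computable fun u : ℕ × ℕ => ρ (u.1 + 3) := hρ.comp hk1
    exact cle (cviols hf hr hk1 Computable.snd) (Computable.const 0)
  have hex : ∀ k, ∃ N, viols f (ρ (k + 3)) (k + 3) N ≤ 0 := by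
    intro k
    obtain ⟨N, hN⟩ := exists_all_big (ρ (k + 3))
    refine ⟨N, ?_⟩
    rw [Nat.le_zero, viols_zero]
    intro X hX Y hY
    have h1 := badsIn_le (f := f) (h (k + 3)).1 hX hY hN
    have h2 := (h (k + 3)).2 X hX Y hY
    omega
  have hc : Computable fun k => Nat.find (hex k) :=
    Computable.find (P := fun k N => viols f (ρ (k + 3)) (k + 3) N ≤ 0) hbc.computablePred hex
  have h4 : Computable fun k => Nat.find (hex k) + 4 :=
    (padd (α := ℕ) Primrec.id (pconst 4)).to_comp.comp hc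
  refine comp_of_time h4 (fun k w hw => ?_)
  have hspec := Nat.find_spec (hex k)
  rw [Nat.le_zero, viols_zero] at hspec
  exact time_of_badsIn (h (k + 3)).1 hspec (h (k + 3)).2 hw

theorem comp_iff_maj : CompM ↔ ∃ (f : ℕ × ℕ × ℕ → ℕ) (ρ : ℕ → ℕ), Computable f ∧ Computable ρ ∧
    ∀ k, k ≤ ρ k ∧ ∀ X < 8 * 2 ^ k, ∀ Y < 8 * 2 ^ k,
      2 * (wrongsIn f (ρ k) k X Y).card < 4 ^ (ρ k - k) := by
  constructor
  · intro h
    obtain ⟨f, hf, h0⟩ := avg_of_comp h
    refine ⟨f, id, hf, Computable.id, fun k => ⟨le_rfl, fun X hX Y hY => ?_⟩⟩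
    have hz : wrongsIn f k k X Y = ∅ := by
      classical
      unfold wrongsIn
      rw [Finset.filter_eq_empty_iff]
      rintro ⟨a, b⟩ hq hW
      have h1 := h0 k
      rw [Finset.card_eq_zero] at h1
      unfold wrongs at h1
      rw [Finset.filter_eq_empty_iff] at h1
      rw [Finset.mem_product, Finset.mem_range, Finset.mem_range] at hq
      have l1 := block_lt (le_refl k) hX hq.1
      have l2 := block_lt (le_refl k) hY hq.2
      apply h1 (x := (X * 2 ^ (k - k) + a, Y * 2 ^ (k - k) + b)) _ hW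
      rw [Finset.mem_product, Finset.mem_range, Finset.mem_range]
      exact ⟨by omega, by omega⟩
    show 2 * (wrongsIn f k k X Y).card < 4 ^ (k - k)
    rw [hz]
    simp
  · rintro ⟨f, ρ, hf, hρ, h⟩
    exact comp_of_maj hf hρ h

end Pool.MP_500150_lc.H8
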