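import Mathlib
import Pool.Agent.Work.MP_500150_lc.H8.Fwd
import Pool.Agent.Work.MP_500150_lc.H8.Chain

set_option autoImplicit false

/-!
# A c.e. set of squares between the squares inside `M` and the squares which meet `M`
-/

namespace Pool.MP_500150_lc.H8

open Metric Set

/-- The closed dyadic square of level `n` with indices `x`, `y`. -/
def Sq (n x y : ℕ) : Set ℂ :=
  {c : ℂ | (x : ℝ) / 2 ^ n - 4 ≤ c.re ∧ c.re ≤ ((x : ℝ) + 1) / 2 ^ n - 4 ∧
    (y : ℝ) / 2 ^ n - 4 ≤ c.im ∧ c.im ≤ ((y : ℝ) + 1) / 2 ^ n - 4}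

/-! ### Stages -/

lemma re_stage {α : Type*} [Primcodable α] {p : α → Prop} (hp : REPred p) :
    ∃ e : α × ℕ → Bool, Primrec e ∧ (∀ a s t, s ≤ t → e (a, s) = true → e (a, t) = true) ∧
      ∀ a, p a ↔ ∃ s, e (a, s) = true := by
  unfold REPred at hp
  obtain ⟨c, hc⟩ := Nat.Partrec.Code.exists_code.mp hp
  refine ⟨fun q => (Nat.Partrec.Code.evaln q.2 c (Encodable.encode q.1)).isSome, ?_, ?_, ?_⟩
  · have h1 : Primrec fun q : α × ℕ => Nat.Partrec.Code.evaln q.2 c (Encodable.encode q.1) :=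
      Nat.Partrec.Code.primrec_evaln.comp
        ((Primrec.snd.pair (Primrec.const c)).pair (Primrec.encode.comp Primrec.fst))
    exact Primrec.option_isSome.comp h1
  · intro a s t hst h
    simp only at h ⊢
    rw [Option.isSome_iff_exists] at h ⊢
    obtain ⟨x, hx⟩ := h
    exact ⟨x, Nat.Partrec.Code.evaln_mono hst hx⟩
  · intro a
    have h2 : (Nat.Partrec.Code.eval c (Encodable.encode a)).Dom ↔ p a := by
      rw [hc]
      simp only [Encodable.encodek, Part.coe_some, Part.bind_some, Part.map_Dom]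
      constructor
      · rintro ⟨h, -⟩
        exact h
      · intro h
        exact ⟨h, trivial⟩
    rw [← h2]
    constructor
    · intro h
      obtain ⟨x, hx⟩ := Part.dom_iff_mem.mp h
      obtain ⟨k, hk⟩ := Nat.Partrec.Code.evaln_complete.mp hx
      refine ⟨k, ?_⟩
      simp only
      rw [Option.isSome_iff_exists]
      exact ⟨x, hk⟩
    · rintro ⟨k, hk⟩
      simp only at hk
      rw [Option.isSome_iff_exists] at hk
      obtain ⟨x, hx⟩ := hk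
      exact Part.dom_iff_mem.mpr ⟨x, Nat.Partrec.Code.evaln_sound hx⟩

/-! ### The test -/

/-- Some test point of the square escapes. -/
def ET (x y L N : ℕ) : Prop :=
  ∃ a < 2 ^ N + 1, ∃ b < 2 ^ N + 1, Big 9 (gq (L + N) (x * 2 ^ N + a) (y * 2 ^ N + b)) (N + 1)

section prim

variable {α : Type*} [Primcodable α]

lemma pexists {f : α → ℕ} {p : α × ℕ → Prop} (hf : Primrec f) (hp : PrimrecPred p) :
    PrimrecPred fun a => ∃ x < f a, p (a, x) := by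
  have h1 : PrimrecRel fun (x : ℕ) (a : α) => p (a, x) :=
    hp.comp (Primrec.snd.pair Primrec.fst)
  have h2 := h1.exists_mem_list
  have h3 : PrimrecPred fun a : α => ∃ x ∈ List.range (f a), p (a, x) :=
    h2.comp (Primrec.list_range.comp hf) Primrec.id
  exact h3.of_eq (fun a => by simp)

lemma pET {x y L N : α → ℕ} (hx : Primrec x) (hy : Primrec y) (hL : Primrec L) (hN : Primrec N) :
    PrimrecPred fun u => ET (x u) (y u) (L u) (N u) := by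
  have hB : Primrec fun u => 2 ^ N u + 1 := padd (ppow (pconst 2) hN) (pconst 1)
  have f1 : Primrec fun p : (α × ℕ) × ℕ => p.1.1 := Primrec.fst.comp Primrec.fst
  have fa : Primrec fun p : (α × ℕ) × ℕ => p.1.2 := Primrec.snd.comp Primrec.fst
  have fb : Primrec fun p : (α × ℕ) × ℕ => p.2 := Primrec.snd
  have hN' := hN.comp f1
  have h2N := ppow (pconst (α := (α × ℕ) × ℕ) 2) hN'
  have hin : PrimrecPred fun p : (α × ℕ) × ℕ =>
      Big 9 (gq (L p.1.1 + N p.1.1) (x p.1.1 * 2 ^ N p.1.1 + p.1.2) (y p.1.1 * 2 ^ N p.1.1 + p.2))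
        (N p.1.1 + 1) :=
    pbig 9 (pgq (padd (hL.comp f1) hN') (padd (pmul (hx.comp f1) h2N) fa)
      (padd (pmul (hy.comp f1) h2N) fb)) (padd hN' (pconst 1))
  have h1 := pexists (hB.comp (Primrec.fst (α := α) (β := ℕ))) hin
  exact pexists hB h1

end prim

/-- The search condition. -/
def SC (e : (ℕ × ℕ × ℕ) × ℕ → Bool) (k N : ℕ) : Prop :=
  ∀ x < 8 * 2 ^ (k + 3), ∀ y < 8 * 2 ^ (k + 3), ET x y (k + 3) N ∨ e ((x, y, k + 3), N) = true

lemma pSC {e : (ℕ × ℕ × ℕ) × ℕ → Bool} (he : Primrec e) :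
    PrimrecPred fun u : ℕ × ℕ => SC e u.1 u.2 := by
  have hB : Primrec fun u : ℕ × ℕ => 8 * 2 ^ (u.1 + 3) :=
    pmul (pconst 8) (ppow (pconst 2) (padd Primrec.fst (pconst 3)))
  have f1 : Primrec fun p : ((ℕ × ℕ) × ℕ) × ℕ => p.1.1 := Primrec.fst.comp Primrec.fst
  have fx : Primrec fun p : ((ℕ × ℕ) × ℕ) × ℕ => p.1.2 := Primrec.snd.comp Primrec.fst
  have fy : Primrec fun p : ((ℕ × ℕ) × ℕ) × ℕ => p.2 := Primrec.snd
  have fL : Primrec fun p : ((ℕ × ℕ) × ℕ) × ℕ => p.1.1.1 + 3 := padd (Primrec.fst.comp f1) (pconst 3)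
  have fN : Primrec fun p : ((ℕ × ℕ) × ℕ) × ℕ => p.1.1.2 := Primrec.snd.comp f1
  have h1 : Primrec fun p : ((ℕ × ℕ) × ℕ) × ℕ => e ((p.1.2, p.2, p.1.1.1 + 3), p.1.1.2) :=
    he.comp ((fx.pair (fy.pair fL)).pair fN)
  have h2 : PrimrecPred fun p : ((ℕ × ℕ) × ℕ) × ℕ => e ((p.1.2, p.2, p.1.1.1 + 3), p.1.1.2) = true :=
    Primrec.eq.comp h1 (Primrec.const true)
  have hin : PrimrecPred fun p : ((ℕ × ℕ) × ℕ) × ℕ =>
      ET p.1.2 p.2 (p.1.1.1 + 3) p.1.1.2 ∨ e ((p.1.2, p.2, p.1.1.1 + 3), p.1.1.2) = true :=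
    (pET fx fy fL fN).or h2
  have h3 := pforall (hB.comp (Primrec.fst (α := ℕ × ℕ) (β := ℕ))) hin
  exact pforall hB h3

/-- The test point is in the square. -/
lemma test_mem {x y L N a b : ℕ} (ha : a < 2 ^ N + 1) (hb : b < 2 ^ N + 1) :
    pt (gq (L + N) (x * 2 ^ N + a) (y * 2 ^ N + b)) ∈ Sq L x y := by
  have hL : (0 : ℝ) < 2 ^ L := by positivity
  have hN : (0 : ℝ) < 2 ^ N := by positivity
  have key : ∀ t u : ℕ, u < 2 ^ N + 1 →
      (t : ℝ) / 2 ^ L - 4 ≤ (((t * 2 ^ N + u : ℕ) : ℝ) - 4 * 2 ^ (L + N)) / 2 ^ (L + N) ∧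
      (((t * 2 ^ N + u : ℕ) : ℝ) - 4 * 2 ^ (L + N)) / 2 ^ (L + N) ≤ ((t : ℝ) + 1) / 2 ^ L - 4 := by
    intro t u hu
    have hu' : (u : ℝ) ≤ 2 ^ N := by
      have : u ≤ 2 ^ N := by omega
      exact_mod_cast this
    have hu0 : (0 : ℝ) ≤ u := Nat.cast_nonneg _
    have e : (((t * 2 ^ N + u : ℕ) : ℝ) - 4 * 2 ^ (L + N)) / 2 ^ (L + N)
        = ((t : ℝ) + u / 2 ^ N) / 2 ^ L - 4 := by
      push_cast
      rw [pow_add]
      field_simp
    rw [e]
    have h1 : 0 ≤ (u : ℝ) / 2 ^ N := by positivity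
    have h2 : (u : ℝ) / 2 ^ N ≤ 1 := by rw [div_le_one hN]; exact hu'
    constructor
    · apply sub_le_sub_right
      apply div_le_div_of_nonneg_right _ hL.le
      linarith
    · apply sub_le_sub_right
      apply div_le_div_of_nonneg_right _ hL.le
      linarith
  rw [pt_gq]
  exact ⟨(key x a ha).1, (key x a ha).2, (key y b hb).1, (key y b hb).2⟩

/-- A square which is not inside `M` has an escaping test point at all large times. -/
lemma et_eventually {x y L : ℕ} (h : ¬ Sq L x y ⊆ MM) : ∀ᶠ N in Filter.atTop, ET x y L N := by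
  rw [not_subset] at h
  obtain ⟨v, hv, hvM⟩ := h
  obtain ⟨ε, hε, hball⟩ := Metric.isOpen_iff.mp isClosed_MM.isOpen_compl v hvM
  obtain ⟨N₀, hN₀⟩ := esc_large (isCompact_closedBall v (ε / 2))
    (fun c hc hcM => hball (closedBall_subset_ball (by linarith) hc) hcM) 3
  obtain ⟨n₀, hn₀⟩ := exists_pow_lt_of_lt_one (show 0 < ε / 4 by positivity) (show (1 / 2 : ℝ) < 1 by norm_num)
  filter_upwards [Filter.eventually_ge_atTop (max N₀ n₀)] with N hN
  have hN1 : N₀ ≤ N := (le_max_left _ _).trans hN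
  have hN2 : n₀ ≤ N := (le_max_right _ _).trans hN
  have hL : (0 : ℝ) < 2 ^ L := by positivity
  have hNp : (0 : ℝ) < 2 ^ N := by positivity
  have hsmall : (1 : ℝ) / 2 ^ (L + N) < ε / 4 := by
    refine lt_of_le_of_lt ?_ hn₀
    rw [one_div_pow]
    apply one_div_le_one_div_of_le (by positivity)
    exact pow_le_pow_right₀ (by norm_num) (by omega)
  obtain ⟨v1, v2, v3, v4⟩ := hv
  have key : ∀ (t : ℕ) (r : ℝ), (t : ℝ) / 2 ^ L - 4 ≤ r → r ≤ ((t : ℝ) + 1) / 2 ^ L - 4 →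
      ∃ u < 2 ^ N + 1, |(((t * 2 ^ N + u : ℕ) : ℝ) - 4 * 2 ^ (L + N)) / 2 ^ (L + N) - r|
        ≤ 1 / 2 ^ (L + N) := by
    intro t r h1 h2
    set s : ℝ := ((r + 4) * 2 ^ L - t) * 2 ^ N with hs
    have hs0 : 0 ≤ s := by
      apply mul_nonneg _ hNp.le
      have : (t : ℝ) / 2 ^ L ≤ r + 4 := by linarith
      rw [div_le_iff₀ hL] at this
      linarith
    have hs1 : s ≤ 2 ^ N := by
      have : r + 4 ≤ ((t : ℝ) + 1) / 2 ^ L := by linarith
      rw [le_div_iff₀ hL] at this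
      have h3 : (r + 4) * 2 ^ L - t ≤ 1 := by linarith
      calc s ≤ 1 * 2 ^ N := mul_le_mul_of_nonneg_right h3 hNp.le
        _ = 2 ^ N := one_mul _
    refine ⟨⌊s⌋₊, ?_, ?_⟩
    · rw [Nat.floor_lt hs0]
      push_cast
      linarith
    · have h3 := Nat.floor_le hs0
      have h4 := Nat.lt_floor_add_one s
      have e : (((t * 2 ^ N + ⌊s⌋₊ : ℕ) : ℝ) - 4 * 2 ^ (L + N)) / 2 ^ (L + N) - r
          = ((⌊s⌋₊ : ℝ) - s) / 2 ^ (L + N) := by
        rw [hs]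
        push_cast
        rw [pow_add]
        field_simp
        ring
      rw [e, abs_div, abs_of_pos (show (0 : ℝ) < 2 ^ (L + N) by positivity)]
      apply div_le_div_of_nonneg_right _ (by positivity)
      rw [abs_le]
      constructor <;> linarith
  obtain ⟨a, ha, ha2⟩ := key x v.re v1 v2
  obtain ⟨b, hb, hb2⟩ := key y v.im v3 v4
  refine ⟨a, ha, b, hb, ?_⟩
  rw [big_iff _ _ (gq_pos _ _ _)]
  have hnear : ‖pt (gq (L + N) (x * 2 ^ N + a) (y * 2 ^ N + b)) - v‖ ≤ ε / 2 := by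
    rw [pt_gq]
    refine (Complex.norm_le_abs_re_add_abs_im _).trans ?_
    simp only [Complex.sub_re, Complex.sub_im]
    linarith
  have h5 := hN₀ (N + 1) (by omega) _ (by rw [mem_closedBall, dist_eq_norm]; exact hnear)
  push_cast
  nlinarith

lemma exists_SC {p : ℕ × ℕ × ℕ → Prop} {e : (ℕ × ℕ × ℕ) × ℕ → Bool}
    (hmono : ∀ a s t, s ≤ t → e (a, s) = true → e (a, t) = true)
    (hpe : ∀ a, p a ↔ ∃ s, e (a, s) = true)
    (hp : ∀ n x y, Sq n x y ⊆ MM → p (x, y, n)) (k : ℕ) : ∃ N, SC e k N := by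
  have h1 : ∀ x y : ℕ, ∀ᶠ N in Filter.atTop, ET x y (k + 3) N ∨ e ((x, y, k + 3), N) = true := by
    intro x y
    by_cases h : Sq (k + 3) x y ⊆ MM
    · obtain ⟨s, hs⟩ := (hpe _).mp (hp _ _ _ h)
      filter_upwards [Filter.eventually_ge_atTop s] with N hN
      exact Or.inr (hmono _ _ _ hN hs)
    · filter_upwards [et_eventually h] with N hN
      exact Or.inl hN
  have h2 : ∀ᶠ N in Filter.atTop, ∀ x ∈ Finset.range (8 * 2 ^ (k + 3)),
      ∀ y ∈ Finset.range (8 * 2 ^ (k + 3)), ET x y (k + 3) N ∨ e ((x, y, k + 3), N) = true := by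
    rw [Filter.eventually_all_finset]
    intro x _
    rw [Filter.eventually_all_finset]
    intro y _
    exact h1 x y
  obtain ⟨N, hN⟩ := h2.exists
  exact ⟨N, fun x hx y hy => hN x (Finset.mem_range.mpr hx) y (Finset.mem_range.mpr hy)⟩

lemma time_of_SC {p : ℕ × ℕ × ℕ → Prop} {e : (ℕ × ℕ × ℕ) × ℕ → Bool}
    (hpe : ∀ a, p a ↔ ∃ s, e (a, s) = true)
    (hp : ∀ n x y, p (x, y, n) → (Sq n x y ∩ MM).Nonempty) {k N : ℕ} (hS : SC e k N)
    {w : ℂ} (hw : 1 / 2 ^ k < dM w) : 3 < ‖P (N + 4) w‖ := by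
  rcases le_or_gt 3 ‖w‖ with h3 | h3
  · have := growth h3 (N + 3)
    have h4 : (2 : ℝ) ^ 2 ≤ 2 ^ (2 ^ (N + 3)) := by
      apply pow_le_pow_right₀ (by norm_num)
      calc 2 = 2 ^ 1 := by norm_num
        _ ≤ 2 ^ (N + 3) := Nat.pow_le_pow_right (by norm_num) (by omega)
    show 3 < ‖P (N + 3 + 1) w‖
    linarith
  · set L := k + 3 with hL
    have hLp : (0 : ℝ) < 2 ^ L := by positivity
    have hk0 : (0 : ℝ) < 2 ^ k := by positivity
    have hLk : (1 : ℝ) / 2 ^ L = 1 / 2 ^ k / 8 := by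
      rw [hL, pow_add]
      field_simp
      norm_num
    have key : ∀ t : ℝ, |t| < 3 → ∃ x < 8 * 2 ^ L, (x : ℕ) / (2 : ℝ) ^ L - 4 ≤ t ∧
        t ≤ ((x : ℕ) + 1 : ℝ) / 2 ^ L - 4 := by
      intro t ht
      rw [abs_lt] at ht
      have h0 : 0 ≤ (t + 4) * 2 ^ L := mul_nonneg (by linarith) hLp.le
      refine ⟨⌊(t + 4) * 2 ^ L⌋₊, ?_, ?_, ?_⟩
      · rw [Nat.floor_lt h0]
        push_cast
        nlinarith
      · have h1 := Nat.floor_le h0
        have : (⌊(t + 4) * 2 ^ L⌋₊ : ℝ) / 2 ^ L ≤ t + 4 := by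
          rw [div_le_iff₀ hLp]; exact h1
        linarith
      · have h2 := Nat.lt_floor_add_one ((t + 4) * 2 ^ L)
        have : t + 4 ≤ ((⌊(t + 4) * 2 ^ L⌋₊ : ℝ) + 1) / 2 ^ L := by
          rw [le_div_iff₀ hLp]; exact h2.le
        linarith
    obtain ⟨x, hx, x1, x2⟩ := key w.re ((Complex.abs_re_le_norm w).trans_lt h3)
    obtain ⟨y, hy, y1, y2⟩ := key w.im ((Complex.abs_im_le_norm w).trans_lt h3)
    have hwS : ∀ v ∈ Sq L x y, ‖v - w‖ ≤ 1 / 2 ^ k / 4 := by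
      rintro v ⟨v1, v2, v3, v4⟩
      refine (Complex.norm_le_abs_re_add_abs_im _).trans ?_
      simp only [Complex.sub_re, Complex.sub_im]
      have e1 : ∀ t : ℝ, (t + 1) / 2 ^ L = t / 2 ^ L + 1 / 2 ^ k / 8 := by
        intro t; rw [add_div, hLk]
      rw [e1] at v2 v4 x2 y2
      have h5 : |v.re - w.re| ≤ 1 / 2 ^ k / 8 := by
        rw [abs_le]; constructor <;> linarith
      have h6 : |v.im - w.im| ≤ 1 / 2 ^ k / 8 := by
        rw [abs_le]; constructor <;> linarith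
      linarith
    have hk1 : (0 : ℝ) < 1 / 2 ^ k := by positivity
    rcases hS x hx y hy with h | h
    · obtain ⟨a, ha, b, hb, hB⟩ := h
      rw [big_iff _ _ (gq_pos _ _ _)] at hB
      push_cast at hB
      have h7 : 3 < ‖P (N + 1) (pt (gq (k + 3 + N) (x * 2 ^ N + a) (y * 2 ^ N + b)))‖ := by
        by_contra hc
        push Not at hc
        nlinarith [norm_nonneg (P (N + 1) (pt (gq (k + 3 + N) (x * 2 ^ N + a) (y * 2 ^ N + b))))]
      exact time_of_near (N := N + 1) (by omega) hw hk1 (hwS _ (test_mem ha hb)) h7 (by omega)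
    · exfalso
      have hpx : p (x, y, k + 3) := (hpe _).mpr ⟨N, h⟩
      obtain ⟨v, hv, hvM⟩ := hp _ _ _ hpx
      have h8 := hwS v hv
      have h9 : dM w ≤ ‖v - w‖ := by
        have := infDist_le_dist_of_mem (x := w) hvM
        rw [dist_comm, dist_eq_norm] at this
        exact this
      linarith

/-- A c.e. set of squares between gives the computability of `M`. -/
theorem comp_of_sep {p : ℕ × ℕ × ℕ → Prop} (hre : REPred p)
    (h1 : ∀ n x y, Sq n x y ⊆ MM → p (x, y, n))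
    (h2 : ∀ n x y, p (x, y, n) → (Sq n x y ∩ MM).Nonempty) : CompM := by
  classical
  obtain ⟨e, he, hmono, hpe⟩ := re_stage hre
  have hex : ∀ k, ∃ N, SC e k N := exists_SC hmono hpe h1
  have hc : Computable fun k => Nat.find (hex k) :=
    Computable.find (P := fun k N => SC e k N) (pSC he).computablePred hex
  have h4 : Computable fun k => Nat.find (hex k) + 4 :=
    (padd (α := ℕ) Primrec.id (pconst 4)).to_comp.comp hc
  exact comp_of_time h4 (fun k w hw => time_of_SC hpe h2 (Nat.find_spec (hex k)) hw)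

/-- The computability of `M` gives a computable set of squares between. -/
theorem sep_of_comp (h : CompM) : ∃ p : ℕ × ℕ × ℕ → Prop, ComputablePred p ∧
    (∀ n x y, Sq n x y ⊆ MM → p (x, y, n)) ∧
    (∀ n x y, p (x, y, n) → (Sq n x y ∩ MM).Nonempty) := by
  obtain ⟨F, hFc, hF⟩ := h
  refine ⟨fun q => (F (8 * q.1 + 4, 4 * 2 ^ (q.2.2 + 3), 8 * q.2.1 + 4, 4 * 2 ^ (q.2.2 + 3),
      q.2.2 + 3)).1 ≤ (F (8 * q.1 + 4, 4 * 2 ^ (q.2.2 + 3), 8 * q.2.1 + 4, 4 * 2 ^ (q.2.2 + 3),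
      q.2.2 + 3)).2 + 2, ?_, ?_, ?_⟩
  · have q1 : Primrec fun q : ℕ × ℕ × ℕ => q.1 := Primrec.fst
    have q2 : Primrec fun q : ℕ × ℕ × ℕ => q.2.1 := Primrec.fst.comp Primrec.snd
    have q3 : Primrec fun q : ℕ × ℕ × ℕ => q.2.2 := Primrec.snd.comp Primrec.snd
    have h3 : Primrec fun q : ℕ × ℕ × ℕ => q.2.2 + 3 := padd q3 (pconst 3)
    have h4 : Primrec fun q : ℕ × ℕ × ℕ => 4 * 2 ^ (q.2.2 + 3) := pmul (pconst 4) (ppow (pconst 2) h3)
    have hin : Primrec fun q : ℕ × ℕ × ℕ =>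
        (8 * q.1 + 4, 4 * 2 ^ (q.2.2 + 3), 8 * q.2.1 + 4, 4 * 2 ^ (q.2.2 + 3), q.2.2 + 3) :=
      (padd (pmul (pconst 8) q1) (pconst 4)).pair (h4.pair
        ((padd (pmul (pconst 8) q2) (pconst 4)).pair (h4.pair h3)))
    have gF := hFc.comp hin.to_comp
    exact (cle (Computable.fst.comp gF) (cadd (Computable.snd.comp gF) (Computable.const 2))).computablePred
  · intro n x y hS
    have h1 := hF (8 * x + 4) (4 * 2 ^ (n + 3)) (8 * y + 4) (4 * 2 ^ (n + 3)) (n + 3)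
    set z : ℂ := Complex.mk ((((8 * x + 4 : ℕ) : ℝ) - ((4 * 2 ^ (n + 3) : ℕ) : ℝ)) / 2 ^ (n + 3))
        ((((8 * y + 4 : ℕ) : ℝ) - ((4 * 2 ^ (n + 3) : ℕ) : ℝ)) / 2 ^ (n + 3)) with hz
    have hp : (0 : ℝ) < 2 ^ n := by positivity
    have key : ∀ t : ℕ, (t : ℝ) / 2 ^ n - 4 ≤
        (((8 * t + 4 : ℕ) : ℝ) - ((4 * 2 ^ (n + 3) : ℕ) : ℝ)) / 2 ^ (n + 3) ∧
        (((8 * t + 4 : ℕ) : ℝ) - ((4 * 2 ^ (n + 3) : ℕ) : ℝ)) / 2 ^ (n + 3) ≤
          ((t : ℝ) + 1) / 2 ^ n - 4 := by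
      intro t
      have e : (((8 * t + 4 : ℕ) : ℝ) - ((4 * 2 ^ (n + 3) : ℕ) : ℝ)) / 2 ^ (n + 3)
          = ((t : ℝ) + 1 / 2) / 2 ^ n - 4 := by
        push_cast
        rw [pow_add]
        field_simp
        ring
      rw [e]
      constructor
      · apply sub_le_sub_right
        apply div_le_div_of_nonneg_right _ hp.le
        linarith
      · apply sub_le_sub_right
        apply div_le_div_of_nonneg_right _ hp.le
        linarith
    have hzM : z ∈ MM := hS ⟨(key x).1, (key x).2, (key y).1, (key y).2⟩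
    have h0 : Metric.infDist z {w : ℂ | ∀ i : ℕ, ‖(fun z : ℂ => z ^ 2 + w)^[i] 0‖ ≤ 2} = 0 :=
      dM_zero_iff.mpr hzM
    rw [h0, sub_zero, abs_div, abs_of_pos (show (0 : ℝ) < 2 ^ (n + 3) by positivity),
      div_le_div_iff_of_pos_right (by positivity), abs_le] at h1
    have h2 : (((F (8 * x + 4, 4 * 2 ^ (n + 3), 8 * y + 4, 4 * 2 ^ (n + 3), n + 3)).1 : ℕ) : ℝ)
        ≤ ((F (8 * x + 4, 4 * 2 ^ (n + 3), 8 * y + 4, 4 * 2 ^ (n + 3), n + 3)).2 : ℝ) + 2 := by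
      linarith [h1.2]
    show _ ≤ _
    exact_mod_cast h2
  · intro n x y hpxy
    have h1 := hF (8 * x + 4) (4 * 2 ^ (n + 3)) (8 * y + 4) (4 * 2 ^ (n + 3)) (n + 3)
    set z : ℂ := Complex.mk ((((8 * x + 4 : ℕ) : ℝ) - ((4 * 2 ^ (n + 3) : ℕ) : ℝ)) / 2 ^ (n + 3))
        ((((8 * y + 4 : ℕ) : ℝ) - ((4 * 2 ^ (n + 3) : ℕ) : ℝ)) / 2 ^ (n + 3)) with hz
    have hp : (0 : ℝ) < 2 ^ n := by positivity
    have hpxy' : (F (8 * x + 4, 4 * 2 ^ (n + 3), 8 * y + 4, 4 * 2 ^ (n + 3), n + 3)).1 ≤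
        (F (8 * x + 4, 4 * 2 ^ (n + 3), 8 * y + 4, 4 * 2 ^ (n + 3), n + 3)).2 + 2 := hpxy
    have h2 : (((F (8 * x + 4, 4 * 2 ^ (n + 3), 8 * y + 4, 4 * 2 ^ (n + 3), n + 3)).1 : ℕ) : ℝ)
        ≤ ((F (8 * x + 4, 4 * 2 ^ (n + 3), 8 * y + 4, 4 * 2 ^ (n + 3), n + 3)).2 : ℝ) + 2 := by
      exact_mod_cast hpxy'
    have h3 : dM z < 1 / 2 ^ n / 2 := by
      have h1' : |(((F (8 * x + 4, 4 * 2 ^ (n + 3), 8 * y + 4, 4 * 2 ^ (n + 3), n + 3)).1 : ℝ) -
        ((F (8 * x + 4, 4 * 2 ^ (n + 3), 8 * y + 4, 4 * 2 ^ (n + 3), n + 3)).2 : ℝ)) / 2 ^ (n + 3) -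
        dM z| ≤ 1 / 2 ^ (n + 3) := h1
      have e8 : (2 : ℝ) ^ (n + 3) = 8 * 2 ^ n := by rw [pow_add]; ring
      rw [e8] at h1'
      rw [abs_le] at h1'
      have h4 : dM z ≤ (((F (8 * x + 4, 4 * 2 ^ (n + 3), 8 * y + 4, 4 * 2 ^ (n + 3), n + 3)).1 : ℝ) -
        ((F (8 * x + 4, 4 * 2 ^ (n + 3), 8 * y + 4, 4 * 2 ^ (n + 3), n + 3)).2 : ℝ)) / (8 * 2 ^ n)
          + 1 / (8 * 2 ^ n) := by linarith [h1'.1]
      have h5 : (((F (8 * x + 4, 4 * 2 ^ (n + 3), 8 * y + 4, 4 * 2 ^ (n + 3), n + 3)).1 : ℝ) -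
        ((F (8 * x + 4, 4 * 2 ^ (n + 3), 8 * y + 4, 4 * 2 ^ (n + 3), n + 3)).2 : ℝ)) / (8 * 2 ^ n)
          ≤ 2 / (8 * 2 ^ n) := by
        apply div_le_div_of_nonneg_right _ (by positivity)
        linarith
      have h6 : (2 : ℝ) / (8 * 2 ^ n) + 1 / (8 * 2 ^ n) = 3 / 8 * (1 / 2 ^ n) := by
        field_simp
        norm_num
      have h7 : (0 : ℝ) < 1 / 2 ^ n := by positivity
      linarith
    unfold dM at h3
    rw [infDist_lt_iff ⟨0, zero_mem_MM⟩] at h3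
    obtain ⟨v, hv, hvz⟩ := h3
    refine ⟨v, ?_, hv⟩
    rw [dist_eq_norm] at hvz
    have key : ∀ (t : ℕ) (r : ℝ),
        |(((8 * t + 4 : ℕ) : ℝ) - ((4 * 2 ^ (n + 3) : ℕ) : ℝ)) / 2 ^ (n + 3) - r| ≤ 1 / 2 ^ n / 2 →
        (t : ℝ) / 2 ^ n - 4 ≤ r ∧ r ≤ ((t : ℝ) + 1) / 2 ^ n - 4 := by
      intro t r hr
      have e : (((8 * t + 4 : ℕ) : ℝ) - ((4 * 2 ^ (n + 3) : ℕ) : ℝ)) / 2 ^ (n + 3)
          = (t : ℝ) / 2 ^ n + 1 / 2 ^ n / 2 - 4 := by
        push_cast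
        rw [pow_add]
        field_simp
        ring
      have e2 : ((t : ℝ) + 1) / 2 ^ n = (t : ℝ) / 2 ^ n + 1 / 2 ^ n := by ring
      rw [e, abs_le] at hr
      rw [e2]
      constructor <;> linarith [hr.1, hr.2]
    have hre := (Complex.abs_re_le_norm (z - v)).trans hvz.le
    have him := (Complex.abs_im_le_norm (z - v)).trans hvz.le
    rw [Complex.sub_re] at hre
    rw [Complex.sub_im] at him
    exact ⟨(key x v.re hre).1, (key x v.re hre).2, (key y v.im him).1, (key y v.im him).2⟩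

end Pool.MP_500150_lc.H8
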