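import Mathlib
import Pool.Agent.Work.MP_500150_lc.H8.Neck

set_option autoImplicit false

/-!
# The width of the channel of a point with a given escape time
-/

namespace Pool.MP_500150_lc.H8

open Metric Set

lemma near_small {v c₀ : ℂ} (hc : c₀ ∈ MM) {N : ℕ} (h : ‖v - c₀‖ * ((5 ^ N - 1) / 4) ≤ 1) :
    ∀ n ≤ N, ‖P n v - P n c₀‖ ≤ ‖v - c₀‖ * ((5 ^ n - 1) / 4) := by
  intro n
  induction n with
  | zero => intro _; simp [P_zero]
  | succ n ih =>
    intro hn
    have h1 := ih (by omega)
    have h2 : ‖v - c₀‖ * ((5 ^ n - 1) / 4) ≤ 1 := by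
      refine le_trans ?_ h
      apply mul_le_mul_of_nonneg_left _ (norm_nonneg _)
      have : (5 : ℝ) ^ n ≤ 5 ^ N := pow_le_pow_right₀ (by norm_num) (by omega)
      linarith
    have h3 := (mem_MM.mp hc) n
    have h4 : ‖P n v + P n c₀‖ ≤ 5 := by
      have e : P n v + P n c₀ = (P n v - P n c₀) + 2 * P n c₀ := by ring
      rw [e]
      refine (norm_add_le _ _).trans ?_
      rw [norm_mul]
      have : ‖(2 : ℂ)‖ = 2 := by simp
      rw [this]
      linarith
    have e : P (n + 1) v - P (n + 1) c₀ = (P n v - P n c₀) * (P n v + P n c₀) + (v - c₀) := by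
      rw [P_succ, P_succ]; ring
    rw [e]
    refine (norm_add_le _ _).trans ?_
    rw [norm_mul]
    have h5 : ‖P n v - P n c₀‖ * ‖P n v + P n c₀‖ ≤ ‖v - c₀‖ * ((5 ^ n - 1) / 4) * 5 :=
      mul_le_mul h1 h4 (norm_nonneg _) (le_trans (norm_nonneg _) h1)
    rw [pow_succ]
    linarith

/-- Escape within `N` steps is possible only at distance more than `4 / 5 ^ N`. -/
theorem dM_of_large {N : ℕ} {v : ℂ} (h : 3 < ‖P N v‖) : 4 / 5 ^ N < dM v := by
  by_contra hcon
  push Not at hcon
  obtain ⟨w, hw, hwd⟩ := isClosed_MM.exists_infDist_eq_dist ⟨0, zero_mem_MM⟩ v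
  have h2 : dM v = ‖v - w‖ := by
    unfold dM
    rw [hwd, dist_eq_norm]
  rw [h2] at hcon
  have h5 : (0 : ℝ) < 5 ^ N := by positivity
  have h6 : (1 : ℝ) ≤ 5 ^ N := one_le_pow₀ (by norm_num)
  have h3 : ‖v - w‖ * ((5 ^ N - 1) / 4) ≤ 1 := by
    have h7 : ‖v - w‖ * ((5 ^ N - 1) / 4) ≤ 4 / 5 ^ N * ((5 ^ N - 1) / 4) :=
      mul_le_mul_of_nonneg_right hcon (by linarith)
    refine h7.trans ?_
    rw [div_mul_div_comm, div_le_one (by positivity)]
    linarith
  have h4 := (near_small hw h3 N le_rfl).trans h3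
  have h8 := (mem_MM.mp hw) N
  have h9 : ‖P N v‖ ≤ ‖P N v - P N w‖ + ‖P N w‖ := by
    have := norm_add_le (P N v - P N w) (P N w)
    simpa using this
  linarith

lemma reach_of_large_gen {N : ℕ} {c : ℂ} (hc : 3 < ‖P N c‖) {r : ℝ}
    (hr : ∀ w : ℂ, 3 < ‖P N w‖ → r < dM w) : Reach r c := by
  set O : Set ℂ := {w : ℂ | 3 < ‖P N w‖} with hO
  have hOo : IsOpen O := isOpen_lt continuous_const (continuous_P N).norm
  have hcO : c ∈ O := hc
  set S := connectedComponentIn O c with hS
  have hcS : c ∈ S := mem_connectedComponentIn hcO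
  have hSO : S ⊆ O := connectedComponentIn_subset O c
  have hSo : IsOpen S := hOo.connectedComponentIn
  have hSc : IsPreconnected S := isPreconnected_connectedComponentIn
  refine ⟨S, hSc, hcS, ?_, ?_⟩
  · by_contra hcon
    push Not at hcon
    have hb : Bornology.IsBounded S :=
      (isBounded_ball (x := (0 : ℂ)) (r := 3)).subset
        (fun w hw => by rw [mem_ball_zero_iff]; exact hcon w hw)
    have hfr : ∀ w ∈ frontier S, ‖P N w‖ ≤ 3 := by
      intro w hw
      by_contra h3
      push Not at h3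
      rw [hSo.frontier_eq] at hw
      obtain ⟨hw1, hw2⟩ := hw
      apply hw2
      obtain ⟨ε, hε, hεO⟩ := Metric.isOpen_iff.mp hOo w h3
      obtain ⟨v, hvS, hvw⟩ := Metric.mem_closure_iff.mp hw1 ε hε
      have hball : IsPreconnected (ball w ε) := (convex_ball w ε).isPreconnected
      have hvb : v ∈ ball w ε := by rw [mem_ball, dist_comm]; exact hvw
      have h4 : IsPreconnected (S ∪ ball w ε) := hSc.union v hvS hvb hball
      have h5 : S ∪ ball w ε ⊆ S :=
        h4.subset_connectedComponentIn (Or.inl hcS) (union_subset hSO hεO)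
      exact h5 (Or.inr (mem_ball_self hε))
    have h6 := Complex.norm_le_of_forall_mem_frontier_norm_le hb
      (differentiable_P N).diffContOnCl hfr (subset_closure hcS)
    linarith
  · intro w hw
    exact hr w (hSO hw)

/-- A point which escapes within `N` steps is joined to the outside by a channel of half-width
`4 / 5 ^ N`. -/
theorem reach_of_large' {N : ℕ} {c : ℂ} (hc : 3 < ‖P N c‖) : Reach (4 / 5 ^ N) c :=
  reach_of_large_gen hc (fun _ hw => dM_of_large hw)

end Pool.MP_500150_lc.H8
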