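import Mathlib
import Pool.Agent.Work.MP_500150_lc.H8.Pic
import Pool.Agent.Work.MP_500150_lc.H8.Chain

set_option autoImplicit false

/-!
# Pictures: the points reached by short chains
-/

namespace Pool.MP_500150_lc.H8

open Metric Set

/-- `c` is joined to the outside by a chain of at most `m` steps. -/
def ChainTo (m : ℕ) (c : ℂ) : Prop :=
  ∃ w : ℕ → ℂ, 3 ≤ ‖w 0‖ ∧ (∀ i < m, ‖w (i + 1) - w i‖ ≤ dM (w i) / 4) ∧ w m = c

lemma ChainTo.time {m : ℕ} {c : ℂ} (h : ChainTo m c) {n : ℕ} (hn : m + 3 ≤ n) : 3 < ‖P n c‖ := by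
  obtain ⟨w, h0, h1, rfl⟩ := h
  exact chain_time h0 h1 hn

lemma ChainTo.step {m : ℕ} {c c' : ℂ} (h : ChainTo m c) (hc : ‖c' - c‖ ≤ dM c / 4) :
    ChainTo (m + 1) c' := by
  obtain ⟨w, h0, h1, rfl⟩ := h
  refine ⟨fun i => if i ≤ m then w i else c', ?_, ?_, ?_⟩
  · simpa using h0
  · intro i hi
    rcases Nat.lt_succ_iff_lt_or_eq.mp hi with h2 | h2
    · have e1 : i + 1 ≤ m := h2
      have e2 : i ≤ m := h2.le
      simp only [e1, e2, if_true]
      exact h1 i h2
    · subst h2
      simp only [le_refl, if_true]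
      rw [if_neg (by omega)]
      exact hc
  · simp

lemma ChainTo.near {m : ℕ} {c g : ℂ} (h : ChainTo m c) (hg : ‖g - c‖ ≤ 9 / 16 * dM c) :
    ChainTo (m + 4) g := by
  set v : ℂ := (g - c) / 4 with hv
  have hvn : ‖v‖ ≤ 9 / 64 * dM c := by
    rw [hv, norm_div]
    have : ‖(4 : ℂ)‖ = 4 := by simp
    rw [this]
    linarith
  have hd := dM_nonneg c
  have hlow : ∀ t : ℂ, dM c - ‖t‖ ≤ dM (c + t) := by
    intro t
    have := dM_le_add c (c + t)
    rw [norm_sub_rev] at this
    have e : c + t - c = t := by ring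
    rw [e] at this
    linarith
  have n2 : ‖(2 : ℂ)‖ = 2 := by simp
  have n3 : ‖(3 : ℂ)‖ = 3 := by simp
  have s1 : ChainTo (m + 1) (c + v) := by
    apply h.step
    have e : c + v - c = v := by ring
    rw [e]
    linarith
  have s2 : ChainTo (m + 2) (c + 2 * v) := by
    apply s1.step
    have e : c + 2 * v - (c + v) = v := by ring
    rw [e]
    have := hlow v
    linarith
  have s3 : ChainTo (m + 3) (c + 3 * v) := by
    apply s2.step
    have e : c + 3 * v - (c + 2 * v) = v := by ring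
    rw [e]
    have := hlow (2 * v)
    rw [norm_mul, n2] at this
    linarith
  apply s3.step
  have e : g - (c + 3 * v) = v := by rw [hv]; ring
  rw [e]
  have := hlow (3 * v)
  rw [norm_mul, n3] at this
  linarith

theorem pic_chain {a b c d k m : ℕ} (h : 2 / 2 ^ k < dM (zpt a b c d k))
    (hr : ChainTo (4 ^ m) (zpt a b c d k)) : TT a b c d k m := by
  intro x _ y _
  set N := NN (m + k + 1) with hN
  rw [near_iff (le_JJ _ _), big_iff _ _ (gq_pos _ _ _)]
  by_cases h1 : 1 / 2 ^ k + 2 / 2 ^ (JJ N k) < ‖pt (gq (JJ N k) x y) - zpt a b c d k‖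
  · exact Or.inl h1
  · push Not at h1
    right
    have h2 := prec2 N k
    have h3 : ChainTo (4 ^ m + 4) (pt (gq (JJ N k) x y)) := by
      apply hr.near
      have e : (2 : ℝ) / 2 ^ k = 2 * (1 / 2 ^ k) := by ring
      rw [e] at h
      have : (0 : ℝ) < 1 / 2 ^ k := by positivity
      linarith
    have h4 : 4 ^ m + 4 + 3 ≤ N := by
      rw [hN]
      unfold NN
      have h5 : 4 ^ (m + k + 1) = 4 ^ m * 4 ^ (k + 1) := by rw [add_assoc, pow_add]
      have h6 : 1 ≤ 4 ^ (k + 1) := Nat.one_le_pow _ _ (by norm_num)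
      have h7 : 1 ≤ 4 ^ m := Nat.one_le_pow _ _ (by norm_num)
      rw [h5]
      nlinarith
    have h5 := h3.time h4
    push_cast
    nlinarith

end Pool.MP_500150_lc.H8
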